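import Pool.Agent.P.MP_26a8c3_nt.QV.St
import Pool.Agent.P.MP_26a8c3_nt.QT.St
import Pool.Agent.P.MP_26a8c3_nt.QA.Gam

/-! Statements of the layer: the theta side moment with a divisibility condition. -/

namespace Pool.Agent.P.MP_323ce2_nt.QW

open Finset Pool.Agent.P.MP_26a8c3_nt Pool.Agent.P.MP_26a8c3_nt.QO Pool.Agent.P.MP_26a8c3_nt.QA
open Pool.Agent.P.MP_26a8c3_nt.QV
open scoped Classical ComplexConjugate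

noncomputable section

/-- theta side sum over all arguments `c * k ^ 3` divisible by `D`, summed over the levels `D` -/
def Bd (ν : O → ℂ) (h : O) (S : Finset O) (F : O → ℂ) (X t : ℝ) : ℂ :=
  ∑ D ∈ S, F D * ∑' x : O × O, if SQ x.1 ∧ Primary x.2 ∧ D ∣ x.1 * x.2 ^ 3 then
    (ab x.2 : ℂ) * tau x.1 * Phi ν h (x.1 * x.2 ^ 3) * W (X * N D) t (nr (x.1 * x.2 ^ 3)) else 0

/-- the shape of the bound -/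
def BB (H X P : ℝ) : ℝ := H + H ^ 2 * P / X + P * (H * X) ^ (1 / 3 : ℝ) + H * P ^ 2 / √X

/-- the size of the parameters -/
def ZZ (H X P : ℝ) : ℝ := 2 + H + P + H ^ 2 * P / X

/-- the square of the norm of the coefficients -/
def n2 (S : Finset O) (F : O → ℂ) : ℝ := ∑ D ∈ S, ‖F D‖ ^ 2

/-- the bound -/
def RH (C ε H X P t : ℝ) : ℝ := C * (1 + |t|) ^ 16 * ZZ H X P ^ ε * X * BB H X P

/-- THE GOAL: the Voronoi bound with levels -/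
def S_VD : Prop :=
  ∀ Q : O, Q ≠ 0 → 36 ∣ Q → ∀ ε : ℝ, 0 < ε → ∃ C : ℝ, 0 < C ∧ ∀ ν, IsNu Q ν →
    ∀ (H X P t : ℝ) (S s : Finset O) (F : O → ℂ), 0 < H → 0 < X → 1 ≤ P →
      (∀ D ∈ S, SQ D ∧ (N D : ℝ) ≤ P) → 0 ∉ s →
      ∑ h ∈ s, G (N h / H) * ‖Bd ν h S F X t‖ ^ 2 ≤ RH C ε H X P t * n2 S F

/-- the shape of the bound on the dual side -/
def Mb (G P W : ℝ) : ℝ :=
  G + W + G * P ^ (4 / 3 : ℝ) * W ^ (-(1 / 3) : ℝ) + P ^ (3 / 2 : ℝ) * W ^ (1 / 2 : ℝ)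

/-- the Ramanujan sum -/
def cR (d n : O) : ℂ := ft (cop d) d n

/-- the indicator of divisibility -/
def ind (D n : O) : ℂ := if D ∣ n then 1 else 0

/-- squarefree, primary, odd, in a dyadic range -/
def Dy (G : ℝ) (g : O) : Prop := SQO g ∧ G ≤ 2 * (N g : ℝ) ∧ (N g : ℝ) ≤ G

/-- `j` has the radical `k` and all its exponents lie between two and five -/
def Kj (k j : O) : Prop := SQO k ∧ Primary j ∧ k ^ 2 ∣ j ∧ j ∣ k ^ 5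

/-- the shape of a sixth power free element -/
def Sx (Q h : O) : Prop :=
  ∃ h₀ g k j : O, h₀ ∣ Q ^ 5 ∧ SQO g ∧ Kj k j ∧ IsCoprime g Q ∧ IsCoprime k Q ∧ IsCoprime g k ∧
    h = h₀ * g * j

/-- primitive characters -/
structure Prim (k : O) (ρ : O → ℂ) : Prop where
  nu : IsNu k ρ
  eq : ∀ n, ft ρ k n = conj (ρ n) * ft ρ k 1
  nm : ‖ft ρ k 1‖ = ab k

/-- the kernel of the dual sum separates three variables and gains at small arguments -/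
def Kr2 (J : ℝ → ℝ → ℂ) : Prop :=
  ∃ C : ℝ, 0 ≤ C ∧ ∀ (s S : Finset O) (b : O → O → O → ℂ) (β γ : O → ℝ) (β₀ γ₀ V D t : ℝ),
    0 < β₀ → 0 < γ₀ → V * (β₀ * γ₀) = 1 → 0 ≤ D → (∀ g d, b g d 0 = 0) →
    (∀ g ∈ s, β₀ ≤ β g ∧ β g ≤ 4 * β₀) → (∀ d ∈ S, γ₀ ≤ γ d ∧ γ d ≤ 4 * γ₀) →
    (∀ g ∈ s, ∀ d ∈ S, Summable fun n => ‖b g d n‖ * (N n : ℝ) ^ (-2 : ℝ)) →
    (∀ (z : ℝ) (θ θ' : O → ℂ) (I : Finset O), 0 < z → (∀ n, ‖θ n‖ ≤ 1) → (∀ d, ‖θ' d‖ ≤ 1) →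
      (∀ n ∈ I, z * V ≤ (N n : ℝ) ∧ (N n : ℝ) ≤ 2 * (z * V)) →
      ∑ g ∈ s, ‖∑ n ∈ I, ∑ d ∈ S, θ n * θ' d * b g d n‖ ^ 2 ≤ D * (z ^ 3 + z ^ (-(1 / 2) : ℝ))) →
    ∑ g ∈ s, ‖∑ d ∈ S, ∑' n, b g d n * J t (N n * (β g * γ d))‖ ^ 2 ≤ C * (1 + |t|) ^ 16 * D

/-- the theta coefficients with the sharper information -/
structure Th2 (T : O → O → ℂ) (c₀ C₀ : ℝ) (J : ℝ → ℝ → ℂ) : Prop where
  th : Th T c₀ C₀ J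
  lam : ∀ x n, Lp n → ‖T x n‖ ≤ C₀ * (N n : ℝ) ^ (1 / 3 : ℝ)
  kr : Kr2 J
  vor : ∀ (γ α δ : O) (X t : ℝ), γ ≠ 0 → 0 < X → Primary α → 9 * γ ∣ α * δ - 1 →
    Lh T (fun n => el (n * α) (9 * γ)) X t = ang γ ^ 2 * (X : ℂ) ^ (1 / 2 + t * Complex.I) *
      chi α γ * Rh T J γ (fun n => el (-(n * δ)) (9 * γ)) t (X * c₀ / (N γ : ℝ) ^ 2)

/-- the sum over the levels with Ramanujan sums -/
def Lc (T : O → O → ℂ) (Φ : O → ℂ) (g j : O) (S : Finset O) (F : O → ℂ) (X t : ℝ) : ℂ :=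
  ∑ d ∈ S, cop g d * F d * (N d : ℂ)⁻¹ *
    Lh T (fun n => Φ n * (conj (psi g n) * cR d n * conj (psi j n))) (X * N d) t

/-- the sum over the levels with divisibility conditions -/
def Li (T : O → O → ℂ) (Φ : O → ℂ) (g j : O) (S : Finset O) (F : O → ℂ) (X t : ℝ) : ℂ :=
  ∑ D ∈ S, F D * Lh T (fun n => Φ n * (conj (psi g n) * ind D n * conj (psi j n))) (X * N D) t

/-- the coefficients at the powers of `lam` -/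
def S_Lam : Prop := ∀ As, QT.IsAs As → ∃ C : ℝ, ∀ x n, Lp n → ‖As x n‖ ≤ C

/-- the kernel -/
def S_Ker : Prop := Kr2 QA.J

/-- existence -/
def S_Th2 : Prop := ∃ T c₀ C₀ J, Th2 T c₀ C₀ J

/-- Gauss sums of primitive characters -/
def S_Prm : Prop :=
  (∀ a b ρ σ, a ≠ 0 → b ≠ 0 → IsCoprime a b → Prim a ρ → Prim b σ →
    Prim (a * b) fun x => ρ x * σ x) ∧
  (∀ d, SQ d → Prim d (chi d) ∧ Prim d fun x => conj (chi d x)) ∧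
  (∀ g, SQO g → Prim g (psi g) ∧ Prim g (eta g)) ∧
  ∀ k j, Kj k j → Prim k (psi j) ∧ ∃ s : ℝ, 0 ≤ s ∧ s ^ 3 * N k ≤ N j ∧ s * (N k : ℝ) ^ 2 ≤ N j ∧
    ∀ n, ‖ft (fun x => conj (psi j x * chi k x)) k n‖ ^ 2 ≤ s * N k

/-- the twist of one fraction by a character -/
def S_Tw2 : Prop :=
  ∀ T c₀ C₀ J, Th2 T c₀ C₀ J → ∀ (a q δ k : O) (ρ : O → ℂ) (X t : ℝ), 0 < X → q ≠ 0 →
    Primary a → Primary k → IsCoprime k q → IsNu k ρ → 9 * q ∣ a * k ^ 2 * δ - 1 →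
    Lh T (fun n => el (n * a) (9 * q) * ft ρ k n) X t =
      ang (q * k) ^ 2 * (X : ℂ) ^ (1 / 2 + t * Complex.I) *
        (chi (a * k) q * chi k (9 * q) * conj (ρ ((9 * q) ^ 2) * chi k ((9 * q) ^ 2))) *
        Rh T J q (fun n => el (-(n * δ)) (9 * q) * ft (fun x => conj (ρ x * chi k x)) k (-n)) t
          (X * c₀ / ((N q : ℝ) * N k) ^ 2)

/-- the same with the three parts of the modulus separated -/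
def S_Tw3 : Prop :=
  ∀ T c₀ C₀ J, Th2 T c₀ C₀ J → ∀ a q δ k j : O, q ≠ 0 → Primary a → Kj k j → IsCoprime k q →
    ∃ (s : ℝ) (u v θ : O → ℂ), 0 ≤ s ∧ s ^ 3 * N k ≤ N j ∧ s * (N k : ℝ) ^ 2 ≤ N j ∧
      (∀ g, ‖u g‖ ≤ 1) ∧ (∀ d, ‖v d‖ ≤ 1) ∧ (∀ n, ‖θ n‖ ≤ 1) ∧
      ∀ (g d : O) (X t : ℝ), 0 < X → SQO g → SQO d → IsCoprime g (q * k) → IsCoprime d (q * k) →
        IsCoprime d g → 9 * q ∣ a * (g * d * k) ^ 2 * δ - 1 →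
        Lh T (fun n => el (n * a) (9 * q) * (conj (psi g n) * cR d n * conj (psi j n))) X t =
          (√s : ℝ) * u g * v d * ab d * (X : ℂ) ^ (1 / 2 + t * Complex.I) *
            Rh T J q (fun n => θ n * chi d n * eta g n) t
              (X * c₀ / ((N q : ℝ) * N (g * d * k)) ^ 2)

/-- the trivial cubic large sieve, plain and weighted -/
def S_CLS : Prop :=
  ∀ ε : ℝ, 0 < ε → ∃ C : ℝ, 0 ≤ C ∧ ∀ (P Y : ℝ) (S I : Finset O) (F : O → ℂ), 1 ≤ P → 1 ≤ Y →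
    (∀ d ∈ S, SQ d ∧ (N d : ℝ) ≤ P) → (∀ c ∈ I, c ≠ 0 ∧ (N c : ℝ) ≤ Y) →
    ∑ c ∈ I, ‖∑ d ∈ S, F d * chi d c‖ ^ 2 ≤
      C * (Y + P ^ (3 / 2 : ℝ) * Y ^ (1 / 2 : ℝ)) * n2 S F ∧
    ∑ c ∈ I, (N c : ℝ) ^ (-(2 / 3) : ℝ) * ‖∑ d ∈ S, F d * chi d c‖ ^ 2 ≤
      C * Y ^ ε * (Y ^ (1 / 3 : ℝ) + P ^ (4 / 3 : ℝ)) * n2 S F

/-- the weighted quadratic large sieve -/
def S_WLS : Prop :=
  ∀ ε : ℝ, 0 < ε → ∃ C : ℝ, 0 ≤ C ∧ ∀ (G R : ℝ) (s S : Finset O) (a : O → ℂ), 1 ≤ G → 1 ≤ R →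
    (∀ g ∈ s, SQO g ∧ (N g : ℝ) ≤ G) → (∀ m ∈ S, SQ m ∧ (N m : ℝ) ≤ R) →
    ∑ g ∈ s, ‖∑ m ∈ S, a m * eta g m‖ ^ 2 ≤ C * (G * R) ^ ε * ∑ m ∈ S, (G + N m) * ‖a m‖ ^ 2

/-- the sieve in the joint variable -/
def S_BL : Prop :=
  ∀ ε : ℝ, 0 < ε → ∃ C : ℝ, 0 ≤ C ∧ ∀ (G R : ℝ) (s I : Finset O) (a : O → ℂ) (e k m τ : O → O),
    1 ≤ G → 1 ≤ R → (∀ g ∈ s, SQO g ∧ (N g : ℝ) ≤ G) →
    (∀ n ∈ I, (N n : ℝ) ≤ R ∧ Lp (e n) ∧ Primary (k n) ∧ SQ (m n) ∧ Primary (τ n) ∧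
      k n ∣ m n * τ n ^ 2 ∧ n = e n * k n ^ 2 * (m n * τ n ^ 2)) →
    ∑ g ∈ s, ‖∑ n ∈ I, a n * eta g n‖ ^ 2 ≤
      C * (G * R) ^ ε * ∑ n ∈ I, (G + N (m n)) * N (τ n) * ‖a n‖ ^ 2

/-- the large sieve for theta coefficients times cubic sums -/
def S_TS1 : Prop :=
  ∀ T c₀ C₀ J, Th2 T c₀ C₀ J → ∀ ε : ℝ, 0 < ε → ∃ C : ℝ, 0 ≤ C ∧
    ∀ (x : O) (G P W : ℝ) (s S I : Finset O) (θ F : O → ℂ), 1 ≤ G → 1 ≤ P → 0 < W →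
      (∀ g ∈ s, SQO g ∧ (N g : ℝ) ≤ G) → (∀ d ∈ S, SQ d ∧ (N d : ℝ) ≤ P) → (∀ n, ‖θ n‖ ≤ 1) →
      (∀ n ∈ I, W ≤ (N n : ℝ) ∧ (N n : ℝ) ≤ 2 * W) →
      ∑ g ∈ s, ‖∑ n ∈ I, θ n * T x n * (ab n : ℂ)⁻¹ * (∑ d ∈ S, F d * chi d n) * eta g n‖ ^ 2 ≤
        C * (1 + G + P + W) ^ ε * Mb G P W * n2 S F

/-- the same with the coprimality condition -/
def S_TS2 : Prop :=
  ∀ T c₀ C₀ J, Th2 T c₀ C₀ J → ∀ ε : ℝ, 0 < ε → ∃ C : ℝ, 0 ≤ C ∧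
    ∀ (x : O) (G P W : ℝ) (s S I : Finset O) (θ F : O → ℂ), 1 ≤ G → 1 ≤ P → 0 < W →
      (∀ g ∈ s, SQO g ∧ (N g : ℝ) ≤ G) → (∀ d ∈ S, SQ d ∧ (N d : ℝ) ≤ P) → (∀ n, ‖θ n‖ ≤ 1) →
      (∀ n ∈ I, W ≤ (N n : ℝ) ∧ (N n : ℝ) ≤ 2 * W) →
      ∑ g ∈ s, ‖∑ n ∈ I, θ n * T x n * (ab n : ℂ)⁻¹ * (∑ d ∈ S, cop g d * F d * chi d n) *
        eta g n‖ ^ 2 ≤ C * (1 + G + P + W) ^ ε * Mb G P W * n2 S F

/-- the mean square of the dual sums -/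
def S_D2 : Prop :=
  ∀ T c₀ C₀ J, Th2 T c₀ C₀ J → ∀ ε : ℝ, 0 < ε → ∃ C : ℝ, 0 ≤ C ∧
    ∀ (x : O) (G P B t : ℝ) (s S : Finset O) (θ F : O → ℂ), 1 ≤ G → 1 ≤ P → 0 < B →
      (∀ g ∈ s, Dy G g) → (∀ d ∈ S, Dy P d) → (∀ n, ‖θ n‖ ≤ 1) →
      ∑ g ∈ s, ‖∑ d ∈ S, cop g d * F d *
        Rh T J x (fun n => θ n * chi d n * eta g n) t (B / ((N g : ℝ) ^ 2 * N d))‖ ^ 2 ≤
        C * (1 + |t|) ^ 16 * (1 + G + P + G ^ 2 * P / B) ^ ε * Mb G P (G ^ 2 * P / B) * n2 S F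

/-- one fraction, one pair of residue classes -/
def S_Core : Prop :=
  ∀ T c₀ C₀ J, Th2 T c₀ C₀ J → ∀ ε Y : ℝ, 0 < ε → ∃ C : ℝ, 0 ≤ C ∧
    ∀ (a q δ k j : O) (G H P X t : ℝ) (s S : Finset O) (F : O → ℂ), q ≠ 0 → (N q : ℝ) ≤ Y →
      Primary a → Kj k j → IsCoprime k q → 1 ≤ G → G * N j ≤ H → 1 ≤ P → 0 < X →
      (∀ g ∈ s, Dy G g ∧ IsCoprime g (q * k)) → (∀ d ∈ S, Dy P d ∧ IsCoprime d (q * k)) →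
      (∀ g ∈ s, ∀ d ∈ S, 9 * q ∣ a * (g * d * k) ^ 2 * δ - 1) →
      ∑ g ∈ s, ‖Lc T (fun n => el (n * a) (9 * q)) g j S F X t‖ ^ 2 ≤
        RH C ε H X P t * n2 S F / N k

/-- expansion of the periodic factor -/
def S_Exp2 : Prop :=
  ∀ T c₀ C₀ J, Th2 T c₀ C₀ J → ∀ q : O, q ≠ 0 → ∀ ε : ℝ, 0 < ε → ∃ C : ℝ, 0 ≤ C ∧
    ∀ (k j : O) (G H P X t : ℝ) (s S : Finset O) (F : O → ℂ) (Φ : O → O → ℂ),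
      Kj k j → IsCoprime k q → 1 ≤ G → G * N j ≤ H → 1 ≤ P → 0 < X →
      (∀ g ∈ s, Dy G g ∧ IsCoprime g (q * k)) → (∀ d ∈ S, Dy P d ∧ IsCoprime d (q * k)) →
      (∀ g, Per (9 * q) (Φ g) ∧ ∀ n, ‖Φ g n‖ ≤ 1) →
      ∑ g ∈ s, ‖Lc T (Φ g) g j S F X t‖ ^ 2 ≤ RH C ε H X P t * n2 S F / N k

/-- divisibility through Ramanujan sums -/
def S_Ram : Prop :=
  (∀ d n, d ≠ 0 → ‖cR d n‖ ≤ N d) ∧ ∀ D n, SQ D → (N D : ℂ) * ind D n = ∑ d ∈ pdiv D, cR d n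

/-- from Ramanujan sums to divisibility conditions -/
def S_Lev : Prop :=
  ∀ T c₀ C₀ J, Th2 T c₀ C₀ J → ∀ q : O, q ≠ 0 → ∀ ε : ℝ, 0 < ε → ∃ C : ℝ, 0 ≤ C ∧
    ∀ (k j : O) (G H P X t : ℝ) (s S : Finset O) (F : O → ℂ) (Φ : O → O → ℂ),
      Kj k j → IsCoprime k q → 1 ≤ G → G * N j ≤ H → 1 ≤ P → 0 < X →
      (∀ g ∈ s, Dy G g ∧ IsCoprime g (q * k)) → (∀ D ∈ S, Dy P D ∧ IsCoprime D q) →
      (∀ g, Per (9 * q) (Φ g) ∧ ∀ n, ‖Φ g n‖ ≤ 1) →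
      ∑ g ∈ s, ‖Li T (Φ g) g j S F X t‖ ^ 2 ≤ RH C ε H X P t * n2 S F / N k

/-- removal of the dyadic ranges -/
def S_Dya : Prop :=
  ∀ T c₀ C₀ J, Th2 T c₀ C₀ J → ∀ q : O, q ≠ 0 → ∀ ε : ℝ, 0 < ε → ∃ C : ℝ, 0 ≤ C ∧
    ∀ (k j : O) (H P X t : ℝ) (s S : Finset O) (F : O → ℂ) (Φ : O → O → ℂ),
      Kj k j → IsCoprime k q → 1 ≤ H → 1 ≤ P → 0 < X →
      (∀ g ∈ s, SQO g ∧ (N g : ℝ) * N j ≤ H ∧ IsCoprime g (q * k)) →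
      (∀ D ∈ S, SQO D ∧ (N D : ℝ) ≤ P ∧ IsCoprime D q) →
      (∀ g, Per (9 * q) (Φ g) ∧ ∀ n, ‖Φ g n‖ ≤ 1) →
      ∑ g ∈ s, ‖Li T (Φ g) g j S F X t‖ ^ 2 ≤ RH C ε H X P t * n2 S F / N k

/-- insertion of the theta coefficients -/
def S_Ins2 : Prop :=
  ∀ T c₀ C₀ J, Th2 T c₀ C₀ J → ∃ (m₀ : O) (s₀ C : ℝ), m₀ ≠ 0 ∧ 0 < s₀ ∧ 0 ≤ C ∧
    (∀ g, SQO g → IsCoprime g m₀) ∧
    ∀ (Q : O) (ν : O → ℂ) (h₀ g j : O), Q ≠ 0 → 36 ∣ Q → IsNu Q ν → h₀ ∣ Q ^ 5 → Primary g →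
      Primary j → IsCoprime g Q → IsCoprime j Q →
      ∃ Φ : O → ℂ, Per (9 * (m₀ * Q)) Φ ∧ (∀ n, ‖Φ n‖ ≤ 1) ∧
        ∀ (S : Finset O) (F : O → ℂ) (X t : ℝ), 0 < X → (∀ D ∈ S, Primary D) →
          ‖Bd ν (h₀ * g * j) S F X t‖ ^ 2 ≤ C * ‖Li T Φ g j S F (X * s₀) t‖ ^ 2

/-- decomposition of the modulus -/
def S_Dec6 : Prop :=
  ∀ Q h : O, Q ≠ 0 → 36 ∣ Q → h ≠ 0 → ∃ r h' : O, r ≠ 0 ∧ Sx Q h' ∧ h = r ^ 6 * h'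

/-- the bound on a set of moduli of bounded norm with a property -/
def VB (p : O → O → Prop) : Prop :=
  ∀ Q : O, Q ≠ 0 → 36 ∣ Q → ∀ ε : ℝ, 0 < ε → ∃ C : ℝ, 0 ≤ C ∧ ∀ ν, IsNu Q ν →
    ∀ (H X P t : ℝ) (S s : Finset O) (F : O → ℂ), 1 ≤ H → 0 < X → 1 ≤ P →
      (∀ D ∈ S, SQ D ∧ (N D : ℝ) ≤ P) → (∀ h ∈ s, (N h : ℝ) ≤ H ∧ p Q h) →
      ∑ h ∈ s, ‖Bd ν h S F X t‖ ^ 2 ≤ RH C ε H X P t * n2 S F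

/-- the sixth power free moduli -/
def S_Ball6 : Prop := ∀ T c₀ C₀ J, Th2 T c₀ C₀ J → VB Sx

/-- all moduli -/
def S_Red6 : Prop := VB Sx → VB fun _ h => h ≠ 0

/-- the Gaussian weight -/
def S_Gau2 : Prop := (VB fun _ h => h ≠ 0) → S_VD

end

theorem vd_of (h1 : S_Th2) (h2 : S_Ball6) (h3 : S_Red6) (h4 : S_Gau2) : S_VD := by
  obtain ⟨T, c₀, C₀, J, hT⟩ := h1
  exact h4 (h3 (h2 T c₀ C₀ J hT))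

end Pool.Agent.P.MP_323ce2_nt.QW
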