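import Pool.Agent.P.MP_323ce2_nt.QW.St

/-! Gauss sums of primitive characters. -/

namespace Pool.Agent.P.MP_323ce2_nt.QW

open Finset Pool.Agent.P.MP_26a8c3_nt Pool.Agent.P.MP_26a8c3_nt.QO Pool.Agent.P.MP_26a8c3_nt.QA
open Pool.Agent.P.MP_26a8c3_nt.QV
open scoped Classical ComplexConjugate

namespace PrmP

lemma isNu_mul {a b : O} {ρ σ : O → ℂ} (h : IsNu a ρ) (h' : IsNu b σ) :
    IsNu (a * b) fun x => ρ x * σ x :=
  ⟨by rw [h.one, h'.one, one_mul], fun x y => by rw [h.mul, h'.mul]; ring,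
    (h.per.mono (dvd_mul_right a b)).mul (h'.per.mono (dvd_mul_left b a)),
    fun x e => by
      by_cases c : IsCoprime x a
      · rw [h'.zero x fun c' => e (c.mul_right c'), mul_zero]
      · rw [h.zero x c, zero_mul],
    fun x => by rw [norm_mul]; exact mul_le_one₀ (h.le x) (norm_nonneg _) (h'.le x)⟩

lemma ft_mul (A : Alg) {a b : O} {ρ σ : O → ℂ} (ha : a ≠ 0) (hb : b ≠ 0) (hc : IsCoprime a b)
    (h : IsNu a ρ) (h' : IsNu b σ) (n : O) :
    ft (fun x => ρ x * σ x) (a * b) n = ρ b * σ a * (ft ρ a n * ft σ b n) := by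
  rw [A.ft.1 a b n ρ σ ha hb hc h.per h'.per]
  simp only [h.mul, h'.mul, ft_mul_left]
  ring

lemma norm_ft_mul (A : Alg) {a b : O} {ρ σ : O → ℂ} (ha : a ≠ 0) (hb : b ≠ 0)
    (hc : IsCoprime a b) (h : IsNu a ρ) (h' : IsNu b σ) (n : O) :
    ‖ft (fun x => ρ x * σ x) (a * b) n‖ = ‖ft ρ a n‖ * ‖ft σ b n‖ := by
  rw [ft_mul A ha hb hc h h', norm_mul, norm_mul, norm_mul, h.norm_eq hc.symm, h'.norm_eq hc,
    one_mul, one_mul]

lemma prim_mul (A : Alg) {a b : O} {ρ σ : O → ℂ} (ha : a ≠ 0) (hb : b ≠ 0) (hc : IsCoprime a b)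
    (h : Prim a ρ) (h' : Prim b σ) : Prim (a * b) fun x => ρ x * σ x where
  nu := isNu_mul h.nu h'.nu
  eq n := by
    rw [ft_mul A ha hb hc h.nu h'.nu, ft_mul A ha hb hc h.nu h'.nu, h.eq n, h'.eq n, map_mul]
    ring
  nm := by rw [norm_ft_mul A ha hb hc h.nu h'.nu, h.nm, h'.nm, ab_mul]

lemma ft_one {ρ : O → ℂ} (h : ∀ x, ρ x = 1) (n : O) : ft ρ 1 n = 1 := by
  rw [ft, sm_congr (H := fun _ => 1) fun x => by rw [h, el_dvd (one_dvd _), one_mul],
    sm_const one_ne_zero]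
  simp

lemma prim_one {ρ : O → ℂ} (h : ∀ x, ρ x = 1) : Prim 1 ρ where
  nu := ⟨h 1, fun a b => by simp [h], fun x y _ => by rw [h, h],
    fun _ e => absurd isCoprime_one_right e, fun a => by simp [h]⟩
  eq n := by simp [ft_one h, h]
  nm := by simp [ft_one h]

lemma prim_prime (A : Alg) {p : O} {ρ : O → ℂ} (hp : Prime p) (h : IsNu p ρ) (h' : ρ ≠ cop p) :
    Prim p ρ :=
  ⟨h, fun n => (A.ft.2.2.2.2.2 p n ρ hp h h').1, (A.ft.2.2.2.2.2 p 1 ρ hp h h').2⟩

lemma prim_chi (A : Alg) {p : O} (hp : Prime p) (h : Primary p) {i : ℕ} (hi : ¬3 ∣ i) :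
    Prim p fun x => chi p x ^ i :=
  prim_prime A hp ((isNu_chi hp.ne_zero).pow' fun e => hi (e ▸ dvd_zero 3)) ((A.ord p i hp h).1 hi)

lemma prim_psi (A : Alg) {p : O} (hp : Prime p) (h : Primary p) (ho : Od p) {i : ℕ}
    (hi : ¬6 ∣ i) : Prim p fun x => psi p x ^ i :=
  prim_prime A hp ((isNu_psi hp.ne_zero).pow' fun e => hi (e ▸ dvd_zero 6))
    ((A.ord p i hp h).2 ho hi)

lemma prim_sq (A : Alg) {f : O → O → ℂ} (h1 : ∀ x, f 1 x = 1)
    (hm : ∀ a b, a ≠ 0 → b ≠ 0 → ∀ x, f (a * b) x = f a x * f b x) {d : O} (hd : SQ d) :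
    (∀ p, Prime p → Primary p → p ∣ d → Prim p (f p)) → Prim d (f d) := by
  refine primary_ind (P := fun d => SQ d → (∀ p, Prime p → Primary p → p ∣ d → Prim p (f p)) →
    Prim d (f d)) (fun _ _ => prim_one h1) (fun p a hp h1 h2 ih hs h => ?_) hd.1 hd
  rw [show f (p * a) = fun x => f p x * f a x from funext (hm p a hp.ne_zero h2.ne_zero)]
  exact prim_mul A hp.ne_zero h2.ne_zero hs.coprime (h p hp h1 (dvd_mul_right p a))
    (ih (hs.right h1) fun r e1 e2 e3 => h r e1 e2 (e3.mul_left p))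

lemma od_of_dvd {p g : O} (hg : Od g) (h : p ∣ g) : Od p := IsCoprime.of_isCoprime_of_dvd_left hg h

lemma split {p a j : O} (hp : Prime p) (h1 : Primary p) (h : Kj (p * a) j) :
    ∃ (i : ℕ) (j' : O), 2 ≤ i ∧ i ≤ 5 ∧ j = p ^ i * j' ∧ Kj a j' := by
  obtain ⟨⟨hs, ho⟩, hj, d1, d2⟩ := h
  obtain ⟨i, j', hn, rfl⟩ := WfDvdMonoid.max_power_factor hj.ne_zero hp.irreducible
  have c1 : IsCoprime p j' := hp.coprime_iff_not_dvd.2 hn
  have c2 : IsCoprime p a := hs.coprime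
  rw [mul_pow] at d1 d2
  refine ⟨i, j', ?_, ?_, rfl, ⟨hs.right h1, (od_mul.1 ho).2⟩, hj.of_mul (h1.pow i), ?_, ?_⟩
  · exact (pow_dvd_pow_iff hp.ne_zero hp.not_isUnit).1
      (c1.pow_left.dvd_of_dvd_mul_right ((dvd_mul_right _ _).trans d1))
  · exact (pow_dvd_pow_iff hp.ne_zero hp.not_isUnit).1
      (c2.pow.dvd_of_dvd_mul_right ((dvd_mul_right _ _).trans d2))
  · exact c2.symm.pow.dvd_of_dvd_mul_left ((dvd_mul_left _ _).trans d1)
  · exact c1.symm.pow_right.dvd_of_dvd_mul_left ((dvd_mul_left _ _).trans d2)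

lemma loc (A : Alg) {p : O} (hp : Prime p) (h : Primary p) (ho : Od p) {i : ℕ} (h2 : 2 ≤ i)
    (h5 : i ≤ 5) : ∃ s : ℝ, 0 ≤ s ∧ s ^ 3 * N p ≤ (N p : ℝ) ^ i ∧ s * (N p : ℝ) ^ 2 ≤ (N p : ℝ) ^ i ∧
      ∀ n, ‖ft (fun x => psi p x ^ (5 * (i + 2))) p n‖ ^ 2 ≤ s * N p := by
  have hN : (1 : ℝ) ≤ N p := one_le_N hp.ne_zero
  by_cases h4 : i = 4
  · subst h4
    refine ⟨N p, by positivity, le_of_eq (by ring), ?_, fun n => ?_⟩
    · rw [← pow_succ']
      exact pow_le_pow_right₀ hN (by norm_num)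
    · have := norm_ft_le hp.ne_zero ((isNu_psi hp.ne_zero).pow' (k := 5 * (4 + 2)) (by norm_num)).le n
      rw [mul_one] at this
      rw [← sq]
      exact pow_le_pow_left₀ (norm_nonneg _) this 2
  · have hP := prim_psi A hp h ho (i := 5 * (i + 2)) (by omega)
    refine ⟨1, zero_le_one, ?_, ?_, fun n => ?_⟩
    · rw [one_pow, one_mul]
      exact le_self_pow₀ hN (by omega)
    · rw [one_mul]
      exact pow_le_pow_right₀ hN h2
    · rw [hP.eq n, norm_mul, hP.nm, Complex.norm_conj, one_mul, ← ab_sq]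
      exact pow_le_pow_left₀ (mul_nonneg (norm_nonneg _) (ab_nonneg _))
        (mul_le_of_le_one_left (ab_nonneg _) (hP.nu.le n)) 2

lemma kj (A : Alg) {k : O} (hk : Primary k) : ∀ j, Kj k j → Prim k (psi j) ∧
    ∃ s : ℝ, 0 ≤ s ∧ s ^ 3 * N k ≤ N j ∧ s * (N k : ℝ) ^ 2 ≤ N j ∧
      ∀ n, ‖ft (fun x => conj (psi j x * chi k x)) k n‖ ^ 2 ≤ s * N k := by
  refine primary_ind (P := fun k => ∀ j, Kj k j → Prim k (psi j) ∧
    ∃ s : ℝ, 0 ≤ s ∧ s ^ 3 * N k ≤ N j ∧ s * (N k : ℝ) ^ 2 ≤ N j ∧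
      ∀ n, ‖ft (fun x => conj (psi j x * chi k x)) k n‖ ^ 2 ≤ s * N k)
    (fun j h => ?_) (fun p a hp h1 h2 ih j h => ?_) hk
  · have e : j = 1 := h.2.1.eq_one_of_isUnit (isUnit_of_dvd_one (by simpa using h.2.2.2))
    subst e
    refine ⟨prim_one psi_one_left, 1, zero_le_one, by simp, by simp, fun n => ?_⟩
    rw [ft_one fun x => by simp]
    simp
  · obtain ⟨i, j', i2, i5, rfl, hj⟩ := split hp h1 h
    obtain ⟨P, s, s0, s1, s2, s3⟩ := ih j' hj
    have ho := (od_mul.1 h.1.2).1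
    obtain ⟨r, r0, r1, r2, r3⟩ := loc A hp h1 ho i2 i5
    have hc := h.1.1.coprime
    have p0 := hp.ne_zero
    have a0 := h2.ne_zero
    have e1 : ∀ x, psi (p ^ i * j') x = psi p x ^ i * psi j' x := fun x => by
      rw [psi_mul_left (pow_ne_zero i p0) hj.2.1.ne_zero, psi_pow_left]
    have e2 : (fun x => conj (psi (p ^ i * j') x * chi (p * a) x)) =
        fun x => psi p x ^ (5 * (i + 2)) * conj (psi j' x * chi a x) := by
      funext x
      rw [e1, chi_mul_left p0 a0, ← psi_sq p0, pow_mul, ← conj_psi p0]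
      simp only [map_mul, map_pow]
      ring
    refine ⟨?_, r * s, mul_nonneg r0 s0, ?_, ?_, fun n => ?_⟩
    · rw [funext e1]
      exact prim_mul A p0 a0 hc (prim_psi A hp h1 ho (by omega)) P
    · rw [map_mul, map_mul, map_pow]
      push_cast
      refine le_trans (le_of_eq (by ring)) (mul_le_mul r1 s1 (by positivity) (by positivity))
    · rw [map_mul, map_mul, map_pow]
      push_cast
      refine le_trans (le_of_eq (by ring)) (mul_le_mul r2 s2 (by positivity) (by positivity))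
    · rw [e2, norm_ft_mul A p0 a0 hc ((isNu_psi p0).pow' (by omega))
        (P.nu.mul' (isNu_chi a0) dvd_rfl).conj', mul_pow, map_mul]
      push_cast
      exact (mul_le_mul (r3 n) (s3 n) (by positivity) (by positivity)).trans (le_of_eq (by ring))

end PrmP

open PrmP in
theorem pPrm (A : Alg) : S_Prm := by
  refine ⟨fun a b ρ σ ha hb hc h h' => prim_mul A ha hb hc h h', fun d hd => ⟨?_, ?_⟩,
    fun g hg => ⟨?_, ?_⟩, fun k j h => kj A h.1.1.1 j h⟩
  · refine prim_sq A (f := chi) (chi_unit_left isUnit_one) (fun a b => chi_mul_left) hd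
      fun p h1 h2 _ => ?_
    simpa using prim_chi A h1 h2 (i := 1) (by norm_num)
  · refine prim_sq A (f := fun d x => conj (chi d x)) (fun x => by simp)
      (fun a b ha hb x => by rw [chi_mul_left ha hb, map_mul]) hd fun p h1 h2 _ => ?_
    simpa only [conj_chi] using prim_chi A h1 h2 (i := 2) (by norm_num)
  · refine prim_sq A (f := psi) psi_one_left (fun a b => psi_mul_left) hg.1 fun p h1 h2 h3 => ?_
    simpa using prim_psi A h1 h2 (od_of_dvd hg.2 h3) (i := 1) (by norm_num)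
  · refine prim_sq A (f := eta) (eta_unit_left isUnit_one) (fun a b => eta_mul_left) hg.1
      fun p h1 h2 h3 => ?_
    simpa only [psi_cube h1.ne_zero] using
      prim_psi A h1 h2 (od_of_dvd hg.2 h3) (i := 3) (by norm_num)

end Pool.Agent.P.MP_323ce2_nt.QW
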