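import Pool.Agent.P.MP_323ce2_nt.QW.St
import Pool.Agent.P.MP_26a8c3_nt.QV.TS
import Pool.Agent.P.MP_26a8c3_nt.QO.Div

/-! The quadratic sieve in the joint variable. -/

namespace Pool.Agent.P.MP_323ce2_nt.QW

open Finset Pool.Agent.P.MP_26a8c3_nt Pool.Agent.P.MP_26a8c3_nt.QO Pool.Agent.P.MP_26a8c3_nt.QA
open Pool.Agent.P.MP_26a8c3_nt.QV
open scoped Classical ComplexConjugate

namespace BLP

lemma eta_cube {g : O} (hg : g ≠ 0) (k : O) : eta g k ^ 2 * eta g k = eta g k := by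
  by_cases h : IsCoprime k g
  · rw [eta_sq hg, cop_of h, one_mul]
  · rw [(eta_eq_zero hg).2 h, mul_zero]

lemma eta_split {g e k m τ : O} (hg : g ≠ 0) (h : k ∣ m * τ ^ 2) :
    eta g (e * k ^ 2 * (m * τ ^ 2)) = eta g (e * τ ^ 2) * eta g m := by
  have h1 : eta g (k ^ 2) * eta g (m * τ ^ 2) = eta g (m * τ ^ 2) := by
    obtain ⟨c, hc⟩ := h
    rw [hc, eta_pow, eta_mul, ← mul_assoc, eta_cube hg]
  rw [mul_assoc e, eta_mul g e, eta_mul g (k ^ 2), h1, eta_mul, eta_mul g e]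
  ring

lemma lp_ne {e : O} (h : Lp e) : e ≠ 0 := by
  obtain ⟨j, hj⟩ := h
  exact ne_zero_of_dvd_ne_zero (pow_ne_zero _ prime_lam.ne_zero) hj

lemma lp_mem {e : O} {R : ℝ} (h : Lp e) (hR : (N e : ℝ) ≤ R) : e ∈ TSP.EE R := by
  obtain ⟨j, hj⟩ := h
  obtain ⟨i, -, u, hu⟩ := (dvd_prime_pow prime_lam j).1 hj
  have e1 : e = (u⁻¹ : Oˣ) * lam ^ i * (-2) ^ 0 := by
    rw [← hu, pow_zero, mul_one, mul_comm, Units.mul_inv_cancel_right]
  have e2 : (3 : ℝ) ^ i ≤ R := by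
    have h0 : e ≠ 0 := lp_ne ⟨j, hj⟩
    have : (N (lam ^ i) : ℝ) ≤ N e := by
      exact_mod_cast N_le_of_dvd (Associated.symm ⟨u, hu⟩).dvd h0
    refine le_trans ?_ (this.trans hR)
    simp
  rw [e1]
  exact TSP.mem_EE (Units.isUnit _) (by norm_num) e2

lemma inner {s J : Finset O} {a : O → ℂ} {m : O → O} {G B D : ℝ} (hG : 0 ≤ G) (hB : 0 ≤ B)
    (h : ∀ b : O → ℂ, ∑ g ∈ s, ‖∑ x ∈ J.image m, b x * eta g x‖ ^ 2 ≤
      B * ∑ x ∈ J.image m, (G + N x) * ‖b x‖ ^ 2)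
    (hD : ∀ x ∈ J.image m, ((J.filter fun n => m n = x).card : ℝ) ≤ D) :
    ∑ g ∈ s, ‖∑ n ∈ J, a n * eta g (m n)‖ ^ 2 ≤ B * (D * ∑ n ∈ J, (G + N (m n)) * ‖a n‖ ^ 2) := by
  have e1 : ∀ g, ∑ n ∈ J, a n * eta g (m n) =
      ∑ x ∈ J.image m, (∑ n ∈ J.filter fun n => m n = x, a n) * eta g x := fun g => by
    rw [← sum_fiberwise_of_maps_to fun n hn => mem_image_of_mem m hn]
    refine sum_congr rfl fun x _ => ?_
    rw [sum_mul]
    exact sum_congr rfl fun n hn => by rw [(mem_filter.1 hn).2]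
  simp only [e1]
  refine (h _).trans (mul_le_mul_of_nonneg_left ?_ hB)
  rw [← sum_fiberwise_of_maps_to (fun n hn => mem_image_of_mem m hn)
    fun n => (G + N (m n)) * ‖a n‖ ^ 2, mul_sum]
  refine sum_le_sum fun x hx => ?_
  have e2 : ‖∑ n ∈ J.filter fun n => m n = x, a n‖ ^ 2 ≤
      D * ∑ n ∈ J.filter fun n => m n = x, ‖a n‖ ^ 2 :=
    ((pow_le_pow_left₀ (norm_nonneg _) (norm_sum_le _ _) 2).trans sq_sum_le_card_mul_sum_sq).trans
      (mul_le_mul_of_nonneg_right (hD x hx) (sum_nonneg fun _ _ => by positivity))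
  have e3 : ∑ n ∈ J.filter fun n => m n = x, (G + N (m n)) * ‖a n‖ ^ 2 =
      (G + N x) * ∑ n ∈ J.filter fun n => m n = x, ‖a n‖ ^ 2 := by
    rw [mul_sum]
    exact sum_congr rfl fun n hn => by rw [(mem_filter.1 hn).2]
  rw [e3, mul_left_comm]
  exact mul_le_mul_of_nonneg_left e2 (by positivity)

end BLP

open BLP in
theorem pBL (hH : S_Har) (hW : S_WLS) : S_BL := by
  intro ε hε
  have hε' : 0 < ε / 4 := by positivity
  obtain ⟨C₁, hC₁, h₁⟩ := hW (ε / 4) hε'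
  obtain ⟨C₂, hC₂, h₂, -⟩ := hH (ε / 4) hε'
  obtain ⟨C₃, hC₃, h₃⟩ := card_dvd_le hε'
  refine ⟨12 * (1 / (ε / 4) + 1) * C₂ * (2 ^ (ε / 4)) ^ 2 * C₁ * C₃, by positivity,
    fun G R s I a e k m τ hG hR hs hI => ?_⟩
  set K := TSP.EE R ×ˢ (ball R).erase 0 with hK
  set Z := (G * R) ^ (ε / 4) with hZ
  have hGR : R ≤ G * R := le_mul_of_one_le_left (by linarith) hG
  have Z0 : 0 ≤ Z := by positivity
  have Z1 : (1 + R) ^ (ε / 4) ≤ 2 ^ (ε / 4) * Z := by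
    rw [hZ, ← Real.mul_rpow zero_le_two (by positivity)]
    exact Real.rpow_le_rpow (by linarith) (by linarith) hε'.le
  have n0 : ∀ n ∈ I, n ≠ 0 := fun n hn => by
    obtain ⟨-, h1, h2, h3, h4, -, h5⟩ := hI n hn
    rw [h5]
    exact mul_ne_zero (mul_ne_zero (lp_ne h1) (pow_ne_zero _ h2.ne_zero))
      (mul_ne_zero h3.ne_zero (pow_ne_zero _ h4.ne_zero))
  have le : ∀ n ∈ I, ∀ z, z ∣ e n * k n ^ 2 * (m n * τ n ^ 2) → (N z : ℝ) ≤ R := fun n hn z hz => by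
    rw [← (hI n hn).2.2.2.2.2.2] at hz
    exact le_trans (by exact_mod_cast N_le_of_dvd hz (n0 n hn)) (hI n hn).1
  have hφ : ∀ n ∈ I, (e n, τ n) ∈ K := fun n hn => by
    rw [hK, mem_product, mem_erase, mem_ball]
    exact ⟨lp_mem (hI n hn).2.1 (le n hn _ ⟨k n ^ 2 * (m n * τ n ^ 2), by ring⟩),
      (hI n hn).2.2.2.2.1.ne_zero, le n hn _ ⟨e n * k n ^ 2 * (m n * τ n), by ring⟩⟩
  set J : O × O → Finset O := fun y => I.filter fun n => (e n, τ n) = y with hJ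
  have e1 : ∀ g ∈ s, ∑ n ∈ I, a n * eta g n =
      ∑ y ∈ K, eta g (y.1 * y.2 ^ 2) * ∑ n ∈ J y, a n * eta g (m n) := fun g hg => by
    rw [← sum_fiberwise_of_maps_to hφ]
    refine sum_congr rfl fun y _ => ?_
    rw [mul_sum]
    refine sum_congr rfl fun n hn => ?_
    obtain ⟨h3, rfl⟩ := mem_filter.1 hn
    have h4 := congrArg (eta g) (hI n h3).2.2.2.2.2.2
    rw [h4, eta_split (hs g hg).1.1.ne_zero (hI n h3).2.2.2.2.2.1]
    ring
  have w0 : ∀ y ∈ K, 0 < (N y.2 : ℝ)⁻¹ := fun y hy =>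
    inv_pos.2 (N_pos_real (mem_erase.1 (mem_product.1 hy).2).1)
  have e2 : ∑ y ∈ K, (N y.2 : ℝ)⁻¹ ≤
      12 * (1 / (ε / 4) + 1) * (2 ^ (ε / 4) * Z) * (C₂ * (2 ^ (ε / 4) * Z)) := by
    rw [hK, sum_product]
    simp only [sum_const, nsmul_eq_mul]
    refine mul_le_mul ((TSP.card_EE (by linarith) hε').trans (by gcongr))
      (le_trans ?_ ((h₂ R (by linarith)).trans (by gcongr)))
      (sum_nonneg fun _ _ => by positivity) (by positivity)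
    exact sum_le_sum_of_subset_of_nonneg (erase_subset _ _) fun _ _ _ => by positivity
  have e3 : ∀ y ∈ K, ∑ g ∈ s, ‖eta g (y.1 * y.2 ^ 2) *
      ∑ n ∈ J y, a n * eta g (m n)‖ ^ 2 / (N y.2 : ℝ)⁻¹ ≤
        C₁ * Z * (C₃ * Z) * ∑ n ∈ J y, (G + N (m n)) * N (τ n) * ‖a n‖ ^ 2 := by
    intro y hy
    have f1 := inner (s := s) (J := J y) (a := a) (m := m) (G := G) (B := C₁ * Z) (D := C₃ * Z)
      (by linarith) (by positivity)
      (fun b => h₁ G R s _ b hG hR hs fun x hx => by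
        obtain ⟨n, hn, rfl⟩ := mem_image.1 hx
        have h3 := (mem_filter.1 hn).1
        exact ⟨(hI n h3).2.2.2.1, le n h3 _ ⟨e n * k n ^ 2 * τ n ^ 2, by ring⟩⟩)
      (fun x hx => by
        obtain ⟨n₀, hn₀, rfl⟩ := mem_image.1 hx
        obtain ⟨h3, rfl⟩ := mem_filter.1 hn₀
        have g0 : m n₀ * τ n₀ ^ 2 ≠ 0 :=
          mul_ne_zero (hI n₀ h3).2.2.2.1.ne_zero (pow_ne_zero _ (hI n₀ h3).2.2.2.2.1.ne_zero)
        have g1 : ∀ n ∈ (J (e n₀, τ n₀)).filter fun n => m n = m n₀,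
            n ∈ I ∧ e n = e n₀ ∧ τ n = τ n₀ ∧ m n = m n₀ := fun n hn => by
          obtain ⟨h4, h5⟩ := mem_filter.1 hn
          obtain ⟨h6, h7⟩ := mem_filter.1 h4
          exact ⟨h6, (Prod.mk.inj h7).1, (Prod.mk.inj h7).2, h5⟩
        rw [← card_image_of_injOn (f := k) fun n hn n' hn' hk => by
          obtain ⟨a1, a2, a3, a4⟩ := g1 n (mem_coe.1 hn)
          obtain ⟨b1, b2, b3, b4⟩ := g1 n' (mem_coe.1 hn')
          rw [(hI n a1).2.2.2.2.2.2, (hI n' b1).2.2.2.2.2.2, a2, a3, a4, b2, b3, b4, hk]]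
        refine (h₃ _ _ g0 fun d hd => ?_).trans (mul_le_mul_of_nonneg_left ?_ hC₃.le)
        · obtain ⟨n, hn, rfl⟩ := mem_image.1 hd
          obtain ⟨a1, -, a3, a4⟩ := g1 n hn
          rw [← a3, ← a4]
          exact (hI n a1).2.2.2.2.2.1
        · exact Real.rpow_le_rpow (Nat.cast_nonneg _)
            ((le n₀ h3 _ (dvd_mul_left _ _)).trans hGR) hε'.le)
    have f2 : ∑ n ∈ J y, (G + N (m n)) * N (τ n) * ‖a n‖ ^ 2 =
        (∑ n ∈ J y, (G + N (m n)) * ‖a n‖ ^ 2) * N y.2 := by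
      rw [sum_mul]
      refine sum_congr rfl fun n hn => ?_
      obtain ⟨-, rfl⟩ := mem_filter.1 hn
      ring
    rw [← sum_div, div_inv_eq_mul, f2, ← mul_assoc]
    refine mul_le_mul_of_nonneg_right (le_trans ?_ (f1.trans_eq (by ring))) (Nat.cast_nonneg _)
    refine sum_le_sum fun g _ => ?_
    rw [norm_mul]
    exact pow_le_pow_left₀ (by positivity)
      (mul_le_of_le_one_left (norm_nonneg _) (norm_eta_le _ _)) 2
  have e4 : (G * R) ^ ε = Z ^ 4 := by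
    rw [hZ, ← Real.rpow_mul_natCast (by positivity)]; norm_num
  have S0 : 0 ≤ ∑ n ∈ I, (G + N (m n)) * N (τ n) * ‖a n‖ ^ 2 :=
    sum_nonneg fun _ _ => by positivity
  calc ∑ g ∈ s, ‖∑ n ∈ I, a n * eta g n‖ ^ 2
      ≤ ∑ g ∈ s, (∑ y ∈ K, (N y.2 : ℝ)⁻¹) * ∑ y ∈ K, ‖eta g (y.1 * y.2 ^ 2) *
          ∑ n ∈ J y, a n * eta g (m n)‖ ^ 2 / (N y.2 : ℝ)⁻¹ :=
        sum_le_sum fun g hg => by rw [e1 g hg]; exact wcs K _ _ w0
    _ ≤ (∑ y ∈ K, (N y.2 : ℝ)⁻¹) *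
          (C₁ * Z * (C₃ * Z) * ∑ n ∈ I, (G + N (m n)) * N (τ n) * ‖a n‖ ^ 2) := by
        rw [← mul_sum, sum_comm, ← sum_fiberwise_of_maps_to hφ
          fun n => (G + N (m n)) * N (τ n) * ‖a n‖ ^ 2, mul_sum K _ (C₁ * Z * (C₃ * Z))]
        exact mul_le_mul_of_nonneg_left (sum_le_sum e3) (sum_nonneg fun _ _ => by positivity)
    _ ≤ (12 * (1 / (ε / 4) + 1) * (2 ^ (ε / 4) * Z) * (C₂ * (2 ^ (ε / 4) * Z))) *
          (C₁ * Z * (C₃ * Z) * ∑ n ∈ I, (G + N (m n)) * N (τ n) * ‖a n‖ ^ 2) := by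
        gcongr
    _ = _ := by rw [e4]; ring

end Pool.Agent.P.MP_323ce2_nt.QW
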