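import Pool.Agent.P.MP_323ce2_nt.QW.St
import Pool.Agent.P.MP_26a8c3_nt.QO.Div
import Pool.Agent.P.MP_26a8c3_nt.QO.Poi
import Pool.Agent.P.MP_26a8c3_nt.QO.Cnt
import Pool.Agent.P.MP_26a8c3_nt.QL.Schur

/-! The trivial cubic large sieve. -/

namespace Pool.Agent.P.MP_323ce2_nt.QW

open Finset Pool.Agent.P.MP_26a8c3_nt Pool.Agent.P.MP_26a8c3_nt.QO Pool.Agent.P.MP_26a8c3_nt.QA
open Pool.Agent.P.MP_26a8c3_nt.QV
open scoped Classical ComplexConjugate

namespace CLSP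

/-- the Fourier transform of the product of two different cubic symbols -/
lemma four (A : Alg) (hP : S_Prm) {d₁ d₂ : O} (h1 : SQ d₁) (h2 : SQ d₂) (hne : d₁ ≠ d₂) :
    ∃ q : O, q ≠ 0 ∧ Per q (fun c => chi d₁ c * conj (chi d₂ c)) ∧
      ft (fun c => chi d₁ c * conj (chi d₂ c)) q 0 = 0 ∧
      ∀ h, ‖ft (fun c => chi d₁ c * conj (chi d₂ c)) q h‖ ≤ ab d₁ * ab d₂ := by
  obtain ⟨e, he⟩ : ∃ e, e = gcd d₁ d₂ := ⟨_, rfl⟩
  have ep : Primary e := he ▸ h1.1.gcd d₂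
  obtain ⟨a, rfl⟩ : e ∣ d₁ := he ▸ gcd_dvd_left _ _
  obtain ⟨b, rfl⟩ : e ∣ d₂ := he ▸ gcd_dvd_right _ _
  have e0 := ep.ne_zero
  have sa := h1.right ep
  have sb := h2.right ep
  have a0 := sa.ne_zero
  have b0 := sb.ne_zero
  have hab : IsCoprime a b := by
    by_contra hn
    obtain ⟨p, hp, -, p1, p2⟩ := (not_coprime_iff b0).1 hn
    have : e * p ∣ e * 1 := by
      rw [mul_one]
      conv_rhs => rw [he]
      exact dvd_gcd (mul_dvd_mul_left e p2) (mul_dvd_mul_left e p1)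
    exact hp.not_isUnit (isUnit_of_dvd_one ((mul_dvd_mul_iff_left e0).1 this))
  have hu : ¬ IsUnit (a * b) := fun u => hne (by
    rw [sa.1.eq_one_of_isUnit (isUnit_of_mul_isUnit_left u),
      sb.1.eq_one_of_isUnit (isUnit_of_mul_isUnit_right u)])
  have hρ := hP.1 a b _ _ a0 b0 hab (hP.2.1 a sa).1 (hP.2.1 b sb).2
  obtain ⟨ρ, hd⟩ : ∃ ρ : O → ℂ, ρ = fun x => chi a x * conj (chi b x) := ⟨_, rfl⟩
  rw [← hd] at hρ
  have hF : (fun c => chi (e * a) c * conj (chi (e * b) c)) = fun c => cop e c * ρ c := by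
    funext c
    rw [chi_mul_left e0 a0, chi_mul_left e0 b0, map_mul, ← chi_mul_conj e0, hd]
    ring
  have ab0 := mul_ne_zero a0 b0
  have key : ∀ h, ft (fun c => cop e c * ρ c) (e * (a * b)) h =
      ft (fun x => cop e (a * b * x)) e h * (ρ e * (conj (ρ h) * ft ρ (a * b) 1)) := fun h => by
    rw [A.ft.1 e (a * b) h _ _ e0 ab0 (h1.coprime.mul_right h2.coprime) (isNu_cop e).per hρ.nu.per]
    simp only [hρ.nu.mul e]
    rw [ft_mul_left, hρ.eq h]
  rw [hF]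
  refine ⟨e * (a * b), mul_ne_zero e0 ab0, ((isNu_cop e).per.mono (dvd_mul_right _ _)).mul
    (hρ.nu.per.mono (dvd_mul_left _ _)), ?_, fun h => ?_⟩
  · rw [key, hρ.nu.zero 0 fun c => hu (isCoprime_zero_left.1 c)]
    simp
  · have k1 := norm_ft_le e0 (F := fun x => cop e (a * b * x)) (B := 1)
      (fun x => (isNu_cop e).le _) h
    have k2 : ‖ρ e * (conj (ρ h) * ft ρ (a * b) 1)‖ ≤ ab (a * b) := by
      rw [norm_mul, norm_mul, hρ.nm, Complex.norm_conj, ← mul_assoc]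
      exact mul_le_of_le_one_left (ab_nonneg _)
        (mul_le_one₀ (hρ.nu.le _) (norm_nonneg _) (hρ.nu.le _))
    rw [key, norm_mul]
    refine (mul_le_mul k1 k2 (norm_nonneg _) (by positivity)).trans_eq ?_
    rw [ab_mul, ab_mul, ab_mul, ← ab_sq]
    ring

/-- the Gaussian correlation of two cubic symbols -/
lemma corr (A : Alg) (hP : S_Prm) {d₁ d₂ : O} {P Y : ℝ} (h1 : SQ d₁) (h2 : SQ d₂)
    (n1 : (N d₁ : ℝ) ≤ P) (n2 : (N d₂ : ℝ) ≤ P) (hY : 1 ≤ Y) :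
    ‖∑' c : O, chi d₁ c * conj (chi d₂ c) * (G (N c / Y) : ℝ)‖ ≤
      (if d₁ = d₂ then th * Y else 0) + th * P := by
  have Y0 : 0 < Y := by linarith
  have t0 : 0 ≤ th := by linarith [one_le_th]
  have P0 : 0 ≤ P := (Nat.cast_nonneg _).trans n1
  split_ifs with hne
  · refine le_trans (tsum_of_norm_bounded (summable_G Y0).hasSum fun c => ?_)
      ((tsum_G_le_of_one_le hY).trans (le_add_of_nonneg_right (by positivity)))
    rw [norm_mul, norm_mul, Complex.norm_conj, Complex.norm_real, Real.norm_of_nonneg (G_pos _).le]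
    exact mul_le_of_le_one_left (G_pos _).le
      (mul_le_one₀ (norm_chi_le _ _) (norm_nonneg _) (norm_chi_le _ _))
  obtain ⟨q, q0, q1, q2, q3⟩ := four A hP h1 h2 hne
  have q4 := N_pos_real q0
  have hU : 0 < (N q : ℝ) / Y := by positivity
  have hab : ab d₁ * ab d₂ ≤ P := by
    nlinarith [ab_sq d₁, ab_sq d₂, sq_nonneg (ab d₁ - ab d₂)]
  have k := tsum_of_norm_bounded (f := fun h : O =>
      ft (fun c => chi d₁ c * conj (chi d₂ c)) q h * (G (Y * N h / N q) : ℝ))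
    ((summable_G_ne hU).hasSum.mul_left P) fun h => by
      split_ifs with h0
      · simp [h0, q2]
      · rw [norm_mul, Complex.norm_real, Real.norm_of_nonneg (G_pos _).le,
          show Y * N h / N q = N h / (N q / Y) by field_simp]
        exact mul_le_mul_of_nonneg_right ((q3 h).trans hab) (G_pos _).le
  rw [A.poi q _ Y q0 q1 Y0, norm_mul, Complex.norm_real, Real.norm_of_nonneg (by positivity),
    zero_add]
  refine (mul_le_mul_of_nonneg_left (k.trans (mul_le_mul_of_nonneg_left (tsum_G_ne_le hU) P0))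
    (by positivity)).trans_eq ?_
  field_simp

lemma n2_nn (S : Finset O) (F : O → ℂ) : 0 ≤ n2 S F := sum_nonneg fun _ _ => by positivity

/-- the two bounds -/
lemma two (A : Alg) (hP : S_Prm) : ∃ C : ℝ, 0 ≤ C ∧ ∀ (P Y : ℝ) (S I : Finset O) (F : O → ℂ),
    1 ≤ P → 1 ≤ Y → (∀ d ∈ S, SQ d ∧ (N d : ℝ) ≤ P) → (∀ c ∈ I, c ≠ 0 ∧ (N c : ℝ) ≤ Y) →
    ∑ c ∈ I, ‖∑ d ∈ S, F d * chi d c‖ ^ 2 ≤ C * min (Y + P ^ 2) (Y * P) * n2 S F := by
  have t0 : 0 ≤ th := by linarith [one_le_th]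
  refine ⟨Real.exp a0 * (16 * th) + 256, by positivity, fun P Y S I F hP1 hY hS hI => ?_⟩
  have Y0 : 0 < Y := by linarith
  have hn := n2_nn S F
  have hc : (S.card : ℝ) ≤ 16 * P :=
    card_le_of_N_le (by linarith) fun d hd => ⟨(hS d hd).1.ne_zero, (hS d hd).2⟩
  have hb : ∀ c, ‖∑ d ∈ S, F d * chi d c‖ ^ 2 ≤ 16 * P * n2 S F := fun c => by
    refine (pow_le_pow_left₀ (norm_nonneg _) (norm_sum_le_of_le (n := fun d => ‖F d‖) S
      fun d _ => ?_) 2).trans (sq_sum_le_card_mul_sum_sq.trans (mul_le_mul_of_nonneg_right hc hn))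
    rw [norm_mul]
    exact mul_le_of_le_one_right (norm_nonneg _) (norm_chi_le _ _)
  rcases le_total (Y * P) (Y + P ^ 2) with h | h
  · rw [min_eq_right h]
    have h1 := sum_le_card_nsmul I _ _ fun c _ => hb c
    rw [nsmul_eq_mul] at h1
    refine (h1.trans (mul_le_mul_of_nonneg_right (card_le_of_N_le Y0.le hI)
      (by positivity))).trans ?_
    have : 0 ≤ Real.exp a0 * (16 * th) * (Y * P) * n2 S F := by positivity
    nlinarith
  rw [min_eq_left h]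
  have s1 : Summable fun c : O => ‖∑ d ∈ S, F d * chi d c‖ ^ 2 * G (N c / Y) :=
    Summable.of_nonneg_of_le (fun c => mul_nonneg (by positivity) (G_pos _).le)
      (fun c => mul_le_mul_of_nonneg_right (hb c) (G_pos _).le) ((summable_G Y0).mul_left _)
  have s2 : ∀ d₁ d₂, Summable fun c : O =>
      F d₁ * conj (F d₂) * (chi d₁ c * conj (chi d₂ c) * (G (N c / Y) : ℝ)) := fun d₁ d₂ =>
    (summable_mul_real (B := 1) (fun c => by
      rw [norm_mul, Complex.norm_conj]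
      exact mul_le_one₀ (norm_chi_le _ _) (norm_nonneg _) (norm_chi_le _ _))
      (summable_G Y0)).mul_left _
  have e1 : ((∑' c : O, ‖∑ d ∈ S, F d * chi d c‖ ^ 2 * G (N c / Y) : ℝ) : ℂ) =
      ∑ d₁ ∈ S, ∑ d₂ ∈ S, F d₁ * conj (F d₂) *
        ∑' c : O, chi d₁ c * conj (chi d₂ c) * (G (N c / Y) : ℝ) := by
    simp only [← tsum_mul_left]
    rw [Complex.ofReal_tsum, sum_congr rfl fun d₁ _ =>
      (Summable.tsum_finsetSum fun d₂ _ => s2 d₁ d₂).symm,
      ← Summable.tsum_finsetSum fun d₁ _ => summable_sum fun d₂ _ => s2 d₁ d₂]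
    refine tsum_congr fun c => ?_
    rw [Complex.ofReal_mul, Complex.ofReal_pow, ← Complex.mul_conj', map_sum, sum_mul_sum, sum_mul]
    refine sum_congr rfl fun d₁ _ => ?_
    rw [sum_mul]
    refine sum_congr rfl fun d₂ _ => ?_
    rw [map_mul]
    ring
  have e2 := QL.Schur.test S F _ (fun d₁ d₂ => (if d₁ = d₂ then th * Y else 0) + th * P)
    (th * Y + 16 * P * (th * P))
    (fun m hm n hn => corr A hP (hS m hm).1 (hS n hn).1 (hS m hm).2 (hS n hn).2 hY)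
    (fun m _ n _ => by simp only [eq_comm]) fun m hm => by
      rw [sum_add_distrib, sum_ite_eq, if_pos hm, sum_const, nsmul_eq_mul]
      gcongr
  rw [← e1, Complex.norm_real] at e2
  have e3 := (le_abs_self _).trans e2
  have e4 : ∑ c ∈ I, ‖∑ d ∈ S, F d * chi d c‖ ^ 2 ≤
      Real.exp a0 * ∑' c : O, ‖∑ d ∈ S, F d * chi d c‖ ^ 2 * G (N c / Y) := by
    refine le_trans ?_ (mul_le_mul_of_nonneg_left (s1.sum_le_tsum I
      fun c _ => mul_nonneg (by positivity) (G_pos _).le) (Real.exp_pos _).le)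
    rw [mul_sum]
    refine sum_le_sum fun c hc => ?_
    have g1 : G 1 ≤ G (N c / Y) := G_anti ((div_le_one Y0).2 (hI c hc).2)
    have g2 : Real.exp a0 * G 1 = 1 := by rw [G, ← Real.exp_add]; simp
    rw [mul_left_comm]
    exact le_mul_of_one_le_right (by positivity)
      (g2.ge.trans (mul_le_mul_of_nonneg_left g1 (Real.exp_pos _).le))
  have e5 : (th * Y + 16 * P * (th * P)) * n2 S F ≤ 16 * th * (Y + P ^ 2) * n2 S F :=
    mul_le_mul_of_nonneg_right (by nlinarith [mul_nonneg t0 Y0.le]) hn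
  have e6 := e4.trans (mul_le_mul_of_nonneg_left (e3.trans e5) (Real.exp_pos _).le)
  have : 0 ≤ 256 * (Y + P ^ 2) * n2 S F := by positivity
  nlinarith

lemma min1 {P Y : ℝ} (hP : 1 ≤ P) (hY : 1 ≤ Y) :
    min (Y + P ^ 2) (Y * P) ≤ Y + P ^ (3 / 2 : ℝ) * Y ^ (1 / 2 : ℝ) := by
  have P0 : 0 < P := by linarith
  have Y0 : 0 < Y := by linarith
  rcases le_total P Y with h | h
  · refine (min_le_left _ _).trans (add_le_add le_rfl ?_)
    calc P ^ 2 = P ^ (3 / 2 : ℝ) * P ^ (1 / 2 : ℝ) := by rw [← Real.rpow_add P0]; norm_num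
      _ ≤ _ := by gcongr
  · refine (min_le_right _ _).trans (le_add_of_nonneg_of_le Y0.le ?_)
    calc Y * P = P * Y ^ (1 / 2 : ℝ) * Y ^ (1 / 2 : ℝ) := by
          rw [mul_assoc, ← Real.rpow_add Y0]; norm_num; ring
      _ ≤ P * P ^ (1 / 2 : ℝ) * Y ^ (1 / 2 : ℝ) := by gcongr
      _ = _ := by rw [← Real.rpow_one_add' P0.le (by norm_num)]; norm_num

lemma min2 {P V : ℝ} (hP : 1 ≤ P) (hV : 1 ≤ V) :
    V ^ (-(2 / 3) : ℝ) * min (2 * V + P ^ 2) (2 * V * P) ≤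
      2 * (V ^ (1 / 3 : ℝ) + P ^ (4 / 3 : ℝ)) := by
  have P0 : 0 < P := by linarith
  have V0 : 0 < V := by linarith
  have e : V ^ (-(2 / 3) : ℝ) * V = V ^ (1 / 3 : ℝ) := by
    rw [← Real.rpow_add_one V0.ne']; norm_num
  have p1 : 0 ≤ P ^ (4 / 3 : ℝ) := by positivity
  have p2 : 0 ≤ V ^ (1 / 3 : ℝ) := by positivity
  rcases le_total P V with h | h
  · refine (mul_le_mul_of_nonneg_left (min_le_left _ _) (by positivity)).trans ?_
    have a : V ^ (-(2 / 3) : ℝ) ≤ P ^ (-(2 / 3) : ℝ) :=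
      Real.rpow_le_rpow_of_nonpos P0 h (by norm_num)
    have b : P ^ (-(2 / 3) : ℝ) * P ^ 2 = P ^ (4 / 3 : ℝ) := by
      rw [← Real.rpow_add_natCast P0.ne']; norm_num
    have c := mul_le_mul_of_nonneg_right a (sq_nonneg P)
    linarith
  · refine (mul_le_mul_of_nonneg_left (min_le_right _ _) (by positivity)).trans ?_
    have a : V ^ (1 / 3 : ℝ) ≤ P ^ (1 / 3 : ℝ) := by gcongr
    have b : P ^ (1 / 3 : ℝ) * P = P ^ (4 / 3 : ℝ) := by
      rw [← Real.rpow_add_one P0.ne']; norm_num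
    have c := mul_le_mul_of_nonneg_right a P0.le
    calc _ = 2 * (V ^ (-(2 / 3) : ℝ) * V * P) := by ring
      _ ≤ _ := by rw [e]; linarith

end CLSP

open CLSP in
theorem pCLS (A : Alg) (hP : S_Prm) : S_CLS := by
  intro ε hε
  obtain ⟨C, hC, h⟩ := two A hP
  obtain ⟨C₁, hC₁, h1⟩ := succ_le_rpow hε
  refine ⟨C * (2 * C₁), by positivity, fun P Y S I F hP1 hY hS hI => ⟨?_, ?_⟩⟩
  · refine (h P Y S I F hP1 hY hS hI).trans (mul_le_mul_of_nonneg_right (mul_le_mul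
      (le_mul_of_one_le_right hC (by linarith)) (min1 hP1 hY) (by positivity) (by positivity))
      (n2_nn S F))
  have hn := n2_nn S F
  obtain ⟨L, hL⟩ : ∃ L, L = Nat.log 2 ⌊Y⌋₊ := ⟨_, rfl⟩
  have hf : ⌊Y⌋₊ ≠ 0 := (Nat.floor_pos.2 hY).ne'
  have hLY : (2 : ℝ) ^ L ≤ Y := by
    refine le_trans ?_ (Nat.floor_le (by linarith))
    exact_mod_cast hL ▸ Nat.pow_log_le_self 2 hf
  rw [← sum_fiberwise_of_maps_to (g := fun c => Nat.log 2 (N c)) (t := range (L + 1))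
    fun c hc => mem_range.2 (Nat.lt_succ_of_le (hL ▸ Nat.log_mono_right (Nat.le_floor (hI c hc).2)))]
  have key : ∀ i ∈ range (L + 1), ∑ c ∈ I.filter (fun c => Nat.log 2 (N c) = i),
      (N c : ℝ) ^ (-(2 / 3) : ℝ) * ‖∑ d ∈ S, F d * chi d c‖ ^ 2 ≤
        C * (2 * (Y ^ (1 / 3 : ℝ) + P ^ (4 / 3 : ℝ))) * n2 S F := fun i hi => by
    have V1 : (1 : ℝ) ≤ 2 ^ i := one_le_pow₀ one_le_two
    have VY : (2 : ℝ) ^ i ≤ Y :=
      (pow_le_pow_right₀ one_le_two (Nat.le_of_lt_succ (mem_range.1 hi))).trans hLY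
    have hb : ∀ c ∈ I.filter (fun c => Nat.log 2 (N c) = i),
        c ≠ 0 ∧ (2 : ℝ) ^ i ≤ N c ∧ (N c : ℝ) ≤ 2 * 2 ^ i := fun c hc => by
      obtain ⟨c1, c2⟩ := mem_filter.1 hc
      have c0 := (hI c c1).1
      refine ⟨c0, ?_, ?_⟩
      · exact_mod_cast c2 ▸ Nat.pow_log_le_self 2 (N_pos c0).ne'
      · rw [← pow_succ']
        exact_mod_cast c2 ▸ (Nat.lt_pow_succ_log_self one_lt_two (N c)).le
    have a := h P (2 * 2 ^ i) S _ F hP1 (by linarith) hS fun c hc => ⟨(hb c hc).1, (hb c hc).2.2⟩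
    have b := min2 hP1 V1
    have c : ((2 : ℝ) ^ i) ^ (1 / 3 : ℝ) ≤ Y ^ (1 / 3 : ℝ) := by gcongr
    calc _ ≤ ∑ c ∈ I.filter (fun c => Nat.log 2 (N c) = i),
          ((2 : ℝ) ^ i) ^ (-(2 / 3) : ℝ) * ‖∑ d ∈ S, F d * chi d c‖ ^ 2 :=
          sum_le_sum fun c hc => mul_le_mul_of_nonneg_right
            (Real.rpow_le_rpow_of_nonpos (by positivity) (hb c hc).2.1 (by norm_num))
            (by positivity)
      _ ≤ ((2 : ℝ) ^ i) ^ (-(2 / 3) : ℝ) *
          (C * min (2 * 2 ^ i + P ^ 2) (2 * 2 ^ i * P) * n2 S F) := by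
          rw [← mul_sum]
          exact mul_le_mul_of_nonneg_left a (by positivity)
      _ = C * (((2 : ℝ) ^ i) ^ (-(2 / 3) : ℝ) * min (2 * 2 ^ i + P ^ 2) (2 * 2 ^ i * P)) *
          n2 S F := by ring
      _ ≤ _ := mul_le_mul_of_nonneg_right (mul_le_mul_of_nonneg_left (by linarith) hC) hn
  have a := sum_le_card_nsmul _ _ _ key
  rw [card_range, nsmul_eq_mul] at a
  have b : ((L + 1 : ℕ) : ℝ) ≤ C₁ * Y ^ ε := by
    push_cast
    exact (h1 L 2 le_rfl).trans (by gcongr)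
  refine (a.trans (mul_le_mul_of_nonneg_right b (by positivity))).trans_eq ?_
  ring

end Pool.Agent.P.MP_323ce2_nt.QW
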