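import Pool.Agent.P.MP_323ce2_nt.QW.St

/-! One fraction and one pair of residue classes. -/

namespace Pool.Agent.P.MP_323ce2_nt.QW

open Finset Pool.Agent.P.MP_26a8c3_nt Pool.Agent.P.MP_26a8c3_nt.QO Pool.Agent.P.MP_26a8c3_nt.QA
open Pool.Agent.P.MP_26a8c3_nt.QV
open scoped Classical ComplexConjugate

namespace CoreP

lemma rp {x : ℝ} (hx : 0 ≤ x) (a b : ℝ) (n : ℕ) (h : a * n = b) : (x ^ a) ^ n = x ^ b := by
  rw [← Real.rpow_natCast, ← Real.rpow_mul hx, h]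

lemma hV {c Y Q κ G P X : ℝ} (hc : 0 < c) (hQ : 1 ≤ Q) (hY : Q ≤ Y) (hκ : 1 ≤ κ) (hP : 1 ≤ P)
    (hX : 0 < X) : G ^ 2 * P / (X * c / (Q * κ) ^ 2) ≤ Y ^ 2 / c * ((G * κ) ^ 2 * P / X) := by
  calc _ = Q ^ 2 / c * ((G * κ) ^ 2 * P / X) := by field_simp
    _ ≤ _ := by gcongr

lemma zz {c Y Q κ J G H P X : ℝ} (hc : 0 < c) (hQ : 1 ≤ Q) (hY : Q ≤ Y) (hκ : 1 ≤ κ)
    (hJ : κ ≤ J) (hG : 1 ≤ G) (hH : G * J ≤ H) (hP : 1 ≤ P) (hX : 0 < X) :
    1 + G + P + G ^ 2 * P / (X * c / (Q * κ) ^ 2) ≤ (1 + c + Y ^ 2 / c) * ZZ H X P := by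
  have h1 := hV (G := G) hc hQ hY hκ hP hX
  have h2 : G * κ ≤ H := le_trans (by gcongr) hH
  have h3 : G ≤ H := le_trans (by nlinarith) h2
  have h4 : 0 ≤ Y ^ 2 / c := by positivity
  have h5 : (G * κ) ^ 2 * P / X ≤ H ^ 2 * P / X := by gcongr
  have h6 : 0 ≤ H ^ 2 * P / X := by positivity
  have h7 := mul_le_mul_of_nonneg_left h5 h4
  have h8 : 0 ≤ (c + Y ^ 2 / c) * (2 + H + P) := by
    have : 0 ≤ H := by linarith
    positivity
  unfold ZZ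
  nlinarith [mul_nonneg hc.le h6]

lemma mb {c Y Q κ J G H P X s : ℝ} (hc : 0 < c) (hQ : 1 ≤ Q) (hY : Q ≤ Y) (hκ : 1 ≤ κ)
    (hJ : κ ≤ J) (hG : 1 ≤ G) (hH : G * J ≤ H) (hP : 1 ≤ P) (hX : 0 < X) (hs : 0 ≤ s)
    (h3 : s ^ 3 * κ ≤ J) (h2 : s * κ ^ 2 ≤ J) :
    s * κ * Mb G P (G ^ 2 * P / (X * c / (Q * κ) ^ 2)) ≤ (1 + c + Y ^ 2 / c) * BB H X P := by
  have hv := hV (G := G) hc hQ hY hκ hP hX
  set V := G ^ 2 * P / (X * c / (Q * κ) ^ 2) with hVd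
  set K := 1 + c + Y ^ 2 / c with hK
  have hV0 : 0 < V := by positivity
  have hy : 0 ≤ Y ^ 2 / c := by positivity
  have hK1 : 1 ≤ K := by linarith
  have hJ0 : 0 ≤ J := by linarith
  have hH0 : 0 < H := by nlinarith
  have hP0 : 0 < P := by linarith
  have a0 : s * κ ^ 2 * G ≤ H := by nlinarith
  have a1 : s * κ * G ≤ K * H := by
    have : s * κ * G ≤ s * κ ^ 2 * G := by gcongr; nlinarith
    nlinarith
  have a2 : s * κ * V ≤ K * (H ^ 2 * P / X) := by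
    have e : κ * G ≤ H := by nlinarith
    calc s * κ * V ≤ s * κ * (Y ^ 2 / c * ((G * κ) ^ 2 * P / X)) := by gcongr
      _ = Y ^ 2 / c * ((s * κ ^ 2 * G) * (κ * G) * P / X) := by ring
      _ ≤ K * (H * H * P / X) := by gcongr; linarith
      _ = _ := by ring
  have a3 : s * κ * (G * P ^ (4 / 3 : ℝ) * V ^ (-(1 / 3) : ℝ)) ≤
      K * (P * (H * X) ^ (1 / 3 : ℝ)) := by
    refine le_of_pow_le_pow_left₀ three_ne_zero (by positivity) ?_
    simp only [mul_pow]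
    rw [rp hP0.le (4 / 3) 4 3 (by norm_num), rp hV0.le (-(1 / 3)) (-1) 3 (by norm_num),
      rp (by positivity) (1 / 3) 1 3 (by norm_num), Real.rpow_neg_one, Real.rpow_one,
      show (4 : ℝ) = (4 : ℕ) by norm_num, Real.rpow_natCast]
    have e1 : c ≤ K ^ 3 := le_trans (by linarith) (le_self_pow₀ hK1 three_ne_zero)
    have e2 : s ^ 3 * κ * G ≤ H := by nlinarith
    calc s ^ 3 * κ ^ 3 * (G ^ 3 * P ^ 4 * V⁻¹)
        = c * (P ^ 3 * ((s ^ 3 * κ * G) * X)) / Q ^ 2 := by rw [hVd]; field_simp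
      _ ≤ c * (P ^ 3 * ((s ^ 3 * κ * G) * X)) :=
          div_le_self (by positivity) (one_le_pow₀ hQ)
      _ ≤ _ := by gcongr
  have a4 : s * κ * (P ^ (3 / 2 : ℝ) * V ^ (1 / 2 : ℝ)) ≤ K * (H * P ^ 2 / √X) := by
    refine le_of_pow_le_pow_left₀ two_ne_zero (by positivity) ?_
    simp only [mul_pow, div_pow]
    rw [rp hP0.le (3 / 2) 3 2 (by norm_num), rp hV0.le (1 / 2) 1 2 (by norm_num),
      Real.rpow_one, show (3 : ℝ) = (3 : ℕ) by norm_num, Real.rpow_natCast, Real.sq_sqrt hX.le]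
    have e1 : Y ^ 2 / c ≤ K ^ 2 := le_trans (by linarith) (le_self_pow₀ hK1 two_ne_zero)
    calc s ^ 2 * κ ^ 2 * (P ^ 3 * V)
        ≤ s ^ 2 * κ ^ 2 * (P ^ 3 * (Y ^ 2 / c * ((G * κ) ^ 2 * P / X))) := by gcongr
      _ = Y ^ 2 / c * ((s * κ ^ 2 * G) ^ 2 * (P ^ 2) ^ 2 / X) := by ring
      _ ≤ _ := by gcongr
  unfold Mb BB
  linarith

lemma mb_nonneg {G P V : ℝ} (hG : 0 ≤ G) (hP : 0 ≤ P) (hV : 0 ≤ V) : 0 ≤ Mb G P V := by
  unfold Mb
  positivity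

lemma norm_half {x : ℝ} (hx : 0 < x) (t : ℝ) : ‖(x : ℂ) ^ (1 / 2 + t * Complex.I)‖ = √x := by
  rw [Complex.norm_cpow_eq_rpow_re_of_pos hx, Real.sqrt_eq_rpow]
  congr 1
  simp

end CoreP

open CoreP in
theorem pCore (hT : S_Tw3) (hD : S_D2) : S_Core := by
  intro T c₀ C₀ J hth ε Y hε
  obtain ⟨C, hC, hD⟩ := hD T c₀ C₀ J hth ε hε
  have hc := hth.th.pos
  set K := 1 + c₀ + Y ^ 2 / c₀ with hK
  have hK0 : 0 < K := by positivity
  refine ⟨C * K ^ ε * K, by positivity,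
    fun a q δ k j G H P X t s S F hq hY ha hkj hkq hG hH hP hX hs hS hδ => ?_⟩
  obtain ⟨σ, u, v, θ, h0, h3, h2, hu, hv, hθ, hL⟩ := hT T c₀ C₀ J hth a q δ k j hq ha hkj hkq
  have hk0 : k ≠ 0 := hkj.1.1.ne_zero
  have hq1 := one_le_N hq
  have hk1 := one_le_N hk0
  have hJ : (N k : ℝ) ≤ N j := by
    obtain ⟨m, hm⟩ := hkj.2.2.1
    have hm0 : m ≠ 0 := fun e => hkj.2.1.ne_zero (by rw [hm, e, mul_zero])
    have := one_le_N hm0
    rw [hm, map_mul, map_pow]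
    push_cast
    nlinarith [mul_nonneg (sub_nonneg.2 hk1) (sub_nonneg.2 hk1)]
  set B := X * c₀ / ((N q : ℝ) * N k) ^ 2 with hB
  have hB0 : 0 < B := by positivity
  set F' : O → ℂ := fun d =>
    F d * (N d : ℂ)⁻¹ * v d * ab d * ((N d : ℝ) : ℂ) ^ (1 / 2 + t * Complex.I) with hF'
  have hn : n2 S F' ≤ n2 S F := by
    refine sum_le_sum fun d hd => pow_le_pow_left₀ (norm_nonneg _) ?_ 2
    have hd0 := N_pos_real (hS d hd).1.1.1.ne_zero
    simp only [hF']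
    rw [norm_mul, norm_mul, norm_mul, norm_mul, norm_half hd0, norm_inv, Complex.norm_natCast,
      Complex.norm_real, Real.norm_of_nonneg (ab_nonneg d), ab_eq, mul_assoc,
      Real.mul_self_sqrt hd0.le]
    calc ‖F d‖ * (N d : ℝ)⁻¹ * ‖v d‖ * N d = ‖F d‖ * ‖v d‖ := by field_simp
      _ ≤ _ := mul_le_of_le_one_right (norm_nonneg _) (hv d)
  have hg : ∀ g ∈ s, ‖Lc T (fun n => el (n * a) (9 * q)) g j S F X t‖ ^ 2 ≤
      σ * X * ‖∑ d ∈ S, cop g d * F' d *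
        Rh T J q (fun n => θ n * chi d n * eta g n) t (B / ((N g : ℝ) ^ 2 * N d))‖ ^ 2 := by
    intro g hg
    have e : Lc T (fun n => el (n * a) (9 * q)) g j S F X t =
        (√σ : ℝ) * u g * (X : ℂ) ^ (1 / 2 + t * Complex.I) * ∑ d ∈ S, cop g d * F' d *
          Rh T J q (fun n => θ n * chi d n * eta g n) t (B / ((N g : ℝ) ^ 2 * N d)) := by
      rw [Lc, mul_sum]
      refine sum_congr rfl fun d hd => ?_
      by_cases hc : IsCoprime d g
      · have hd0 := N_pos_real (hS d hd).1.1.1.ne_zero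
        have hg0 := N_pos_real (hs g hg).1.1.1.ne_zero
        rw [hL g d (X * N d) t (by positivity) (hs g hg).1.1 (hS d hd).1.1 (hs g hg).2 (hS d hd).2
          hc (hδ g hg d hd), Complex.ofReal_mul, Complex.mul_cpow_ofReal_nonneg hX.le hd0.le,
          show X * N d * c₀ / ((N q : ℝ) * N (g * d * k)) ^ 2 = B / ((N g : ℝ) ^ 2 * N d) by
            rw [hB, map_mul, map_mul]; push_cast; field_simp]
        simp only [hF']
        ring
      · rw [cop, if_neg hc]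
        simp
    rw [e, norm_mul, norm_mul, norm_mul, norm_half hX, Complex.norm_real,
      Real.norm_of_nonneg (Real.sqrt_nonneg _), mul_pow, mul_pow, mul_pow, Real.sq_sqrt h0,
      Real.sq_sqrt hX.le]
    have : ‖u g‖ ^ 2 ≤ 1 := pow_le_one₀ (norm_nonneg _) (hu g)
    gcongr
    exact mul_le_of_le_one_right h0 this
  have h4 := hD q G P B t s S θ F' hG hP hB0 (fun g hg => (hs g hg).1) (fun d hd => (hS d hd).1) hθ
  have h5 := mb hc hq1 hY hk1 hJ hG hH hP hX h0 h3 h2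
  have h6 := zz hc hq1 hY hk1 hJ hG hH hP hX
  rw [← hB, ← hK] at h5 h6
  have hV0 : 0 < G ^ 2 * P / B := by positivity
  have hM := mb_nonneg (G := G) (P := P) (by linarith) (by linarith) hV0.le
  have hZ : 0 ≤ ZZ H X P := by
    by_contra hz
    nlinarith
  have h7 : (1 + G + P + G ^ 2 * P / B) ^ ε ≤ K ^ ε * ZZ H X P ^ ε := by
    rw [← Real.mul_rpow hK0.le hZ]
    exact Real.rpow_le_rpow (by positivity) h6 hε.le
  have hn0 : 0 ≤ n2 S F' := sum_nonneg fun _ _ => by positivity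
  have hBB : 0 ≤ K * BB H X P := le_trans (by positivity) h5
  rw [le_div_iff₀ (by linarith)]
  calc _ ≤ σ * X * (C * (1 + |t|) ^ 16 * (1 + G + P + G ^ 2 * P / B) ^ ε *
        Mb G P (G ^ 2 * P / B) * n2 S F') * N k := by
        refine mul_le_mul_of_nonneg_right ((sum_le_sum hg).trans ?_) (by linarith)
        rw [← mul_sum]
        exact mul_le_mul_of_nonneg_left h4 (by positivity)
    _ = C * (1 + |t|) ^ 16 * (1 + G + P + G ^ 2 * P / B) ^ ε * X *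
        (σ * N k * Mb G P (G ^ 2 * P / B)) * n2 S F' := by ring
    _ ≤ C * (1 + |t|) ^ 16 * (K ^ ε * ZZ H X P ^ ε) * X * (K * BB H X P) * n2 S F := by gcongr
    _ = _ := by rw [RH]; ring

end Pool.Agent.P.MP_323ce2_nt.QW
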