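import Pool.Agent.P.MP_323ce2_nt.QW.St
import Pool.Agent.P.MP_26a8c3_nt.QV.D

/-! The mean square of the dual sums with levels. -/

namespace Pool.Agent.P.MP_323ce2_nt.QW

open Finset Pool.Agent.P.MP_26a8c3_nt Pool.Agent.P.MP_26a8c3_nt.QO Pool.Agent.P.MP_26a8c3_nt.QA
open Pool.Agent.P.MP_26a8c3_nt.QV
open scoped Classical ComplexConjugate

namespace D2P

lemma Mb_le {G P V z w : ℝ} (hG : 0 ≤ G) (hP : 0 ≤ P) (hV : 0 ≤ V) (hz : 0 ≤ z)
    (h : ∀ a : ℝ, -(1 / 2) ≤ a → a ≤ 1 → z ^ a ≤ w) : Mb G P (z * V) ≤ w * Mb G P V := by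
  have h0 := h 0 (by norm_num) (by norm_num)
  have h1 := h 1 (by norm_num) le_rfl
  have h2 := h (-(1 / 3)) (by norm_num) (by norm_num)
  have h3 := h (1 / 2) (by norm_num) (by norm_num)
  rw [Real.rpow_zero] at h0
  rw [Real.rpow_one] at h1
  rw [Mb, Mb, Real.mul_rpow hz hV, Real.mul_rpow hz hV]
  calc _ ≤ w * G + w * V + G * P ^ (4 / 3 : ℝ) * (w * V ^ (-(1 / 3) : ℝ)) +
        P ^ (3 / 2 : ℝ) * (w * V ^ (1 / 2 : ℝ)) := by
        gcongr
        exact le_mul_of_one_le_left hG h0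
    _ = _ := by ring

lemma grow {G P V z e : ℝ} (hG : 0 ≤ G) (hP : 0 ≤ P) (hV : 0 ≤ V) (hz : 0 < z) (h0 : 0 ≤ e)
    (h1 : e ≤ 1) : (1 + G + P + z * V) ^ e * Mb G P (z * V) ≤
      (1 + G + P + V) ^ e * Mb G P V * (z ^ 3 + z ^ (-(1 / 2) : ℝ)) := by
  have m0 : 0 ≤ Mb G P V := by unfold Mb; positivity
  have m1 : 0 ≤ Mb G P (z * V) := by unfold Mb; positivity
  rcases le_total 1 z with h | h
  · have a1 : (1 + G + P + z * V) ^ e ≤ z * (1 + G + P + V) ^ e :=
      calc _ ≤ (z * (1 + G + P + V)) ^ e := Real.rpow_le_rpow (by positivity) (by nlinarith) h0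
        _ = z ^ e * (1 + G + P + V) ^ e := Real.mul_rpow hz.le (by positivity)
        _ ≤ _ := by
          gcongr
          simpa using Real.rpow_le_rpow_of_exponent_le h h1
    have a2 := Mb_le hG hP hV hz.le (w := z) fun a _ ha => by
      simpa using Real.rpow_le_rpow_of_exponent_le h ha
    calc _ ≤ z * (1 + G + P + V) ^ e * (z * Mb G P V) := by gcongr
      _ = (1 + G + P + V) ^ e * Mb G P V * (z ^ 2 + 0) := by ring
      _ ≤ _ := by
        gcongr
        · norm_num
        · positivity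
  · have a2 := Mb_le hG hP hV hz.le (w := z ^ (-(1 / 2) : ℝ)) fun a ha _ =>
      Real.rpow_le_rpow_of_exponent_ge hz h ha
    calc _ ≤ (1 + G + P + V) ^ e * (z ^ (-(1 / 2) : ℝ) * Mb G P V) := by
          gcongr
          exact mul_le_of_le_one_left hV h
      _ = (1 + G + P + V) ^ e * Mb G P V * (0 + z ^ (-(1 / 2) : ℝ)) := by ring
      _ ≤ _ := by gcongr; positivity

end D2P

theorem pD2 (ht : S_TS2) : S_D2 := by
  intro T c₀ C₀ J hT ε hε
  obtain ⟨C₁, hC₁, h₁⟩ := ht T c₀ C₀ J hT (min ε 1) (lt_min hε one_pos)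
  obtain ⟨C₂, hC₂, h₂⟩ := hT.kr
  refine ⟨C₂ * C₁, by positivity, fun x G P B t s S θ F hG hP hB hs hS hθ => ?_⟩
  have G0 : 0 < G := by linarith
  have P0 : 0 < P := by linarith
  set V := G ^ 2 * P / B with hV
  have V0 : 0 < V := by positivity
  have L0 : 0 ≤ Mb G P V := by unfold Mb; positivity
  have n0 : 0 ≤ n2 S F := sum_nonneg fun _ _ => by positivity
  have key := h₂ s S (fun g d n => cop g d * F d *
      (conj (ang n) * T x n * (ab n : ℂ)⁻¹ * (θ n * chi d n * eta g n)))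
    (fun g => 1 / (N g : ℝ) ^ 2) (fun d => B / N d) (1 / G ^ 2) (B / P) V
    (C₁ * ((1 + G + P + V) ^ min ε 1 * Mb G P V) * n2 S F) t (by positivity) (by positivity)
    (by rw [hV]; field_simp) (by positivity) (fun g d => by simp [ang]) (fun g hg => ?_)
    (fun d hd => ?_) (fun g _ d _ => ?_) (fun z θ' θ'' I hz h1 h2 hI => ?_)
  · refine le_trans (le_of_eq (sum_congr rfl fun g _ => ?_)) (key.trans ?_)
    · congr 2
      refine sum_congr rfl fun d _ => ?_
      rw [Rh, ← tsum_mul_left]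
      refine tsum_congr fun n => ?_
      rw [show 1 / (N g : ℝ) ^ 2 * (B / N d) = B / ((N g : ℝ) ^ 2 * N d) by ring]
      ring
    · have : (1 + G + P + V) ^ min ε 1 ≤ (1 + G + P + V) ^ ε :=
        Real.rpow_le_rpow_of_exponent_le (by linarith) (min_le_left _ _)
      calc _ ≤ C₂ * (1 + |t|) ^ 16 * (C₁ * ((1 + G + P + V) ^ ε * Mb G P V) * n2 S F) := by gcongr
        _ = _ := by ring
  · obtain ⟨-, k1, k2⟩ := hs g hg
    have k0 : (0 : ℝ) < N g := by linarith
    refine ⟨by gcongr, ?_⟩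
    rw [mul_one_div, div_le_div_iff₀ (by positivity) (by positivity)]
    nlinarith
  · obtain ⟨-, k1, k2⟩ := hS d hd
    have k0 : (0 : ℝ) < N d := by linarith
    refine ⟨by gcongr, ?_⟩
    rw [← mul_div_assoc, div_le_div_iff₀ k0 P0]
    nlinarith
  · refine (DP.summable_two.mul_left (‖cop g d * F d‖ * C₀)).of_nonneg_of_le
      (fun i => by positivity) fun i => ?_
    refine mul_le_mul_of_nonneg_right ?_ (by positivity)
    rw [norm_mul]
    refine mul_le_mul_of_nonneg_left ?_ (norm_nonneg _)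
    by_cases hi : i = 0
    · simp [hi, ang, hT.th.pos']
    · have a0 := ab_pos hi
      have e : ‖T x i‖ * (ab i)⁻¹ ≤ C₀ := by
        rw [← div_eq_mul_inv, div_le_iff₀ a0]; exact hT.th.le x i hi
      rw [norm_mul, norm_mul, norm_mul, Complex.norm_conj, norm_ang hi,
        norm_inv, Complex.norm_real, Real.norm_of_nonneg a0.le, one_mul]
      refine le_trans (mul_le_of_le_one_right (by positivity) ?_) e
      rw [norm_mul, norm_mul]
      exact mul_le_one₀ (mul_le_one₀ (hθ i) (norm_nonneg _) (norm_chi_le _ _)) (norm_nonneg _)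
        (norm_eta_le _ _)
  · have := h₁ x G P (z * V) s S I (fun i => θ' i * conj (ang i) * θ i) (fun d => θ'' d * F d) hG hP
      (by positivity) (fun g hg => ⟨(hs g hg).1, (hs g hg).2.2⟩)
      (fun d hd => ⟨(hS d hd).1.1, (hS d hd).2.2⟩) (fun i => by
        rw [norm_mul, norm_mul, Complex.norm_conj]
        exact mul_le_one₀ (mul_le_one₀ (h1 i) (norm_nonneg _) (norm_ang_le i)) (norm_nonneg _)
          (hθ i)) hI
    refine le_trans (le_of_eq ?_) (this.trans ?_)
    · refine sum_congr rfl fun h _ => ?_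
      congr 2
      refine sum_congr rfl fun i _ => ?_
      rw [mul_sum, sum_mul]
      exact sum_congr rfl fun d _ => by ring
    · have n1 : n2 S (fun d => θ'' d * F d) ≤ n2 S F := sum_le_sum fun d _ => by
        rw [norm_mul]
        exact pow_le_pow_left₀ (by positivity) (mul_le_of_le_one_left (norm_nonneg _) (h2 d)) 2
      have n3 : 0 ≤ n2 S (fun d => θ'' d * F d) := sum_nonneg fun _ _ => by positivity
      have := D2P.grow G0.le P0.le V0.le hz (le_min hε.le zero_le_one) (min_le_right ε 1)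
      calc _ ≤ C₁ * ((1 + G + P + V) ^ min ε 1 * Mb G P V * (z ^ 3 + z ^ (-(1 / 2) : ℝ))) *
            n2 S F := by rw [mul_assoc C₁]; gcongr
        _ = _ := by ring

end Pool.Agent.P.MP_323ce2_nt.QW
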