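import Pool.Agent.P.MP_323ce2_nt.QW.St
import Pool.Agent.P.MP_26a8c3_nt.QO.Sym

/-! Decomposition of the modulus into a sixth power and a sixth power free part. -/

namespace Pool.Agent.P.MP_323ce2_nt.QW

open Finset Pool.Agent.P.MP_26a8c3_nt Pool.Agent.P.MP_26a8c3_nt.QO Pool.Agent.P.MP_26a8c3_nt.QA
open Pool.Agent.P.MP_26a8c3_nt.QV
open scoped Classical ComplexConjugate

namespace Dec6P

lemma pow5 {p a b : O} (hp : Prime p) (hb : p ∣ b) (ha : a ∣ b ^ 5) (hn : ¬p * a ∣ b ^ 5) :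
    p ^ 5 ∣ a := by
  obtain ⟨t, ht⟩ := ha
  refine hp.pow_dvd_of_dvd_mul_right 5 (b := t) (fun ⟨u, e⟩ => hn ⟨u, ?_⟩)
    (ht ▸ pow_dvd_pow_of_dvd hb 5)
  rw [ht, e]
  ring

lemma sqo_one : SQO 1 := ⟨sq_one, isCoprime_one_left⟩

lemma sqo_mul {a b : O} (ha : SQO a) (hb : SQO b) (h : IsCoprime a b) : SQO (a * b) :=
  ⟨ha.1.mul hb.1 h, ha.2.mul_left hb.2⟩

lemma sqo_right {a b : O} (h : SQO (a * b)) (ha : Primary a) : SQO b :=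
  ⟨h.1.right ha, h.2.of_mul_left_right⟩

end Dec6P

open Dec6P in
theorem pDec6 : S_Dec6 := by
  intro Q h _ hQ h0
  refine nz_ind (P := fun h => ∃ r h' : O, r ≠ 0 ∧ Sx Q h' ∧ h = r ^ 6 * h') (fun u hu => ?_)
    (fun p a hp hn _ ih => ?_) h0
  · exact ⟨1, u, one_ne_zero, ⟨u, 1, 1, 1, hu.dvd, sqo_one, ⟨sqo_one, primary_one, by simp, by simp⟩,
      isCoprime_one_left, isCoprime_one_left, isCoprime_one_left, by simp⟩, by simp⟩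
  obtain ⟨r, h', r0, ⟨h₀, g, k, j, a1, a2, ⟨k1, k2, k3, k4⟩, a3, a4, a5, rfl⟩, rfl⟩ := ih
  by_cases pQ : p ∣ Q
  · by_cases e : p * h₀ ∣ Q ^ 5
    · exact ⟨r, _, r0, ⟨p * h₀, g, k, j, e, a2, ⟨k1, k2, k3, k4⟩, a3, a4, a5, rfl⟩, by ring⟩
    · obtain ⟨h₁, rfl⟩ := pow5 hp pQ a1 e
      exact ⟨r * p, _, mul_ne_zero r0 hp.ne_zero, ⟨h₁, g, k, j, (dvd_mul_left _ _).trans a1, a2,
        ⟨k1, k2, k3, k4⟩, a3, a4, a5, rfl⟩, by ring⟩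
  have cQ : IsCoprime p Q := hp.coprime_iff_not_dvd.2 pQ
  have c3 : IsCoprime p 3 := cQ.of_isCoprime_of_dvd_right (Dvd.dvd.trans ⟨12, by norm_num⟩ hQ)
  have p1 : Primary p := hn.primary fun e =>
    prime_lam.not_isUnit (c3.isUnit_of_dvd' e lam_dvd_three)
  have p2 : SQO p := ⟨⟨p1, hp.squarefree⟩,
    cQ.of_isCoprime_of_dvd_right (Dvd.dvd.trans ⟨18, by norm_num⟩ hQ)⟩
  by_cases pg : p ∣ g
  · obtain ⟨g', rfl⟩ := pg
    refine ⟨r, _, r0, ⟨h₀, g', p * k, p ^ 2 * j, a1, sqo_right a2 p1,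
      ⟨sqo_mul p2 k1 a5.of_mul_left_left, (p1.pow 2).mul k2, ?_, ?_⟩, a3.of_mul_left_right,
      cQ.mul_left a4, a2.1.coprime.symm.mul_right a5.of_mul_left_right, rfl⟩, by ring⟩
    · rw [mul_pow]
      exact mul_dvd_mul_left _ k3
    · rw [mul_pow]
      exact mul_dvd_mul (pow_dvd_pow p (by norm_num)) k4
  have cg : IsCoprime p g := hp.coprime_iff_not_dvd.2 pg
  by_cases pk : p ∣ k
  · by_cases e : p * j ∣ k ^ 5
    · exact ⟨r, _, r0, ⟨h₀, g, k, p * j, a1, a2, ⟨k1, p1.mul k2, k3.mul_left p, e⟩, a3, a4, a5, rfl⟩,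
        by ring⟩
    · obtain ⟨j₁, rfl⟩ := pow5 hp pk k4 e
      obtain ⟨k₁, rfl⟩ := pk
      refine ⟨r * p, _, mul_ne_zero r0 hp.ne_zero, ⟨h₀, g, k₁, j₁, a1, a2,
        ⟨sqo_right k1 p1, k2.of_mul (p1.pow 5), ?_, ?_⟩, a3, a4.of_mul_left_right,
        a5.of_mul_right_right, rfl⟩, by ring⟩
      · exact (k1.1.coprime.symm.pow (m := 2) (n := 5)).dvd_of_dvd_mul_left
          ((pow_dvd_pow_of_dvd (dvd_mul_left k₁ p) 2).trans k3)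
      · rw [mul_pow] at k4
        exact (mul_dvd_mul_iff_left (pow_ne_zero 5 hp.ne_zero)).1 k4
  · exact ⟨r, _, r0, ⟨h₀, p * g, k, j, a1, sqo_mul p2 a2 cg, ⟨k1, k2, k3, k4⟩, cQ.mul_left a3, a4,
      (hp.coprime_iff_not_dvd.2 pk).mul_left a5, rfl⟩, by ring⟩

end Pool.Agent.P.MP_323ce2_nt.QW
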