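import Pool.Agent.P.MP_323ce2_nt.QW.St

/-! Removal of the dyadic ranges. -/

namespace Pool.Agent.P.MP_323ce2_nt.QW

open Finset Pool.Agent.P.MP_26a8c3_nt Pool.Agent.P.MP_26a8c3_nt.QO Pool.Agent.P.MP_26a8c3_nt.QA
open Pool.Agent.P.MP_26a8c3_nt.QV
open scoped Classical ComplexConjugate

namespace DyaP

/-- the index of the dyadic block -/
noncomputable def idx (R x : ℝ) : ℕ := Nat.log 2 ⌊R / x⌋₊

/-- the number of blocks -/
noncomputable def cnt (R : ℝ) : ℕ := Nat.log 2 ⌊R⌋₊ + 1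

lemma idx_spec {R x : ℝ} (h1 : 1 ≤ x) (h2 : x ≤ R) :
    x ≤ R / 2 ^ idx R x ∧ R / 2 ^ idx R x ≤ 2 * x := by
  have hx : 0 < x := by linarith
  have hq : 1 ≤ R / x := (one_le_div hx).2 h2
  have h0 : ⌊R / x⌋₊ ≠ 0 := (Nat.floor_pos.2 hq).ne'
  have a1 : ((2 ^ idx R x : ℕ) : ℝ) ≤ R / x :=
    (Nat.cast_le.2 (Nat.pow_log_le_self 2 h0)).trans (Nat.floor_le (by linarith))
  have a2 : R / x ≤ ((2 ^ (idx R x + 1) : ℕ) : ℝ) := by
    have := Nat.lt_pow_succ_log_self (b := 2) (by norm_num) ⌊R / x⌋₊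
    have h3 : ((⌊R / x⌋₊ + 1 : ℕ) : ℝ) ≤ ((2 ^ (idx R x + 1) : ℕ) : ℝ) := Nat.cast_le.2 this
    have h4 := Nat.lt_floor_add_one (R / x)
    push_cast at h3 ⊢
    linarith
  push_cast at a1 a2
  have hp : (0 : ℝ) < 2 ^ idx R x := by positivity
  rw [le_div_iff₀ hx] at a1
  rw [div_le_iff₀ hx, pow_succ] at a2
  exact ⟨(le_div_iff₀ hp).2 (by linarith), (div_le_iff₀ hp).2 (by linarith)⟩

lemma idx_lt {R R' x : ℝ} (h1 : 1 ≤ x) (h0 : 0 ≤ R) (h2 : R ≤ R') : idx R x < cnt R' :=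
  Nat.lt_succ_of_le (Nat.log_mono_right (Nat.floor_mono ((div_le_self h0 h1).trans h2)))

lemma cnt_le {ε R : ℝ} (hε : 0 < ε) (hR : 1 ≤ R) : (cnt R : ℝ) ≤ (1 + 2 / ε) * R ^ ε := by
  have h0 : ⌊R⌋₊ ≠ 0 := (Nat.floor_pos.2 hR).ne'
  have a1 : ((2 ^ Nat.log 2 ⌊R⌋₊ : ℕ) : ℝ) ≤ R :=
    (Nat.cast_le.2 (Nat.pow_log_le_self 2 h0)).trans (Nat.floor_le (by linarith))
  push_cast at a1
  have a2 := Real.log_le_log (by positivity) a1
  rw [Real.log_pow] at a2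
  have a3 := Real.log_le_rpow_div (x := R) (by linarith) hε
  have a4 := Real.log_two_gt_d9
  have a5 : 1 ≤ R ^ ε := Real.one_le_rpow hR hε.le
  have a6 : (0 : ℝ) ≤ Nat.log 2 ⌊R⌋₊ := Nat.cast_nonneg _
  have a7 : (Nat.log 2 ⌊R⌋₊ : ℝ) ≤ 2 * (R ^ ε / ε) := by nlinarith
  unfold cnt
  push_cast
  calc (Nat.log 2 ⌊R⌋₊ : ℝ) + 1 ≤ 2 * (R ^ ε / ε) + R ^ ε := by linarith
    _ = _ := by ring

lemma RH_mono {C ε H X P P' t : ℝ} (hC : 0 ≤ C) (hε : 0 ≤ ε) (hH : 0 ≤ H) (hX : 0 < X)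
    (hP : 0 ≤ P) (h : P ≤ P') : RH C ε H X P t ≤ RH C ε H X P' t := by
  have hP' : 0 ≤ P' := hP.trans h
  unfold RH ZZ BB
  gcongr

lemma RH_nn {C ε H X P t : ℝ} (hC : 0 ≤ C) (hH : 0 ≤ H) (hX : 0 < X) (hP : 0 ≤ P) :
    0 ≤ RH C ε H X P t := by
  unfold RH ZZ BB
  positivity

lemma n2_nn (S : Finset O) (F : O → ℂ) : 0 ≤ n2 S F := sum_nonneg fun _ _ => by positivity

lemma cs (L : ℕ) (a : ℕ → ℂ) : ‖∑ i ∈ range L, a i‖ ^ 2 ≤ L * ∑ i ∈ range L, ‖a i‖ ^ 2 := by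
  have h1 : ‖∑ i ∈ range L, a i‖ ^ 2 ≤ (∑ i ∈ range L, ‖a i‖) ^ 2 :=
    pow_le_pow_left₀ (norm_nonneg _) (norm_sum_le _ _) 2
  have h2 := sq_sum_le_card_mul_sum_sq (s := range L) (f := fun i => ‖a i‖)
  rw [card_range] at h2
  exact h1.trans h2

end DyaP

open DyaP in
theorem pDya (hL : S_Lev) : S_Dya := by
  intro T c₀ C₀ J hT q hq ε hε
  have hε' : 0 < ε / 3 := by positivity
  obtain ⟨C, hC, h⟩ := hL T c₀ C₀ J hT q hq (ε / 3) hε'
  refine ⟨(1 + 2 / (ε / 3)) ^ 2 * C, by positivity,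
    fun k j H P X t s S F Φ hk hkq hH hP hX hs hS hΦ => ?_⟩
  have hj : (1 : ℝ) ≤ N j := one_le_N hk.2.1.ne_zero
  have hj0 : (0 : ℝ) < N j := by linarith
  have hk0 : (0 : ℝ) ≤ N k := Nat.cast_nonneg _
  have hH0 : 0 ≤ H := by linarith
  have hP0 : 0 ≤ P := by linarith
  set R : ℝ := RH C (ε / 3) H X P t with hR
  have hR0 : 0 ≤ R := RH_nn hC hH0 hX hP0
  have hg1 : ∀ g ∈ s, (1 : ℝ) ≤ N g := fun g hg => one_le_N (hs g hg).1.1.1.ne_zero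
  have hD1 : ∀ D ∈ S, (1 : ℝ) ≤ N D := fun D hD => one_le_N (hS D hD).1.1.1.ne_zero
  have hblock : ∀ a b : ℕ, ∑ g ∈ s.filter (fun g => idx (H / N j) (N g) = a),
      ‖Li T (Φ g) g j (S.filter fun D => idx P (N D) = b) F X t‖ ^ 2 ≤
      R * n2 (S.filter fun D => idx P (N D) = b) F / N k := by
    intro a b
    have hn := n2_nn (S.filter fun D => idx P (N D) = b) F
    rcases (s.filter fun g => idx (H / N j) (N g) = a).eq_empty_or_nonempty with e | ⟨g₀, hg₀⟩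
    · rw [e, sum_empty]; positivity
    rcases (S.filter fun D => idx P (N D) = b).eq_empty_or_nonempty with e | ⟨D₀, hD₀⟩
    · rw [e]; simp [Li, n2]
    have sg : ∀ g ∈ s.filter (fun g => idx (H / N j) (N g) = a),
        (N g : ℝ) ≤ H / N j / 2 ^ a ∧ H / N j / 2 ^ a ≤ 2 * N g := fun g hg => by
      obtain ⟨h1, h2⟩ := mem_filter.1 hg
      have := idx_spec (hg1 g h1) ((le_div_iff₀ hj0).2 (hs g h1).2.1)
      rwa [h2] at this
    have sD : ∀ D ∈ S.filter (fun D => idx P (N D) = b),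
        (N D : ℝ) ≤ P / 2 ^ b ∧ P / 2 ^ b ≤ 2 * N D := fun D hD => by
      obtain ⟨h1, h2⟩ := mem_filter.1 hD
      have := idx_spec (hD1 D h1) (hS D h1).2.1
      rwa [h2] at this
    have p1 : ∀ n : ℕ, (1 : ℝ) ≤ 2 ^ n := fun n => one_le_pow₀ (by norm_num)
    have hPb : 1 ≤ P / 2 ^ b := (hD1 D₀ (mem_filter.1 hD₀).1).trans (sD D₀ hD₀).1
    refine (h k j (H / N j / 2 ^ a) H (P / 2 ^ b) X t _ _ F Φ hk hkq
      ((hg1 g₀ (mem_filter.1 hg₀).1).trans (sg g₀ hg₀).1) ?_ hPb hX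
      (fun g hg => ⟨⟨(hs g (mem_filter.1 hg).1).1, (sg g hg).2, (sg g hg).1⟩,
        (hs g (mem_filter.1 hg).1).2.2⟩)
      (fun D hD => ⟨⟨(hS D (mem_filter.1 hD).1).1, (sD D hD).2, (sD D hD).1⟩,
        (hS D (mem_filter.1 hD).1).2.2⟩) hΦ).trans ?_
    · exact (le_div_iff₀ hj0).1 (div_le_self (by positivity) (p1 a))
    · have := RH_mono (t := t) hC hε'.le hH0 hX (by linarith : 0 ≤ P / 2 ^ b)
        (div_le_self hP0 (p1 b))
      gcongr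
  have mS : ∀ D ∈ S, idx P (N D) ∈ range (cnt P) := fun D hD =>
    mem_range.2 (idx_lt (hD1 D hD) hP0 le_rfl)
  have ms : ∀ g ∈ s, idx (H / N j) (N g) ∈ range (cnt H) := fun g hg =>
    mem_range.2 (idx_lt (hg1 g hg) (by positivity) (div_le_self hH0 hj))
  have hLi : ∀ g, Li T (Φ g) g j S F X t =
      ∑ b ∈ range (cnt P), Li T (Φ g) g j (S.filter fun D => idx P (N D) = b) F X t := fun g =>
    (sum_fiberwise_of_maps_to mS _).symm
  have hn2 : ∑ b ∈ range (cnt P), n2 (S.filter fun D => idx P (N D) = b) F = n2 S F :=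
    sum_fiberwise_of_maps_to mS _
  have hn := n2_nn S F
  have hZ : 0 < ZZ H X P := by unfold ZZ; positivity
  have hq0 : 0 ≤ H ^ 2 * P / X := by positivity
  have c1 : (cnt P : ℝ) ≤ (1 + 2 / (ε / 3)) * ZZ H X P ^ (ε / 3) :=
    (cnt_le hε' hP).trans (by
      have : P ≤ ZZ H X P := by unfold ZZ; linarith
      gcongr)
  have c2 : (cnt H : ℝ) ≤ (1 + 2 / (ε / 3)) * ZZ H X P ^ (ε / 3) :=
    (cnt_le hε' hH).trans (by
      have : H ≤ ZZ H X P := by unfold ZZ; linarith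
      gcongr)
  have e3 : ZZ H X P ^ ε = ZZ H X P ^ (ε / 3) * ZZ H X P ^ (ε / 3) * ZZ H X P ^ (ε / 3) := by
    rw [← Real.rpow_add hZ, ← Real.rpow_add hZ]; congr 1; ring
  calc ∑ g ∈ s, ‖Li T (Φ g) g j S F X t‖ ^ 2
      ≤ ∑ g ∈ s, (cnt P : ℝ) * ∑ b ∈ range (cnt P),
          ‖Li T (Φ g) g j (S.filter fun D => idx P (N D) = b) F X t‖ ^ 2 :=
        sum_le_sum fun g _ => by rw [hLi g]; exact cs _ _
    _ = (cnt P : ℝ) * ∑ b ∈ range (cnt P), ∑ a ∈ range (cnt H),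
          ∑ g ∈ s.filter (fun g => idx (H / N j) (N g) = a),
            ‖Li T (Φ g) g j (S.filter fun D => idx P (N D) = b) F X t‖ ^ 2 := by
        rw [← mul_sum, sum_comm]
        congr 1
        exact sum_congr rfl fun b _ => (sum_fiberwise_of_maps_to ms _).symm
    _ ≤ (cnt P : ℝ) * ∑ b ∈ range (cnt P), ∑ _a ∈ range (cnt H),
          R * n2 (S.filter fun D => idx P (N D) = b) F / N k := by
        gcongr with b _ a _
        exact hblock a b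
    _ = (cnt P : ℝ) * cnt H * (R * n2 S F / N k) := by
        simp only [sum_const, card_range, nsmul_eq_mul]
        rw [← mul_sum, ← sum_div, ← mul_sum, hn2, mul_assoc]
    _ ≤ ((1 + 2 / (ε / 3)) * ZZ H X P ^ (ε / 3)) * ((1 + 2 / (ε / 3)) * ZZ H X P ^ (ε / 3)) *
          (R * n2 S F / N k) := by gcongr
    _ = _ := by rw [hR, RH, RH, e3]; ring

end Pool.Agent.P.MP_323ce2_nt.QW
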