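import Pool.Agent.P.MP_323ce2_nt.QW.St
import Pool.Agent.P.MP_26a8c3_nt.QV.Tw
import Pool.Agent.P.MP_26a8c3_nt.QO.FT

/-! Expansion of the periodic factor, splitting into residue classes. -/

namespace Pool.Agent.P.MP_323ce2_nt.QW

open Finset Pool.Agent.P.MP_26a8c3_nt Pool.Agent.P.MP_26a8c3_nt.QO Pool.Agent.P.MP_26a8c3_nt.QA
open Pool.Agent.P.MP_26a8c3_nt.QV
open scoped Classical ComplexConjugate

namespace Exp2P

theorem cs {ι : Type*} (s : Finset ι) (c z : ι → ℂ) (hc : ∀ i, ‖c i‖ ≤ 1) :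
    ‖∑ i ∈ s, c i * z i‖ ^ 2 ≤ s.card * ∑ i ∈ s, ‖z i‖ ^ 2 := by
  refine (pow_le_pow_left₀ (norm_nonneg _) ((norm_sum_le _ _).trans (sum_le_sum
    (g := fun i => ‖z i‖) fun i _ => ?_)) 2).trans sq_sum_le_card_mul_sum_sq
  rw [norm_mul]
  exact mul_le_of_le_one_left (norm_nonneg _) (hc i)

/-- the representative of the residue class -/
noncomputable def cl (Q x : O) : O := (mk Q x).out

theorem cl_mem {Q : O} (hQ : Q ≠ 0) (x : O) : cl Q x ∈ res Q := out_mem_res hQ _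

theorem cl_dvd {Q x y : O} (h : cl Q x = cl Q y) : Q ∣ x - y := by
  have := dvd_sub (dvd_out_sub Q y) (dvd_out_sub Q x)
  rw [show (mk Q x).out = (mk Q y).out from h] at this
  simpa using this

variable {T : O → O → ℂ} {c₀ C₀ : ℝ} {J : ℝ → ℝ → ℂ}

theorem expand (hs : S_Sum) (hR : S_Ram) (hT : Th T c₀ C₀ J) {Q : O} (hQ : Q ≠ 0) {Φ : O → ℂ}
    (hF : Per Q Φ) (g j : O) {S : Finset O} (hS : ∀ d ∈ S, d ≠ 0) (F : O → ℂ) {X : ℝ}
    (hX : 0 < X) (t : ℝ) : Lc T Φ g j S F X t =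
      ∑ y ∈ res Q, (N Q : ℂ)⁻¹ * ft Φ Q (-y) * Lc T (fun n => el (n * y) Q) g j S F X t := by
  simp only [Lc, mul_sum]
  rw [sum_comm]
  refine sum_congr rfl fun d hd => ?_
  have d0 := hS d hd
  have hb : ∀ y n, ‖el (n * y) Q * (conj (psi g n) * cR d n * conj (psi j n))‖ ≤ N d := by
    intro y n
    have := hR.1 d n d0
    rw [norm_mul, norm_mul, norm_mul, norm_el, Complex.norm_conj, Complex.norm_conj]
    calc _ ≤ 1 * (1 * (N d : ℝ) * 1) := by
          gcongr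
          exacts [norm_psi_le _ _, norm_psi_le _ _]
      _ = _ := by ring
  simp only [mul_left_comm _ (cop g d * F d * (N d : ℂ)⁻¹), ← mul_sum]
  congr 1
  simp only [Lh, ← tsum_mul_left]
  rw [← Summable.tsum_finsetSum fun y _ =>
    (hs.1 T c₀ C₀ J hT _ (N d) (X * N d) t (hb y) (mul_pos hX (N_pos_real d0))).mul_left _]
  refine tsum_congr fun n => ?_
  rw [ft_inv' hQ hF n, sm_eq_res hQ]
  simp only [mul_sum, sum_mul]
  exact sum_congr rfl fun y _ => by ring

theorem split {Q : O} (hQ : Q ≠ 0) (Φ : O → ℂ) (g j : O) (S : Finset O) (F : O → ℂ) (X t : ℝ) :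
    Lc T Φ g j S F X t = ∑ b ∈ res Q, 1 * Lc T Φ g j (S.filter fun d => cl Q d = b) F X t := by
  simp only [Lc, one_mul]
  exact (sum_fiberwise_of_maps_to (fun d _ => cl_mem hQ d) _).symm

end Exp2P

open Exp2P in
theorem pExp2 (hS : S_Sum) (hR : S_Ram) (hC : S_Core) : S_Exp2 := by
  intro T c₀ C₀ J hT q hq ε hε
  obtain ⟨C, C0, h⟩ := hC T c₀ C₀ J hT ε (N q) hε
  have hQ : 9 * q ≠ 0 := mul_ne_zero (by norm_num) hq
  set n : ℝ := (N (9 * q) : ℝ) with hn
  have n0 : 0 ≤ n := Nat.cast_nonneg _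
  have hc : ((res (9 * q)).card : ℝ) = n := by rw [card_res]
  refine ⟨n ^ 5 * C, by positivity, fun k j G H P X t s S F Φ hk hkq hG hH hP hX hs hS' hΦ => ?_⟩
  set R := RH C ε H X P t * n2 S F / N k with hR'
  have k1 : Primary k := hk.1.1.1
  have H0 : 0 ≤ H := le_trans (by positivity) hH
  have r0 : 0 ≤ RH C ε H X P t := by
    have : 0 ≤ P := by linarith
    unfold RH ZZ BB
    positivity
  have one : ∀ y a b : O, ∑ g ∈ s.filter fun g => cl (9 * q) g = a,
      ‖Lc T (fun n => el (n * y) (9 * q)) g j (S.filter fun d => cl (9 * q) d = b) F X t‖ ^ 2 ≤ R := by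
    intro y a b
    have R0 : 0 ≤ R := by
      have : 0 ≤ n2 S F := sum_nonneg fun _ _ => by positivity
      positivity
    rcases (s.filter fun g => cl (9 * q) g = a).eq_empty_or_nonempty with e | ⟨g₀, hg₀⟩
    · rwa [e, sum_empty]
    rcases (S.filter fun g => cl (9 * q) g = b).eq_empty_or_nonempty with e | ⟨d₀, hd₀⟩
    · simpa [e, Lc] using R0
    obtain ⟨a₁, q₁, a1, a2, a3, a4, a5⟩ := frac y hq
    have sub : ∀ x, IsCoprime x (q * k) → IsCoprime x (q₁ * k) := fun x hx =>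
      hx.of_isCoprime_of_dvd_right (mul_dvd_mul_right a4 k)
    have kq := hkq.of_isCoprime_of_dvd_right a4
    rw [mem_filter] at hg₀ hd₀
    obtain ⟨δ, hδ⟩ := exists_d a1 a2 (((hs g₀ hg₀.1).1.1.1.1.mul (hS' d₀ hd₀.1).1.1.1.1).mul k1)
      (((sub _ (hs g₀ hg₀.1).2).of_mul_right_left.mul_left
        (sub _ (hS' d₀ hd₀.1).2).of_mul_right_left).mul_left kq)
    have e : ∀ g (S₁ : Finset O), Lc T (fun n => el (n * y) (9 * q)) g j S₁ F X t =
        Lc T (fun n => el (n * a₁) (9 * q₁)) g j S₁ F X t := fun g S₁ => by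
      refine sum_congr rfl fun d _ => ?_
      congr 1
      refine tsum_congr fun m => ?_
      have := a5 m (T 0 m) (hT.th.t1 m)
      linear_combination (ang m * (conj (psi g m) * cR d m * conj (psi j m)) *
        W (X * N d) t (N m)) * this
    simp only [e]
    refine (h a₁ q₁ δ k j G H P X t _ _ F a3 (by exact_mod_cast N_le_of_dvd a4 hq) a1 hk kq hG hH hP
      hX (fun g hg => ⟨(hs g (mem_filter.1 hg).1).1, sub _ (hs g (mem_filter.1 hg).1).2⟩)
      (fun d hd => ⟨(hS' d (mem_filter.1 hd).1).1, sub _ (hS' d (mem_filter.1 hd).1).2⟩)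
      fun g hg d hd => ?_).trans ?_
    · have q9 : 9 * q₁ ∣ 9 * q := mul_dvd_mul_left 9 a4
      obtain ⟨u, hu⟩ := q9.trans (cl_dvd ((mem_filter.1 hg).2.trans hg₀.2.symm))
      obtain ⟨v, hv⟩ := q9.trans (cl_dvd ((mem_filter.1 hd).2.trans hd₀.2.symm))
      have e1 : 9 * q₁ ∣ g * d * k - g₀ * d₀ * k :=
        ⟨(u * d + g₀ * v) * k, by linear_combination (d * k) * hu + (g₀ * k) * hv⟩
      have e2 := dvd_add hδ (e1.mul_right (a₁ * δ * (g * d * k + g₀ * d₀ * k)))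
      convert e2 using 1
      ring
    · rw [hR']
      gcongr
      exact sum_le_sum_of_subset_of_nonneg (filter_subset _ _) fun _ _ _ => by positivity
  have two : ∀ y : O, ∑ g ∈ s, ‖Lc T (fun n => el (n * y) (9 * q)) g j S F X t‖ ^ 2 ≤
      n * (n * (n * R)) := by
    intro y
    refine (sum_le_sum fun g _ => (congrArg (‖·‖ ^ 2) (split hQ _ g j S F X t)).trans_le
      (cs _ _ _ fun _ => norm_one.le)).trans ?_
    rw [← mul_sum, sum_comm, hc]
    gcongr
    refine (sum_le_card_nsmul _ _ (n * R) fun b _ => ?_).trans (by rw [nsmul_eq_mul, hc])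
    rw [← sum_fiberwise_of_maps_to (g := cl (9 * q)) fun g _ => cl_mem hQ g]
    exact (sum_le_card_nsmul _ _ R fun a _ => one y a b).trans (by rw [nsmul_eq_mul, hc])
  refine (sum_le_sum fun g _ => (congrArg (‖·‖ ^ 2) (expand hS hR hT.th hQ (hΦ g).1 g j
    (fun d hd => (hS' d hd).1.1.1.ne_zero) F hX t)).trans_le (cs _ _ _ fun y => ?_)).trans ?_
  · rw [norm_mul, norm_inv, Complex.norm_natCast, inv_mul_le_iff₀ (N_pos_real hQ)]
    exact norm_ft_le hQ (hΦ g).2 _
  · rw [← mul_sum, sum_comm, hc]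
    calc _ ≤ n * (n * (n * (n * (n * R)))) := by
          gcongr
          exact (sum_le_card_nsmul _ _ _ fun y _ => two y).trans (by rw [nsmul_eq_mul, hc])
      _ = _ := by rw [hR', RH, RH]; ring

end Pool.Agent.P.MP_323ce2_nt.QW
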