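import Pool.Agent.P.MP_323ce2_nt.QW.St
import Pool.Agent.P.MP_26a8c3_nt.QV.Gau

/-! From balls to the Gaussian weight. -/

namespace Pool.Agent.P.MP_323ce2_nt.QW

open Finset Pool.Agent.P.MP_26a8c3_nt Pool.Agent.P.MP_26a8c3_nt.QO Pool.Agent.P.MP_26a8c3_nt.QA
open Pool.Agent.P.MP_26a8c3_nt.QV
open scoped Classical ComplexConjugate

namespace Gau2P

theorem BB_scale {z H X P : ℝ} (hz : 1 ≤ z) (hH : 0 ≤ H) (hX : 0 < X) (hP : 0 ≤ P) :
    BB (z * H) X P ≤ z ^ 2 * BB H X P := by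
  have hz0 : 0 ≤ z := zero_le_one.trans hz
  have h0 : z ≤ z ^ 2 := by nlinarith
  have h1 : z ^ (1 / 3 : ℝ) ≤ z ^ 2 := by
    rw [← Real.rpow_natCast]
    exact Real.rpow_le_rpow_of_exponent_le hz (by norm_num)
  have a : z * H ≤ z ^ 2 * H := mul_le_mul_of_nonneg_right h0 hH
  have b : P * (z * H * X) ^ (1 / 3 : ℝ) ≤ z ^ 2 * (P * (H * X) ^ (1 / 3 : ℝ)) := by
    rw [mul_assoc z, Real.mul_rpow hz0 (by positivity), mul_left_comm]
    exact mul_le_mul_of_nonneg_right h1 (by positivity)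
  have c : z * H * P ^ 2 / √X ≤ z ^ 2 * (H * P ^ 2 / √X) := by
    rw [mul_assoc z, mul_div_assoc z]
    exact mul_le_mul_of_nonneg_right h0 (by positivity)
  have d : (z * H) ^ 2 * P / X = z ^ 2 * (H ^ 2 * P / X) := by ring
  unfold BB
  rw [d]
  linarith

theorem ZZ_scale {z H X P ε : ℝ} (hz : 1 ≤ z) (hH : 0 ≤ H) (hX : 0 < X) (hP : 0 ≤ P)
    (hε : 0 < ε) : ZZ (z * H) X P ^ ε ≤ z ^ (2 * ⌈ε⌉₊) * ZZ H X P ^ ε := by
  have hz0 : 0 ≤ z := zero_le_one.trans hz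
  have hz2 : 1 ≤ z ^ 2 := one_le_pow₀ hz
  have h1 : ZZ (z * H) X P ≤ z ^ 2 * ZZ H X P := by
    have a : z * H ≤ z ^ 2 * H := mul_le_mul_of_nonneg_right (by nlinarith) hH
    have b : P ≤ z ^ 2 * P := le_mul_of_one_le_left hP hz2
    have d : (z * H) ^ 2 * P / X = z ^ 2 * (H ^ 2 * P / X) := by ring
    unfold ZZ
    rw [d]
    linarith
  have h2 : 0 ≤ ZZ H X P := by
    unfold ZZ
    positivity
  refine (Real.rpow_le_rpow (by unfold ZZ; positivity) h1 hε.le).trans ?_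
  rw [Real.mul_rpow (by positivity) h2, pow_mul]
  refine mul_le_mul_of_nonneg_right ?_ (by positivity)
  rw [← Real.rpow_natCast (z ^ 2) ⌈ε⌉₊]
  exact Real.rpow_le_rpow_of_exponent_le hz2 (Nat.le_ceil ε)

end Gau2P

theorem pGau2 : S_Gau2 := by
  intro hV Q hQ h36 ε hε
  obtain ⟨C, hC, H⟩ := hV Q hQ h36 ε hε
  have hS := GauP.summ (2 * ⌈ε⌉₊ + 2)
  set K := ∑' j : ℕ, Real.exp (-(a0 * j)) * ((j : ℝ) + 1) ^ (2 * ⌈ε⌉₊ + 2) with hK
  have hK0 : 0 ≤ K := tsum_nonneg fun j => by positivity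
  refine ⟨C * K + 1, by positivity, fun ν hν Y X P t S s F hY hX hP hD hs => ?_⟩
  have hP0 : 0 ≤ P := zero_le_one.trans hP
  obtain ⟨J, hJ⟩ := GauP.layer (fun h => ‖Bd ν h S F X t‖ ^ 2) (fun h => by positivity) s hs hY
  have hn : 0 ≤ n2 S F := sum_nonneg fun _ _ => by positivity
  have hZ : 0 ≤ ZZ Y X P := by
    unfold ZZ
    positivity
  have hB : 0 ≤ BB Y X P := by
    unfold BB
    positivity
  set M := (1 + |t|) ^ 16 * ZZ Y X P ^ ε * X * BB Y X P * n2 S F with hM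
  have hM0 : 0 ≤ M := by positivity
  have key : ∀ j : ℕ, ∑ h ∈ (ball (((j : ℝ) + 1) * Y)).erase 0, ‖Bd ν h S F X t‖ ^ 2 ≤
      ((j : ℝ) + 1) ^ (2 * ⌈ε⌉₊ + 2) * (C * M) := by
    intro j
    have hz : (1 : ℝ) ≤ (j : ℝ) + 1 := by
      have : (0 : ℝ) ≤ j := Nat.cast_nonneg j
      linarith
    set z : ℝ := (j : ℝ) + 1 with hzd
    have hm : ∀ h ∈ (ball (z * Y)).erase 0, (N h : ℝ) ≤ z * Y ∧ h ≠ 0 := fun h hh =>
      ⟨GauP.memb.1 (mem_erase.1 hh).2, (mem_erase.1 hh).1⟩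
    rcases le_or_gt 1 (z * Y) with h1 | h1
    · refine (H ν hν (z * Y) X P t S _ F h1 hX hP hD hm).trans ?_
      have a := Gau2P.ZZ_scale hz hY.le hX hP0 hε
      have b := Gau2P.BB_scale hz hY.le hX hP0
      have c : 0 ≤ BB (z * Y) X P := by
        unfold BB
        positivity
      unfold RH
      calc C * (1 + |t|) ^ 16 * ZZ (z * Y) X P ^ ε * X * BB (z * Y) X P * n2 S F
          ≤ C * (1 + |t|) ^ 16 * (z ^ (2 * ⌈ε⌉₊) * ZZ Y X P ^ ε) * X *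
            (z ^ 2 * BB Y X P) * n2 S F := by gcongr
        _ = z ^ (2 * ⌈ε⌉₊ + 2) * (C * M) := by rw [hM, pow_add]; ring
    · rw [sum_eq_zero fun h hh => absurd ((one_le_N (hm h hh).2).trans (hm h hh).1) h1.not_ge]
      positivity
  calc ∑ h ∈ s, G (N h / Y) * ‖Bd ν h S F X t‖ ^ 2
      ≤ ∑ j ∈ range J, Real.exp (-(a0 * j)) * (((j : ℝ) + 1) ^ (2 * ⌈ε⌉₊ + 2) * (C * M)) :=
        hJ.trans (sum_le_sum fun j _ => mul_le_mul_of_nonneg_left (key j) (Real.exp_pos _).le)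
    _ = (∑ j ∈ range J, Real.exp (-(a0 * j)) * ((j : ℝ) + 1) ^ (2 * ⌈ε⌉₊ + 2)) * (C * M) := by
        rw [sum_mul]
        exact sum_congr rfl fun j _ => by ring
    _ ≤ K * (C * M) :=
        mul_le_mul_of_nonneg_right (hS.sum_le_tsum _ fun j _ => by positivity) (by positivity)
    _ ≤ (C * K + 1) * M := by nlinarith
    _ = _ := by rw [hM, RH]; ring

end Pool.Agent.P.MP_323ce2_nt.QW
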