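import Pool.Agent.P.MP_323ce2_nt.QW.St
import Pool.Agent.P.MP_26a8c3_nt.QV.Ins

/-! Insertion of the theta coefficients, with a divisibility condition. -/

namespace Pool.Agent.P.MP_323ce2_nt.QW

open Finset Pool.Agent.P.MP_26a8c3_nt Pool.Agent.P.MP_26a8c3_nt.QO Pool.Agent.P.MP_26a8c3_nt.QA
open Pool.Agent.P.MP_26a8c3_nt.QV Pool.Agent.P.MP_26a8c3_nt.QV.InsP
open scoped Classical ComplexConjugate

namespace Ins2P

lemma F0_per (A : Alg) {Q h g n₀ n n' : O} {ν : O → ℂ} (h0 : Q ≠ 0) (hQ : 36 ∣ Q) (hν : IsNu Q ν)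
    (hd : h ∣ Q ^ 5) (hg : Od g) (hn : Primary n) (hn' : Primary n')
    (e : 18 * n₀ * Q ∣ n - n') : F0 ν n₀ h g n = F0 ν n₀ h g n' := by
  have d1 : 2 * Q ∣ n - n' := (Dvd.intro (9 * n₀) (by ring)).trans e
  have d2 : Q ∣ n - n' := (dvd_mul_left _ 2).trans d1
  have e1 : ν n * conj (psi n h) = ν n' * conj (psi n' h) := by
    by_cases hc : IsCoprime n Q
    · rw [hν.per n n' d2, A.per Q h n n' hQ (ne_zero_of_dvd_ne_zero (pow_ne_zero 5 h0) hd)
        (fun p hp e => hp.dvd_of_dvd_pow (e.trans hd)) hn hn' hc d1]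
    · rw [← hν.per n n' d2, hν.zero n hc, zero_mul, zero_mul]
  have e2 : xi g n = xi g n' := (A.gam.2.2.2.2.2.2.1 g hg).per n n'
    (((Dvd.intro 9 (by norm_num)).trans hQ).trans d2)
  have e3 : chi n (3 * n₀) = chi n' (3 * n₀) := A.r2 _ n n' hn hn'
    ((Dvd.intro (2 * n₀ * Q) (by ring)).trans e) ((Dvd.intro (6 * Q) (by ring)).trans e)
  rw [F0, F0, e1, e2, e3]

lemma FF_per (A : Alg) {Q h g n₀ : O} {ν : O → ℂ} (h0 : n₀ ≠ 0) (q0 : Q ≠ 0) (hQ : 36 ∣ Q)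
    (hν : IsNu Q ν) (hd : h ∣ Q ^ 5) (hg : Od g) :
    Per (9 * (2 * n₀ ^ 2 * Q)) (FF ν n₀ h g) := by
  intro x y ⟨s, hs⟩
  have d0 : n₀ ∣ x - y := ⟨18 * n₀ * Q * s, by rw [hs]; ring⟩
  by_cases hy : n₀ ∣ y
  · obtain ⟨n', rfl⟩ := hy
    have e : x = n₀ * (n' + 18 * n₀ * Q * s) := by linear_combination hs
    have d1 : 18 * n₀ * Q ∣ n' + 18 * n₀ * Q * s - n' := ⟨s, by ring⟩
    have d3 : (3 : O) ∣ n' + 18 * n₀ * Q * s - n' := ⟨6 * n₀ * Q * s, by ring⟩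
    rw [e, FF_mul ν h0, FF_mul ν h0]
    by_cases hp : Primary n'
    · rw [if_pos hp, if_pos (hp.of_dvd_sub d3)]
      exact F0_per A q0 hQ hν hd hg (hp.of_dvd_sub d3) hp d1
    · rw [if_neg hp, if_neg fun e => hp (e.of_dvd_sub (dvd_sub_comm.1 d3))]
  · rw [FF, FF, if_neg fun e => hy ((dvd_congr d0).1 e.1), if_neg fun e => hy e.1]

lemma twist (A : Alg) {Q g n₀ h c d : O} {ν : O → ℂ} (h0 : Lp n₀) (hQ : 36 ∣ Q) (hν : IsNu Q ν)
    (hg : Primary g) (og : Od g) (hc : SQ c) (hd : Primary d) :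
    chi c (3 * n₀) * F0 ν n₀ h g (c * d ^ 3) * conj (psi g (c * d ^ 3)) =
      ν (c * d ^ 3) * conj (psi (c * d ^ 3) (h * g)) := by
  have hm : Primary (c * d ^ 3) := hc.1.mul (hd.pow 3)
  have co : ∀ {a : O}, Primary a → IsCoprime (3 * n₀) a := fun ha =>
    (ha.isCoprime_three.mul_right (lp_cop h0 ha)).symm
  have e1 : chi (c * d ^ 3) (3 * n₀) = chi c (3 * n₀) := by
    rw [chi_mul_left hc.ne_zero (hd.pow 3).ne_zero, chi_pow_left, chi_cube hd.ne_zero,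
      cop_of (co hd), mul_one]
  have e2 : chi c (3 * n₀) * conj (chi c (3 * n₀)) = 1 := by
    rw [chi_mul_conj hc.ne_zero, cop_of (co hc.1)]
  rw [F0, e1]
  generalize c * d ^ 3 = m at hm
  by_cases ho : Od m
  · have e3 : conj (xi g m) = xi g m := by
      rcases A.gam.2.2.2.2.2.1 g m og ho with e | e <;> simp [e]
    rw [psi_mul, A.qr.2.2 m g hm hg ho og, A.gam.2.2.2.2.1 m g, map_mul, map_mul, e3]
    linear_combination ν m * conj (psi m h) * xi g m * conj (psi g m) * e2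
  · have : ν m = 0 := hν.zero m fun e =>
      ho (e.of_isCoprime_of_dvd_right ((Dvd.intro 18 (by norm_num)).trans hQ))
    simp [this]

lemma main (A : Alg) {T : O → O → ℂ} {c₀ C₀ : ℝ} {J : ℝ → ℝ → ℂ} (hT : Th T c₀ C₀ J)
    {Q g j n₀ D : O} (h : O) {ν : O → ℂ} (h0 : Lp n₀) (hQ : 36 ∣ Q) (hν : IsNu Q ν)
    (hg : Primary g) (hj : Primary j) (og : Od (g * j)) (hD : Primary D)
    {X : ℝ} (hX : 0 < X) (t : ℝ) :
    Lh T (fun n => FF ν n₀ h (g * j) n * (conj (psi g n) * ind D n * conj (psi j n)))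
      (X * N n₀) t =
      ang n₀ * T 0 n₀ * conj (psi (g * j) n₀) * ((N n₀ : ℝ) : ℂ) ^ ((t : ℂ) * Complex.I) *
        ∑' x : O × O, if SQ x.1 ∧ Primary x.2 ∧ D ∣ x.1 * x.2 ^ 3 then (ab x.2 : ℂ) * tau x.1 *
          Phi ν (h * g * j) (x.1 * x.2 ^ 3) * W X t (nr (x.1 * x.2 ^ 3)) else 0 := by
  have hn := lp_ne h0
  have hN := N_pos_real hn
  let e : {x : O × O // SQ x.1 ∧ Primary x.2} → O := fun x => n₀ * (x.1.1 * x.1.2 ^ 3)
  have he : Function.Injective e := fun x y hxy => by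
    obtain ⟨h1, h2⟩ := dec_unique x.2.1 x.2.2 y.2.1 y.2.2 (mul_left_cancel₀ hn hxy)
    exact Subtype.ext (Prod.ext h1 h2)
  rw [Lh, ← tsum_mul_left, ← he.tsum_eq,
    ← (Subtype.val_injective (p := fun x : O × O => SQ x.1 ∧ Primary x.2)).tsum_eq]
  · refine tsum_congr fun ⟨⟨c, d⟩, hc, hd⟩ => ?_
    have hm : Primary (c * d ^ 3) := hc.1.mul (hd.pow 3)
    have e1 := twist A (h := h) h0 hQ hν (hg.mul hj) og hc hd
    simp only [e]
    by_cases dv : D ∣ c * d ^ 3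
    · rw [psi_mul_left hg.ne_zero hj.ne_zero, map_mul (starRingEnd ℂ)] at e1
      rw [if_pos ⟨hc, hd, dv⟩, FF_mul ν hn, if_pos hm, hT.hk 0 n₀ c d h0 hc hd, ang_mul,
        psi_mul g n₀, psi_mul j n₀, ind, if_pos (dv.mul_left n₀),
        psi_mul_left hg.ne_zero hj.ne_zero,
        map_mul N n₀, Nat.cast_mul, W_mul (mul_pos hX hN) hN (N_pos_real hm.ne_zero),
        mul_div_cancel_right₀ X hN.ne', nr_eq hm.ne_zero, Phi, mul_assoc h g j,
        map_mul (starRingEnd ℂ), map_mul (starRingEnd ℂ), map_mul (starRingEnd ℂ)]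
      linear_combination ang n₀ * T 0 n₀ * conj (psi g n₀) * conj (psi j n₀) *
        ((N n₀ : ℝ) : ℂ) ^ ((t : ℂ) * Complex.I) * (ab d : ℂ) * tau c * ang (c * d ^ 3) *
          W X t (N (c * d ^ 3)) * e1
    · rw [if_neg fun e => dv e.2.2, ind,
        if_neg fun e => dv ((lp_cop h0 hD).dvd_of_dvd_mul_left e)]
      simp only [mul_zero, zero_mul]
  · intro x hx
    by_contra hc
    exact hx (by beta_reduce; rw [if_neg fun e => hc ⟨⟨x, e.1, e.2.1⟩, rfl⟩, mul_zero])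
  · intro x hx
    by_contra hc
    refine hx ?_
    by_cases h1 : n₀ ∣ x
    · obtain ⟨m, rfl⟩ := h1
      by_cases h2 : Primary m
      · have := hT.hz 0 n₀ m h0 h2 fun ⟨c, d, e1, e2, e3⟩ => hc ⟨⟨(c, d), e1, e2⟩, by rw [e3]⟩
        simp only [this, mul_zero, zero_mul]
      · simp only [FF_mul ν hn, if_neg h2, mul_zero, zero_mul]
    · simp only [FF, h1, false_and, if_false, mul_zero, zero_mul]

end Ins2P

theorem pIns2 (A : Alg) : S_Ins2 := by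
  intro T c₀ C₀ J hT
  obtain ⟨n₀, h0, hne⟩ := hT.th.nz
  have hn := lp_ne h0
  have hp : 0 < ‖T 0 n₀‖ ^ 2 := pow_pos (norm_pos_iff.2 hne) 2
  refine ⟨2 * n₀ ^ 2, N n₀, (‖T 0 n₀‖ ^ 2)⁻¹, mul_ne_zero two_ne_zero (pow_ne_zero 2 hn),
    N_pos_real hn, (inv_pos.2 hp).le,
    fun g hg => IsCoprime.mul_right hg.2 (lp_cop h0 hg.1.1).pow_right,
    fun Q ν h g j q0 hQ hν hd hg hj cg cj => ?_⟩
  have og : Od (g * j) :=
    (cg.mul_left cj).of_isCoprime_of_dvd_right ((Dvd.intro 18 (by norm_num)).trans hQ)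
  refine ⟨FF ν n₀ h (g * j), Ins2P.FF_per A hn q0 hQ hν hd og, fun n => ?_,
    fun S F X t hX hS => le_of_eq ?_⟩
  · unfold FF
    split_ifs
    · exact norm_F0 A hν _ _ og _
    · simp
  · have e : Li T (FF ν n₀ h (g * j)) g j S F (X * N n₀) t =
        ang n₀ * T 0 n₀ * conj (psi (g * j) n₀) * ((N n₀ : ℝ) : ℂ) ^ ((t : ℂ) * Complex.I) *
          Bd ν (h * g * j) S F X t := by
      rw [Li, Bd, mul_sum]
      refine sum_congr rfl fun D hD => ?_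
      rw [mul_right_comm X, Ins2P.main A hT.th h h0 hQ hν hg hj og (hS D hD)
        (mul_pos hX (N_pos_real (hS D hD).ne_zero)), mul_left_comm]
    rw [e, norm_mul, norm_mul, norm_mul, norm_mul, norm_ang hn,
      Complex.norm_conj, norm_psi (hg.mul hj).ne_zero (lp_cop h0 (hg.mul hj)).symm,
      norm_cpow_I (N_pos_real hn), one_mul, mul_one, mul_one, mul_pow, ← mul_assoc,
      inv_mul_cancel₀ hp.ne', one_mul]

end Pool.Agent.P.MP_323ce2_nt.QW
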