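import Pool.Agent.P.MP_26a8c3_nt.QG.Hec
import Pool.Agent.P.MP_26a8c3_nt.QT.Glue
import Pool.Agent.P.MP_26a8c3_nt.QO.Cnt

/-! The Hecke relation at the prime over three: the theta coefficients at powers of `lam`. -/

namespace Pool.Agent.P.MP_323ce2_nt.QW

open Pool.Agent.P.MP_26a8c3_nt Pool.Agent.P.MP_26a8c3_nt.QO Pool.Agent.P.MP_26a8c3_nt.QT
open Pool.Agent.P.MP_26a8c3_nt.QG (Nr adm B_pos nine_ne three_dvd_nine primary_congr cop9 sy Gs_eq)
open Finset
open scoped Classical ComplexConjugate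

namespace LamP

/-- splitting off the primary part of the modulus -/
theorem Gs_fac (A : Alg) {e c : O} (he : e ≠ 0) (hc : Primary c) (hce : IsCoprime e c) (m : O) :
    QT.Gs m (e * c) = QT.Gs m e * (chi c (9 * e ^ 2) * ft (chi c) c m) := by
  have h9 : (9 * e : O) ≠ 0 := mul_ne_zero nine_ne he
  have c0 := hc.ne_zero
  have hco : IsCoprime (9 * e) c := (cop9 hc).symm.mul_left hce
  have hP := (sy A).perG m (e * c)
  rw [← mul_assoc] at hP
  rw [Gs_eq, Gs_eq, mul_comm (chi c _), ← mul_assoc, QG.Gs, ← mul_assoc, sm_crt h9 c0 hco hP, QG.Gs,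
    ft, sm_mul_sm, ← sm_mul_right]
  refine sm_congr fun a => ?_
  rw [← sm_mul_right]
  refine sm_congr fun b => ?_
  have e3 : Primary (a * c + b * (9 * e)) ↔ Primary (c * a) := primary_congr ⟨b * 3 * e, by ring⟩
  rw [QG.primary_mul_iff hc] at e3
  by_cases ha : Primary a
  · have hd := e3.2 ha
    rw [if_pos hd, if_pos ha, chi_mul, A.r1 _ c hd hc,
      chi_congr (n := c) (x := a * c + b * (9 * e)) (y := b * (9 * e)) ⟨a, by ring⟩,
      A.r2 e _ (a * c) hd (ha.mul hc) ⟨b * e, by ring⟩ ⟨b * 9, by ring⟩,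
      chi_mul_left ha.ne_zero c0,
      show m * (a * c + b * (9 * e)) = m * a * c + m * b * (9 * e) by ring,
      el_frac _ _ h9 c0, show 9 * e ^ 2 = 9 * e * e by ring, chi_mul c b, chi_mul c (9 * e) e,
      mul_comm b m]
    ring
  · rw [if_neg ha, if_neg (mt e3.1 ha)]; simp

theorem Gs_one (m : O) : QT.Gs (9 * m) 1 = QT.Gs 0 1 := by
  refine sm_congr fun d => ?_
  rw [el_congr (x := 9 * m * d) (y := 0 * d) ⟨m * d, by ring⟩]

theorem Gs_one_ne (A : Alg) : QT.Gs 0 1 ≠ 0 := by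
  obtain ⟨r, hr, e⟩ := QG.Sy.base_one (X := chi) one_ne_zero fun d hd => (sy A).oner hd
  rw [Gs_eq, e]
  exact_mod_cast hr.ne'

theorem ft_cube (A : Alg) {c u : O} (hc : Primary c) (hu : IsCoprime u c) (m : O) :
    ft (chi c) c (u * m) = chi c (u ^ 2) * ft (chi c) c m := by
  rw [A.ft.2.2.2.1 c m u _ hc.ne_zero (isNu_chi hc.ne_zero) hu, conj_chi, chi_pow]

theorem chi_cb {c u : O} (hc : Primary c) (hu : IsCoprime u c) : chi c (u ^ 3) = 1 := by
  rw [chi_pow, chi_cube hc.ne_zero, cop_of hu]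

/-- the relation with the cusp one -/
theorem Gs_rel (A : Alg) {e c : O} (he : e ≠ 0) (hc : Primary c) (hce : IsCoprime e c) (m : O) :
    QT.Gs m (e * c) = QT.Gs m e / QT.Gs 0 1 * QT.Gs (27 * e * m) c := by
  have h3 := hc.isCoprime_three.symm
  have h := Gs_fac A one_ne_zero hc isCoprime_one_left (27 * e * m)
  rw [one_mul, show 27 * e * m = 9 * (3 * e * m) by ring, Gs_one,
    show 9 * (3 * e * m) = 3 ^ 3 * e * m by ring, ft_cube A hc (h3.pow_left.mul_left hce),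
    show ((3 : O) ^ 3 * e) ^ 2 = (3 ^ 2) ^ 3 * e ^ 2 by ring, chi_mul c ((3 ^ 2) ^ 3),
    chi_cb hc h3.pow_left] at h
  rw [Gs_fac A he hc hce, show 27 * e * m = 3 ^ 3 * e * m by ring, h, chi_mul c 9, chi_mul c 9,
    one_pow, (sy A).oner hc]
  have := Gs_one_ne A
  field_simp

theorem cop_lp {e c : O} (he : Lp e) (hc : Primary c) : IsCoprime e c := by
  obtain ⟨k, hk⟩ := he
  exact (hc.isCoprime_lam.symm.pow_left (m := k)).of_isCoprime_of_dvd_left hk

theorem lp_ne {e : O} (he : Lp e) : e ≠ 0 := by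
  obtain ⟨k, hk⟩ := he
  exact ne_zero_of_dvd_ne_zero (pow_ne_zero k lam_ne_zero) hk

theorem chi_lp (A : Alg) {e d d' : O} (he : Lp e) (hd : Primary d) (hd' : Primary d')
    (h : 9 ∣ d - d') : chi d e = chi d' e := by
  obtain ⟨u, k, hu, rfl⟩ := GlueP.lp_iff.1 he
  rw [chi_mul, chi_mul, chi_pow, chi_pow, A.r2 u d d' hd hd' h hu.dvd,
    A.r2 lam d d' hd hd' h ((lam_dvd_three.trans three_dvd_nine).trans h)]

theorem Gs_zero (A : Alg) {e m : O} (he : Lp e) (hm : ¬ e ∣ m) : QT.Gs m e = 0 := by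
  have hP : Per 9 fun d => if Primary d then chi d e else 0 := fun x y h => by
    have e3 := primary_congr (three_dvd_nine.trans h)
    by_cases hx : Primary x
    · simp only [if_pos hx, if_pos (e3.1 hx), chi_lp A he hx (e3.1 hx) h]
    · simp only [if_neg hx, if_neg (mt e3.2 hx)]
  rw [← ft_lift_not nine_ne (lp_ne he) hP hm]
  refine sm_congr fun d => ?_
  beta_reduce
  split_ifs
  · rw [mul_comm m d]
  · rw [zero_mul]

theorem lp_uniq {e e' c c' : O} (he : Lp e) (he' : Lp e') (hc : Primary c) (hc' : Primary c')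
    (h : e * c = e' * c') : e = e' := by
  have h1 : c ∣ c' := (cop_lp he' hc).symm.dvd_of_dvd_mul_left ⟨e, by rw [← h]; ring⟩
  have h2 : c' ∣ c := (cop_lp he hc').symm.dvd_of_dvd_mul_left ⟨e', by rw [h]; ring⟩
  obtain rfl := hc.eq_of_associated hc' (associated_of_dvd_dvd h1 h2)
  exact mul_right_cancel₀ hc.ne_zero h

/-- the moduli with a given part at `lam` -/
noncomputable def ge (x m e c : O) : ℂ := if ∃ a, Primary a ∧ c = e * a then gs x 1 m c else 0

/-- the local factor -/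
noncomputable def ka (x m e : O) : ℂ := if (3 : O) ∣ e - x then QT.Gs m e / QT.Gs 0 1 else 0

theorem adm' (A : Alg) (x q m : O) : QK.Adm Nr (gs x q m) := adm A (summable_N_inv_pow le_rfl) x q m

theorem adm_ge (A : Alg) (x m e : O) : QK.Adm Nr (ge x m e) :=
  (adm' A x 1 m).of_le 1 fun c => by
    rw [ge]
    split_ifs <;> simp

theorem ge_mul (A : Alg) {e : O} (he : Lp e) (x m c : O) :
    ge x m e (e * c) = ka x m e * gs 1 1 (27 * e * m) c := by
  have e0 := lp_ne he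
  by_cases hc : Primary c
  · have h3 : (3 : O) ∣ e * c - x ↔ (3 : O) ∣ e - x := by
      rw [mul_comm]; exact QG.cls_iff hc e x
    rw [ge, if_pos ⟨c, hc, rfl⟩, gs, gs, ka, if_pos (show c ≠ 0 ∧ _ from ⟨hc.ne_zero, hc, one_dvd c⟩)]
    by_cases h : (3 : O) ∣ e - x
    · rw [if_pos h, if_pos ⟨mul_ne_zero e0 hc.ne_zero, h3.2 h, one_dvd _⟩,
        Gs_rel A e0 hc (cop_lp he hc)]
      ring
    · rw [if_neg h, if_neg fun k => h (h3.1 k.2.1), zero_mul]
  · rw [ge, if_neg, gs, if_neg fun k => hc k.2.1, mul_zero]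
    rintro ⟨a, ha, k⟩
    exact hc (mul_left_cancel₀ e0 k ▸ ha)

variable {As : O → O → ℂ}

theorem lim_one (I : IsAs As) (x : O) {m : O} (hm : m ≠ 0) : QK.Lim Nr (gs x 1 m) 1 (As x m) :=
  QK.Lim.change (I.lim x m) (B_pos hm) one_pos

theorem lim_ge (A : Alg) (I : IsAs As) {e m : O} (he : Lp e) (hm : m ≠ 0) (x : O) :
    QK.Lim Nr (ge x m e) 1
      ((((N e : ℝ) ^ (-(4 / 3) : ℝ) : ℝ) : ℂ) * (ka x m e * As 1 (27 * e * m))) := by
  have e0 := lp_ne he
  have hi : Function.Injective fun c => e * c := fun _ _ k => mul_left_cancel₀ e0 k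
  have l1 := ((lim_one I 1 (mul_ne_zero (mul_ne_zero (by decide : (27 : O) ≠ 0) e0) hm)).const_mul
    (ka x m e)).scale (N_pos_real e0)
  refine (QK.lim_comp hi fun c hc => ?_).1 ?_
  · by_contra k
    refine hc (if_neg ?_)
    rintro ⟨a, -, rfl⟩
    exact k ⟨a, rfl⟩
  · simpa only [ge_mul A he, Nr, map_mul, Nat.cast_mul] using l1

theorem lim_sum {ι : Type*} (s : Finset ι) {g : ι → O → ℂ} {L : ι → ℂ}
    (h1 : ∀ i ∈ s, QK.Adm Nr (g i)) (h2 : ∀ i ∈ s, QK.Lim Nr (g i) 1 (L i)) :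
    QK.Adm Nr (fun c => ∑ i ∈ s, g i c) ∧ QK.Lim Nr (fun c => ∑ i ∈ s, g i c) 1 (∑ i ∈ s, L i) := by
  induction s using Finset.induction_on with
  | empty => exact ⟨⟨by simp, by simp⟩, by simpa using QK.Lim.zero⟩
  | insert a s ha ih =>
    obtain ⟨k1, k2⟩ := ih (fun i hi => h1 i (mem_insert_of_mem hi))
      fun i hi => h2 i (mem_insert_of_mem hi)
    simp only [sum_insert ha]
    exact ⟨(h1 a (mem_insert_self a s)).add k1,
      (h2 a (mem_insert_self a s)).add (h1 a (mem_insert_self a s)) k1 zero_le_one k2⟩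

/-- the parts at `lam` that occur -/
noncomputable def EE (m : O) : Finset O := (ball (N m)).filter Lp

theorem gs_sum (A : Alg) (x : O) {m : O} (hm : m ≠ 0) (c : O) :
    ∑ e ∈ EE m, ge x m e c = gs x 1 m c := by
  by_cases hc : c = 0
  · refine (sum_eq_zero fun e _ => ?_).trans (by simp [gs, hc])
    simp [ge, gs, hc]
  obtain ⟨u, k, a, hu, ha, rfl⟩ := exists_decomp hc
  have hl : Lp (u * lam ^ k) := GlueP.lp_iff.2 ⟨u, k, hu, rfl⟩
  rw [sum_eq_single (u * lam ^ k), ge, if_pos ⟨a, ha, rfl⟩]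
  · intro e he hne
    refine if_neg ?_
    rintro ⟨b, hb, k⟩
    exact hne (lp_uniq hl (mem_filter.1 he).2 ha hb k).symm
  · intro hn
    have : ¬ u * lam ^ k ∣ m := fun hd => hn (mem_filter.2
      ⟨mem_ball.2 (by exact_mod_cast N_le_of_dvd hd hm), hl⟩)
    rw [ge_mul A hl, ka, Gs_zero A hl this]
    simp

theorem As_eq (A : Alg) (I : IsAs As) (x : O) {m : O} (hm : m ≠ 0) : As x m =
    ∑ e ∈ EE m, (((N e : ℝ) ^ (-(4 / 3) : ℝ) : ℝ) : ℂ) * (ka x m e * As 1 (27 * e * m)) := by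
  have h := (lim_sum (EE m) (fun e _ => adm_ge A x m e)
    fun e he => lim_ge A I (mem_filter.1 he).2 hm x).2
  simp only [gs_sum A x hm] at h
  exact QK.Lim.unique (adm' A x 1 m) zero_le_one (lim_one I x hm) h

theorem As_cube (A : Alg) (I : IsAs As) {m : O} (hm : m ≠ 0) :
    As 1 (9 * (lam ^ 3 * m)) = As 1 (9 * m) := by
  have e : gs 1 1 (9 * (lam ^ 3 * m)) = gs 1 1 (9 * m) := by
    ext c
    rw [gs, gs]
    split_ifs with h
    · have hc : Primary c := h.2.1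
      have k1 := Gs_fac A one_ne_zero hc isCoprime_one_left (9 * (lam ^ 3 * m))
      have k2 := Gs_fac A one_ne_zero hc isCoprime_one_left (9 * m)
      rw [one_mul, Gs_one] at k1 k2
      rw [k1, k2, mul_left_comm (9 : O), ft_cube A hc hc.isCoprime_lam.symm.pow_left, ← pow_mul,
        mul_comm 3 2, pow_mul, chi_cb hc hc.isCoprime_lam.symm.pow_left, one_mul]
    · rfl
  have l := lim_one I 1 (mul_ne_zero nine_ne (mul_ne_zero (pow_ne_zero 3 lam_ne_zero) hm))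
  rw [e] at l
  exact QK.Lim.unique (adm' A 1 1 _) zero_le_one l (lim_one I 1 (mul_ne_zero nine_ne hm))

theorem As_one (A : Alg) (I : IsAs As) : ∃ C : ℝ, 0 ≤ C ∧ ∀ m, Lp m → ‖As 1 (9 * m)‖ ≤ C := by
  refine ⟨∑ u ∈ units6, ∑ j ∈ range 3, ‖As 1 (9 * (u * lam ^ j))‖, by positivity, fun m hm => ?_⟩
  obtain ⟨u, k, hu, rfl⟩ := GlueP.lp_iff.1 hm
  induction k using Nat.strong_induction_on with
  | _ k ih =>
    by_cases hk : k < 3
    · refine le_trans ?_ (single_le_sum (f := fun u => ∑ j ∈ range 3, ‖As 1 (9 * (u * lam ^ j))‖)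
        (fun _ _ => by positivity) (mem_units6.2 hu))
      exact single_le_sum (f := fun j => ‖As 1 (9 * (u * lam ^ j))‖) (fun _ _ => norm_nonneg _)
        (mem_range.2 hk)
    · obtain ⟨j, rfl⟩ : ∃ j, k = j + 3 := ⟨k - 3, by omega⟩
      have hl : Lp (u * lam ^ j) := GlueP.lp_iff.2 ⟨u, j, hu, rfl⟩
      rw [show u * lam ^ (j + 3) = lam ^ 3 * (u * lam ^ j) by ring, As_cube A I (lp_ne hl)]
      exact ih j (by omega) hl

theorem lp_mul {a b : O} (ha : Lp a) (hb : Lp b) : Lp (a * b) := by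
  obtain ⟨k, hk⟩ := ha
  obtain ⟨l, hl⟩ := hb
  exact ⟨k + l, pow_add lam k l ▸ mul_dvd_mul hk hl⟩

theorem lp_three : Lp 3 := ⟨2, by rw [lam_sq]; simp⟩

/-- sums of negative powers of the norm over the divisors of powers of `lam` -/
theorem sum_lp {σ : ℝ} (hσ : 0 < σ) : ∃ C : ℝ, 0 ≤ C ∧ ∀ s : Finset O, (∀ e ∈ s, Lp e) →
    ∑ e ∈ s, (N e : ℝ) ^ (-σ) ≤ C := by
  have h1 : (3 : ℝ) ^ (-σ) < 1 := Real.rpow_lt_one_of_one_lt_of_neg (by norm_num) (by linarith)
  have h0 : 0 ≤ (3 : ℝ) ^ (-σ) := by positivity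
  refine ⟨6 * (1 - (3 : ℝ) ^ (-σ))⁻¹, by have := sub_pos.2 h1; positivity, fun s hs => ?_⟩
  choose! u k hu using fun e (he : Lp e) => GlueP.lp_iff.1 he
  obtain ⟨K, hK⟩ : ∃ K, ∀ e ∈ s, k e < K := ⟨s.sup k + 1, fun e he => Nat.lt_succ_of_le (le_sup he)⟩
  have hsub : s ⊆ (units6 ×ˢ range K).image fun y => y.1 * lam ^ y.2 := fun e he =>
    mem_image.2 ⟨(u e, k e), mem_product.2 ⟨mem_units6.2 (hu e (hs e he)).1, mem_range.2 (hK e he)⟩,
      (hu e (hs e he)).2.symm⟩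
  refine (sum_le_sum_of_subset_of_nonneg hsub fun _ _ _ => by positivity).trans
    ((sum_image_le_of_nonneg fun _ _ => by positivity).trans ?_)
  rw [sum_product]
  refine (sum_le_card_nsmul _ _ ((1 - (3 : ℝ) ^ (-σ))⁻¹) fun v hv => ?_).trans
    (by rw [card_units6]; simp)
  refine le_trans (le_of_eq (sum_congr rfl fun j _ => ?_))
    (sum_le_hasSum (range K) (fun _ _ => by positivity) (hasSum_geometric_of_lt_one h0 h1))
  rw [map_mul, isUnit_iff_N.1 (mem_units6.1 hv), one_mul, map_pow, N_lam, Nat.cast_pow,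
    ← Real.rpow_natCast, ← Real.rpow_natCast, ← Real.rpow_mul (by norm_num),
    ← Real.rpow_mul (by norm_num), mul_comm]
  norm_num

end LamP

open LamP in
/-- the limit coefficients are bounded on the divisors of powers of `lam` -/
theorem As_le (A : Alg) {As : O → O → ℂ} (I : IsAs As) :
    ∃ C : ℝ, 0 ≤ C ∧ ∀ x n, Lp n → ‖As x n‖ ≤ C := by
  obtain ⟨C, hC, h⟩ := As_one A I
  obtain ⟨D, hD, hs⟩ := sum_lp (σ := 1 / 3) (by norm_num)
  refine ⟨81 / ‖QT.Gs 0 1‖ * C * D, by positivity, fun x n hn => ?_⟩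
  rw [As_eq A I x (lp_ne hn)]
  refine (norm_sum_le _ _).trans (le_trans ?_ (mul_le_mul_of_nonneg_left
    (hs (EE n) fun e he => (mem_filter.1 he).2) (by positivity)))
  rw [mul_sum]
  refine sum_le_sum fun e he => ?_
  have hl := (mem_filter.1 he).2
  have e0 := N_pos_real (lp_ne hl)
  have h1 : ‖ka x n e‖ ≤ 81 / ‖QT.Gs 0 1‖ * N e := by
    rw [ka]
    split_ifs
    · rw [norm_div, div_mul_eq_mul_div, Gs_eq n e]
      gcongr
      exact (sy A).norm_Gs n (lp_ne hl)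
    · rw [norm_zero]; positivity
  have h2 := h _ (lp_mul (lp_mul lp_three hl) hn)
  rw [show 9 * (3 * e * n) = 27 * e * n by ring] at h2
  rw [norm_mul, norm_mul, Complex.norm_real, Real.norm_of_nonneg (by positivity)]
  calc _ ≤ (N e : ℝ) ^ (-(4 / 3) : ℝ) * (81 / ‖QT.Gs 0 1‖ * N e * C) := by gcongr
    _ = 81 / ‖QT.Gs 0 1‖ * C * ((N e : ℝ) ^ (-(4 / 3) : ℝ) * N e) := by ring
    _ = _ := by rw [← Real.rpow_add_one e0.ne']; norm_num

/-- the theta coefficients at the divisors of powers of `lam` -/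
theorem ta_lam (A : Alg) {As : O → O → ℂ} (I : IsAs As) :
    ∃ C : ℝ, 0 ≤ C ∧ ∀ x n, Lp n → ‖ta As x n‖ ≤ C * ab n ^ (1 / 3 : ℝ) := by
  obtain ⟨C, hC, h⟩ := As_le A I
  refine ⟨C, hC, fun x n hn => ?_⟩
  have := Real.rpow_nonneg (ab_nonneg n) (1 / 3 : ℝ)
  rw [ta, norm_mul, Complex.norm_real, Real.norm_of_nonneg this]
  gcongr
  exact h x n hn

end Pool.Agent.P.MP_323ce2_nt.QW
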