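import Pool.Agent.P.MP_323ce2_nt.QW.St
import Pool.Agent.P.MP_323ce2_nt.QW.Lam0

/-! The theta coefficients at the powers of `lam` are bounded after normalisation. -/

namespace Pool.Agent.P.MP_323ce2_nt.QW

open Pool.Agent.P.MP_26a8c3_nt.QO

theorem pLam (A : Alg) : S_Lam := fun _ I =>
  (As_le A I).imp fun _ h => h.2

end Pool.Agent.P.MP_323ce2_nt.QW
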