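import Pool.Agent.P.MP_323ce2_nt.QW.St
import Pool.Agent.P.MP_26a8c3_nt.QV.Sep
import Pool.Agent.P.MP_26a8c3_nt.QO.Div

/-! From Ramanujan sums to divisibility conditions. -/

namespace Pool.Agent.P.MP_323ce2_nt.QW

open Finset Pool.Agent.P.MP_26a8c3_nt Pool.Agent.P.MP_26a8c3_nt.QO Pool.Agent.P.MP_26a8c3_nt.QA
open Pool.Agent.P.MP_26a8c3_nt.QV
open scoped Classical ComplexConjugate

namespace LevP

/-- pairs of a level and a divisor, listed by the complementary divisor -/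
lemma reidx {M : Type*} [AddCommMonoid M] (S : Finset O) (P : ℝ)
    (hS : ∀ D ∈ S, SQ D ∧ (N D : ℝ) ≤ P) (f : O → O → M) :
    ∑ D ∈ S, ∑ d ∈ pdiv D, f D d =
      ∑ e ∈ (ball P).filter SQ, ∑ d ∈ (ball P).filter (fun d => e * d ∈ S), f (e * d) d := by
  rw [sum_sigma', sum_sigma']
  have hle : ∀ a b : O, a * b ∈ S → (N a : ℝ) ≤ P := fun a b h =>
    le_trans (by exact_mod_cast N_le_of_dvd (dvd_mul_right a b) (hS _ h).1.ne_zero) (hS _ h).2
  refine sum_nbij' (fun x => ⟨quo x.1 x.2, x.2⟩) (fun x => ⟨x.1 * x.2, x.2⟩) ?_ ?_ ?_ ?_ ?_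
  · rintro ⟨D, d⟩ h
    obtain ⟨h1, h2⟩ := mem_sigma.1 h
    obtain ⟨h3, h4⟩ := (mem_pdiv (hS D h1).1.ne_zero).1 h2
    have e : d * quo D d = D := QO.mul_quo h4
    have e' : quo D d * d = D := by rw [mul_comm, e]
    refine mem_sigma.2 ⟨mem_filter.2 ⟨QO.mem_ball.2 (hle _ d (by rwa [e'])), ?_⟩,
      mem_filter.2 ⟨QO.mem_ball.2 (hle _ (quo D d) (by rwa [e])), by rwa [e']⟩⟩
    exact SQ.right (a := d) (by rw [e]; exact (hS D h1).1) h3
  · rintro ⟨e, d⟩ h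
    obtain ⟨h1, h2⟩ := mem_sigma.1 h
    have h3 := (mem_filter.1 h2).2
    have h4 := (mem_filter.1 h1).2
    exact mem_sigma.2 ⟨h3, (mem_pdiv (hS _ h3).1.ne_zero).2
      ⟨((hS _ h3).1.right h4.1).1, dvd_mul_left d e⟩⟩
  · rintro ⟨D, d⟩ h
    obtain ⟨h1, h2⟩ := mem_sigma.1 h
    have e : quo D d * d = D := by
      rw [mul_comm, QO.mul_quo ((mem_pdiv (hS D h1).1.ne_zero).1 h2).2]
    simp only [e]
  · rintro ⟨e, d⟩ h
    obtain ⟨h1, h2⟩ := mem_sigma.1 h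
    have h3 := (mem_filter.1 h2).2
    have h5 : d ≠ 0 := right_ne_zero_of_mul (hS _ h3).1.ne_zero
    have e' : quo (e * d) d = e := by rw [mul_comm, quo_mul h5]
    simp only [e']
  · rintro ⟨D, d⟩ h
    obtain ⟨h1, h2⟩ := mem_sigma.1 h
    have e : quo D d * d = D := by
      rw [mul_comm, QO.mul_quo ((mem_pdiv (hS D h1).1.ne_zero).1 h2).2]
    simp only [e]

lemma cop_mul (g a b : O) : cop g (a * b) = cop g a * cop g b := (isNu_cop g).mul a b

/-- a level which meets the modulus contributes nothing -/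
lemma zero_of {g D n : O} (hg : g ≠ 0) (h : ¬IsCoprime D g) : conj (psi g n) * ind D n = 0 := by
  unfold ind
  split_ifs with hd
  · rw [(psi_eq_zero hg).2 fun c => h (c.of_isCoprime_of_dvd_left hd)]
    simp
  · simp

lemma ZZ_div {H X P u : ℝ} (hX : 0 < X) (hP : 0 ≤ P) (hu : 1 ≤ u) :
    ZZ H (X * u) (P / u) ≤ ZZ H X P := by
  unfold ZZ
  have h1 : P / u ≤ P := div_le_self hP hu
  have h2 : X ≤ X * u := le_mul_of_one_le_right hX.le hu
  gcongr

lemma BB_div {H X P u : ℝ} (hH : 0 ≤ H) (hX : 0 < X) (hP : 0 ≤ P) (hu : 1 ≤ u) :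
    BB H (X * u) (P / u) ≤ BB H X P := by
  unfold BB
  have h1 : P / u ≤ P := div_le_self hP hu
  have h2 : X ≤ X * u := le_mul_of_one_le_right hX.le hu
  have h0 : 0 < u := by linarith
  have h3 : P / u * (H * (X * u)) ^ (1 / 3 : ℝ) ≤ P * (H * X) ^ (1 / 3 : ℝ) := by
    rw [← mul_assoc, Real.mul_rpow (by positivity) h0.le]
    have h4 : u ^ (1 / 3 : ℝ) ≤ u := by
      simpa using Real.rpow_le_rpow_of_exponent_le hu (show (1 / 3 : ℝ) ≤ 1 by norm_num)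
    calc P / u * ((H * X) ^ (1 / 3 : ℝ) * u ^ (1 / 3 : ℝ))
        ≤ P / u * ((H * X) ^ (1 / 3 : ℝ) * u) := by gcongr
      _ = _ := by field_simp
  have h5 : 0 < √X := Real.sqrt_pos.2 hX
  have h6 : 0 ≤ P / u := by positivity
  gcongr

lemma RH_div' {C e H X P u t : ℝ} (hC : 0 ≤ C) (he : 0 ≤ e) (hH : 0 ≤ H) (hX : 0 < X) (hP : 0 ≤ P)
    (hu : 1 ≤ u) : RH C e H (X * u) (P / u) t ≤ u * RH C e H X P t := by
  have h0 : 0 < u := by linarith
  have h1 := ZZ_div (H := H) hX hP hu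
  have h2 := BB_div hH hX hP hu
  have h3 : 0 ≤ ZZ H (X * u) (P / u) := by unfold ZZ; positivity
  have h4 : 0 ≤ BB H (X * u) (P / u) := by unfold BB; positivity
  have h5 : 0 < ZZ H X P := by unfold ZZ; positivity
  unfold RH
  calc _ ≤ C * (1 + |t|) ^ 16 * ZZ H X P ^ e * (X * u) * BB H X P := by gcongr
    _ = _ := by ring

/-- the expansion of one term -/
lemma expand (hS : S_Sum) (hR : S_Ram) {T c₀ C₀ J} (hT : Th2 T c₀ C₀ J) {Φ : O → ℂ}
    (hΦ : ∀ n, ‖Φ n‖ ≤ 1) (g j : O) {D : O} (hD : SQ D) {X : ℝ} (hX : 0 < X) (t : ℝ) :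
    Lh T (fun n => Φ n * (conj (psi g n) * ind D n * conj (psi j n))) X t =
      ∑ d ∈ pdiv D, (N D : ℂ)⁻¹ *
        Lh T (fun n => Φ n * (conj (psi g n) * cR d n * conj (psi j n))) X t := by
  have h0 : (N D : ℂ) ≠ 0 := by exact_mod_cast (N_pos hD.ne_zero).ne'
  rw [← mul_sum, eq_inv_mul_iff_mul_eq₀ h0]
  unfold Lh
  rw [← tsum_mul_left, ← Summable.tsum_finsetSum]
  · refine tsum_congr fun n => ?_
    have e := hR.2 D n hD
    simp only [← mul_sum, ← sum_mul, ← e]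
    ring
  · intro d hd
    have hd0 := ((mem_pdiv hD.ne_zero).1 hd).1.ne_zero
    refine hS.1 T c₀ C₀ J hT.th _ (N d) X t (fun n => ?_) hX
    rw [norm_mul, norm_mul, norm_mul, Complex.norm_conj, Complex.norm_conj]
    calc _ ≤ 1 * (1 * (N d : ℝ) * 1) := by
          gcongr
          exacts [hΦ n, norm_psi_le _ _, hR.1 d n hd0, norm_psi_le _ _]
      _ = _ := by ring

/-- the identity -/
lemma ident (hS : S_Sum) (hR : S_Ram) {T c₀ C₀ J} (hT : Th2 T c₀ C₀ J) {Φ : O → ℂ}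
    (hΦ : ∀ n, ‖Φ n‖ ≤ 1) {g k j : O} (hg : g ≠ 0) (hj : j ≠ 0) (hk : k ∣ j) {S : Finset O} {P : ℝ}
    (h : ∀ D ∈ S, SQ D ∧ (N D : ℝ) ≤ P) (F : O → ℂ) {X : ℝ} (hX : 0 < X) (t : ℝ) :
    Li T Φ g j S F X t = ∑ e ∈ (ball P).filter SQ, cop g e * (N e : ℂ)⁻¹ *
      Lc T Φ g j ((ball P).filter fun d => e * d ∈ S.filter (IsCoprime · k)) (fun d => F (e * d))
        (X * N e) t := by
  have h' : ∀ D ∈ S.filter (IsCoprime · k), SQ D ∧ (N D : ℝ) ≤ P := fun D hD =>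
    h D (mem_filter.1 hD).1
  have e1 : Li T Φ g j S F X t = ∑ D ∈ S.filter (IsCoprime · k), ∑ d ∈ pdiv D,
      cop g D * F D * ((N D : ℂ)⁻¹ *
        Lh T (fun n => Φ n * (conj (psi g n) * cR d n * conj (psi j n))) (X * N D) t) := by
    rw [Li, sum_filter]
    refine sum_congr rfl fun D hD => ?_
    have hXD : 0 < X * N D := mul_pos hX (N_pos_real (h D hD).1.ne_zero)
    split_ifs with hc
    · rw [← mul_sum, ← expand hS hR hT hΦ g j (h D hD).1 hXD t]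
      by_cases hg' : IsCoprime D g
      · rw [cop_of hg', one_mul]
      · simp only [cop_of_not hg', zero_of hg hg', Lh, mul_zero, zero_mul, tsum_zero]
    · have hz : ∀ n, conj (psi g n) * ind D n * conj (psi j n) = 0 := fun n => by
        rw [mul_assoc, mul_comm (ind D n),
          zero_of hj fun c => hc (c.of_isCoprime_of_dvd_right hk), mul_zero]
      simp only [hz, Lh, mul_zero, zero_mul, tsum_zero]
  rw [e1, reidx _ P h']
  refine sum_congr rfl fun e _ => ?_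
  rw [Lc, mul_sum]
  refine sum_congr rfl fun d _ => ?_
  rw [cop_mul, map_mul, Nat.cast_mul, Nat.cast_mul, mul_inv, ← mul_assoc X]
  ring

end LevP

open LevP

theorem pLev (hS : S_Sum) (hH : S_Har) (hR : S_Ram) (hE : S_Exp2) : S_Lev := by
  intro T c₀ C₀ J hT q hq ε hε
  have hε3 : 0 < ε / 3 := by positivity
  obtain ⟨C1, hC1, H1⟩ := hE T c₀ C₀ J hT q hq (ε / 3) hε3
  obtain ⟨C2, hC2, H2, -⟩ := hH (ε / 3) hε3
  obtain ⟨C3, hC3, H3⟩ := dv_le hε3
  refine ⟨C2 * C3 * C1, by positivity, ?_⟩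
  intro k j G H P X t s S F Φ hkj hkq hG hGH hP hX hs hSS hΦ
  have hj : j ≠ 0 := hkj.2.1.ne_zero
  have hk0 : k ≠ 0 := hkj.1.1.ne_zero
  have hNk : (0 : ℝ) < N k := N_pos_real hk0
  have hk : k ∣ j := (dvd_pow_self k two_ne_zero).trans hkj.2.2.1
  have hH0 : 0 ≤ H := le_trans (by positivity) hGH
  have hP0 : 0 ≤ P := by linarith
  have h : ∀ D ∈ S, SQ D ∧ (N D : ℝ) ≤ P := fun D hD => ⟨(hSS D hD).1.1.1, (hSS D hD).1.2.2⟩
  have h' : ∀ D ∈ S.filter (IsCoprime · k), SQ D ∧ (N D : ℝ) ≤ P := fun D hD =>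
    h D (mem_filter.1 hD).1
  set E := (ball P).filter SQ with hEdef
  set Se : O → Finset O := fun e => (ball P).filter fun d => e * d ∈ S.filter (IsCoprime · k)
    with hSe
  have hE1 : ∀ e ∈ E, (1 : ℝ) ≤ N e := fun e he => one_le_N (mem_filter.1 he).2.ne_zero
  have hZ1 : 1 + P ≤ ZZ H X P := by
    unfold ZZ
    have : 0 ≤ H ^ 2 * P / X := by positivity
    linarith
  have hZ0 : 0 < ZZ H X P := by linarith
  have hR0 : 0 ≤ RH C1 (ε / 3) H X P t := by unfold RH BB; positivity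
  have har : ∑ e ∈ E, (N e : ℝ)⁻¹ ≤ C2 * ZZ H X P ^ (ε / 3) :=
    calc _ ≤ ∑ e ∈ ball P, (N e : ℝ)⁻¹ :=
          sum_le_sum_of_subset_of_nonneg (filter_subset _ _) fun _ _ _ => by positivity
      _ ≤ C2 * (1 + P) ^ (ε / 3) := H2 P hP0
      _ ≤ _ := by gcongr
  have one : ∀ g ∈ s, ‖Li T (Φ g) g j S F X t‖ ^ 2 ≤ (∑ e ∈ E, (N e : ℝ)⁻¹) *
      ∑ e ∈ E, (N e : ℝ)⁻¹ * ‖Lc T (Φ g) g j (Se e) (fun d => F (e * d)) (X * N e) t‖ ^ 2 := by
    intro g hg
    rw [ident hS hR hT (hΦ g).2 (hs g hg).1.1.1.ne_zero hj hk h F hX t]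
    refine (wcs E _ (fun e => (N e : ℝ)⁻¹) fun e he => by
      have := hE1 e he
      positivity).trans ?_
    gcongr with e he
    have h1 := hE1 e he
    have h2 : ‖cop g e‖ ≤ 1 := (isNu_cop g).le e
    rw [norm_mul, norm_mul, norm_inv, Complex.norm_natCast, div_le_iff₀ (by positivity)]
    calc _ ≤ (1 * (N e : ℝ)⁻¹ * ‖Lc T (Φ g) g j (Se e) (fun d => F (e * d)) (X * N e) t‖) ^ 2 := by
          gcongr
      _ = _ := by ring
  have two : ∀ e ∈ E, (N e : ℝ)⁻¹ *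
      ∑ g ∈ s, ‖Lc T (Φ g) g j (Se e) (fun d => F (e * d)) (X * N e) t‖ ^ 2 ≤
      RH C1 (ε / 3) H X P t / N k * n2 (Se e) fun d => F (e * d) := by
    intro e he
    have h1 := hE1 e he
    have h0 : (0 : ℝ) < N e := by linarith
    have hep := (mem_filter.1 he).2
    have h2 : (N e : ℝ) ≤ P := QO.mem_ball.1 (mem_filter.1 he).1
    have h3 := H1 k j G H (P / N e) (X * N e) t s (Se e) (fun d => F (e * d)) Φ hkj hkq hG hGH
      ((one_le_div h0).2 h2) (by positivity) hs (fun d hd => ?_) hΦ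
    · have h4 := RH_div' (t := t) hC1 hε3.le hH0 hX hP0 h1
      have h5 : 0 ≤ n2 (Se e) fun d => F (e * d) := sum_nonneg fun _ _ => by positivity
      calc _ ≤ (N e : ℝ)⁻¹ * (N e * RH C1 (ε / 3) H X P t * (n2 (Se e) fun d => F (e * d)) / N k) := by
            gcongr
            exact h3.trans (by gcongr)
        _ = _ := by field_simp
    · obtain ⟨h6, h7⟩ := mem_filter.1 (mem_filter.1 hd).2
      obtain ⟨⟨⟨a1, a2⟩, a3, a4⟩, a5⟩ := hSS _ h6
      rw [map_mul, Nat.cast_mul] at a3 a4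
      refine ⟨⟨⟨a1.right hep.1, (od_mul.1 a2).2⟩, ?_, ?_⟩,
        a5.of_mul_left_right.mul_right h7.of_mul_left_right⟩
      · rw [div_le_iff₀ h0]
        linarith
      · rw [le_div_iff₀ h0]
        linarith
  have three : ∑ e ∈ E, (n2 (Se e) fun d => F (e * d)) ≤ C3 * ZZ H X P ^ (ε / 3) * n2 S F := by
    have e1 := reidx (S.filter (IsCoprime · k)) P h' fun D _ => ‖F D‖ ^ 2
    unfold n2
    rw [← e1, mul_sum]
    refine le_trans (sum_le_sum fun D hD => ?_)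
      (sum_le_sum_of_subset_of_nonneg (filter_subset _ _) fun _ _ _ => by positivity)
    rw [sum_const, nsmul_eq_mul]
    have h1 := H3 D (h' D hD).1.ne_zero
    have h2 : (N D : ℝ) ≤ ZZ H X P := by linarith [(h' D hD).2]
    gcongr
    exact h1.trans (by gcongr)
  have hn : 0 ≤ n2 S F := sum_nonneg fun _ _ => by positivity
  have hz : ZZ H X P ^ ε = ZZ H X P ^ (ε / 3) * ZZ H X P ^ (ε / 3) * ZZ H X P ^ (ε / 3) := by
    rw [← Real.rpow_add hZ0, ← Real.rpow_add hZ0]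
    congr 1
    ring
  calc _ ≤ _ := sum_le_sum one
    _ = (∑ e ∈ E, (N e : ℝ)⁻¹) * ∑ e ∈ E, (N e : ℝ)⁻¹ *
        ∑ g ∈ s, ‖Lc T (Φ g) g j (Se e) (fun d => F (e * d)) (X * N e) t‖ ^ 2 := by
      rw [← mul_sum, sum_comm]
      simp only [mul_sum]
    _ ≤ (C2 * ZZ H X P ^ (ε / 3)) *
        ∑ e ∈ E, RH C1 (ε / 3) H X P t / N k * n2 (Se e) fun d => F (e * d) := by
      refine mul_le_mul har (sum_le_sum two) (sum_nonneg fun _ _ => ?_) (by positivity)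
      exact mul_nonneg (by positivity) (sum_nonneg fun _ _ => by positivity)
    _ ≤ (C2 * ZZ H X P ^ (ε / 3)) *
        (RH C1 (ε / 3) H X P t / N k * (C3 * ZZ H X P ^ (ε / 3) * n2 S F)) := by
      rw [← mul_sum]
      gcongr
    _ = _ := by
      unfold RH
      rw [hz]
      ring

end Pool.Agent.P.MP_323ce2_nt.QW
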