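import Pool.Agent.P.MP_323ce2_nt.QW.St
import Pool.Agent.P.MP_26a8c3_nt.QO.Div

/-! Ramanujan sums and the indicator of divisibility. -/

namespace Pool.Agent.P.MP_323ce2_nt.QW

open Finset Pool.Agent.P.MP_26a8c3_nt Pool.Agent.P.MP_26a8c3_nt.QO Pool.Agent.P.MP_26a8c3_nt.QA
open Pool.Agent.P.MP_26a8c3_nt.QV
open scoped Classical ComplexConjugate

namespace RamP

lemma cR_one (n : O) : cR 1 n = 1 := by
  rw [cR, ft, sm_congr (H := fun _ => 1) fun x => by
    rw [cop_of isCoprime_one_right, el_one, one_mul], sm_const one_ne_zero]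
  simp

lemma cR_mul (A : Alg) {a b : O} (ha : a ≠ 0) (hb : b ≠ 0) (h : IsCoprime a b) (n : O) :
    cR (a * b) n = cR a n * cR b n := by
  have e : cop (a * b) = fun x => cop a x * cop b x := funext fun x => by
    simp only [cop, IsCoprime.mul_right_iff]
    by_cases h1 : IsCoprime x a <;> by_cases h2 : IsCoprime x b <;> simp [h1, h2]
  rw [cR, e, A.ft.1 a b n _ _ ha hb h (isNu_cop a).per (isNu_cop b).per]
  simp only [(isNu_cop _).mul, cop_of h, cop_of h.symm, one_mul, cR]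

end RamP

open RamP in
theorem pRam (A : Alg) : S_Ram := by
  refine ⟨fun d n hd => by simpa [cR] using norm_ft_le hd (isNu_cop d).le n, fun D n hD => ?_⟩
  refine primary_ind (P := fun D => SQ D → (N D : ℂ) * ind D n = ∑ d ∈ pdiv D, cR d n)
    (fun _ => by simp [pdiv_one, cR_one, ind]) (fun p a hp h1 ha ih hs => ?_) hD.1 hD
  have hc := hs.coprime
  have e : ∑ d ∈ pdiv a, cR (p * d) n = cR p n * ∑ d ∈ pdiv a, cR d n := by
    rw [mul_sum]
    refine sum_congr rfl fun d hd => ?_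
    obtain ⟨d1, d2⟩ := (mem_pdiv ha.ne_zero).1 hd
    exact cR_mul A hp.ne_zero d1.ne_zero (hc.of_isCoprime_of_dvd_right d2) n
  have e2 : cR p n = (if p ∣ n then (N p : ℂ) else 0) - 1 := A.ft.2.2.2.2.1 p n hp
  rw [sum_pdiv_prime_mul hp h1 ha.ne_zero (hp.coprime_iff_not_dvd.1 hc), e, ← ih (hs.right h1), e2,
    map_mul]
  by_cases h2 : p ∣ n <;> by_cases h3 : a ∣ n
  · simp only [ind, if_pos h2, if_pos h3, if_pos (hc.mul_dvd h2 h3)]
    push_cast
    ring
  · simp [ind, h3, mt (dvd_of_mul_left_dvd (a := p) (b := a) (c := n)) h3]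
  · simp [ind, h2, h3, mt (dvd_of_mul_right_dvd (a := p) (b := a) (c := n)) h2]
  · simp [ind, h3, mt (dvd_of_mul_left_dvd (a := p) (b := a) (c := n)) h3]

end Pool.Agent.P.MP_323ce2_nt.QW
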