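import Pool.Agent.P.MP_323ce2_nt.QW.St
import Pool.Agent.P.MP_26a8c3_nt.QB.Bas
import Pool.Agent.P.MP_26a8c3_nt.QO.Div

/-! Reduction to sixth power free moduli. -/

namespace Pool.Agent.P.MP_323ce2_nt.QW

open Finset Pool.Agent.P.MP_26a8c3_nt Pool.Agent.P.MP_26a8c3_nt.QO Pool.Agent.P.MP_26a8c3_nt.QA
open Pool.Agent.P.MP_26a8c3_nt.QV
open scoped Classical ComplexConjugate

namespace Red6P

/-- one term -/
noncomputable def tm (ν : O → ℂ) (h D : O) (Y t : ℝ) (x : O × O) : ℂ :=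
  if SQ x.1 ∧ Primary x.2 ∧ D ∣ x.1 * x.2 ^ 3 then
    (ab x.2 : ℂ) * tau x.1 * Phi ν h (x.1 * x.2 ^ 3) * W Y t (nr (x.1 * x.2 ^ 3)) else 0

lemma one_le_ab {c : O} (h : c ≠ 0) : 1 ≤ ab c := by
  rw [ab_eq]; exact Real.one_le_sqrt.2 (one_le_N h)

lemma norm_tau_le {c : O} (h : c ≠ 0) : ‖tau c‖ ≤ N c := by
  have := norm_ft_le h (norm_chi_le c) 1
  rw [tau, norm_div, Complex.norm_conj, Complex.norm_real, Real.norm_of_nonneg (ab_nonneg c)]
  exact (div_le_self (norm_nonneg _) (one_le_ab h)).trans (by simpa using this)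

lemma summ {Q : O} {ν : O → ℂ} (hν : IsNu Q ν) (h D : O) {Y : ℝ} (hY : 0 < Y) (t : ℝ) :
    Summable (tm ν h D Y t) := by
  have s2 := QB.summable_N' (t := 2) one_lt_two
  refine Summable.of_norm_bounded ((s2.mul_of_nonneg s2 (fun c => by positivity)
    fun c => by positivity).mul_left (Real.exp (3 ^ 2 / 4) * Y ^ (3 : ℝ))) fun x => ?_
  unfold tm
  split_ifs with hx
  · have c0 := hx.1.ne_zero
    have d0 := hx.2.1.ne_zero
    have c1 := one_le_N c0
    have d1 := one_le_N d0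
    have w := norm_W_le hY (nr_pos (x.1 * x.2 ^ 3)) t 3
    have a : ab x.2 ≤ N x.2 := by
      have := one_le_ab d0
      rw [← ab_sq]; nlinarith
    have p := QB.norm_Phi_le hν h (x.1 * x.2 ^ 3)
    have b := norm_tau_le c0
    have e : nr (x.1 * x.2 ^ 3) ^ (-(3 : ℝ)) = (((N x.1 : ℝ) * (N x.2 : ℝ) ^ 3) ^ 3)⁻¹ := by
      rw [nr_eq (mul_ne_zero c0 (pow_ne_zero _ d0)), map_mul, map_pow, Real.rpow_neg (by positivity)]
      push_cast
      rw [← Real.rpow_natCast (_ * _) 3]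
      norm_num
    have e2 : ∀ c : O, (N c : ℝ) ^ (-(2 : ℝ)) = ((N c : ℝ) ^ 2)⁻¹ := fun c => by
      rw [Real.rpow_neg (by positivity), ← Real.rpow_natCast]
      norm_num
    rw [e] at w
    rw [norm_mul, norm_mul, norm_mul, Complex.norm_real, Real.norm_of_nonneg (ab_nonneg _), e2, e2]
    calc _ ≤ (N x.2 : ℝ) * N x.1 * 1 * (Real.exp (3 ^ 2 / 4) * Y ^ (3 : ℝ) *
          (((N x.1 : ℝ) * (N x.2 : ℝ) ^ 3) ^ 3)⁻¹) := by gcongr
      _ = Real.exp (3 ^ 2 / 4) * Y ^ (3 : ℝ) * (((N x.1 : ℝ) ^ 2)⁻¹ * ((N x.2 : ℝ) ^ 8)⁻¹) := by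
          field_simp
      _ ≤ _ := by gcongr; norm_num
  · simp only [norm_zero]; positivity

lemma cop_sum {x r : O} (hx : Primary x) (hr : r ≠ 0) :
    cop x r = ∑ e ∈ (pdiv r).filter SQ, if e ∣ x then mu e else 0 := by
  rw [← mu_sum hx, sum_filter, sum_filter, ← sum_filter, ← sum_filter, ← sum_filter]
  symm
  refine sum_subset (fun e he => ?_) fun e he hn => mu_of_not fun hs => hn ?_
  · simp only [mem_filter, mem_pdiv hr, mem_pdiv hx.ne_zero] at he ⊢
    tauto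
  · simp only [mem_filter, mem_pdiv hx.ne_zero] at he
    exact mem_filter.2 ⟨mem_filter.2 ⟨(mem_pdiv hr).2 ⟨he.1.1, he.2⟩, he.1.1, hs⟩, he.1.2⟩

lemma tm_six (ν : O → ℂ) (h D : O) {r : O} (hr : r ≠ 0) (Y t : ℝ) (x : O × O) :
    tm ν (r ^ 6 * h) D Y t x =
      if IsCoprime D r then ∑ e ∈ (pdiv r).filter SQ, mu e * tm ν h (e * D) Y t x else 0 := by
  unfold tm
  by_cases hx : SQ x.1 ∧ Primary x.2 ∧ D ∣ x.1 * x.2 ^ 3
  · have hp : Primary (x.1 * x.2 ^ 3) := hx.1.1.mul (hx.2.1.pow 3)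
    have e : Phi ν (r ^ 6 * h) (x.1 * x.2 ^ 3) = cop (x.1 * x.2 ^ 3) r * Phi ν h (x.1 * x.2 ^ 3) := by
      have : conj (cop (x.1 * x.2 ^ 3) r) = cop (x.1 * x.2 ^ 3) r := by
        unfold cop; split_ifs <;> simp
      rw [Phi, Phi, psi_mul, psi_pow, psi_six hp.ne_zero, map_mul, this]
      ring
    rw [if_pos hx, e]
    split_ifs with hc
    · rw [cop_sum hp hr, sum_mul, mul_sum, sum_mul]
      refine sum_congr rfl fun e he => ?_
      have h1 : e ∣ r := ((mem_pdiv hr).1 (mem_filter.1 he).1).2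
      have h2 : IsCoprime e D := (hc.of_isCoprime_of_dvd_right h1).symm
      by_cases h3 : e ∣ x.1 * x.2 ^ 3
      · rw [if_pos h3, if_pos ⟨hx.1, hx.2.1, h2.mul_dvd h3 hx.2.2⟩]; ring
      · rw [if_neg h3, if_neg fun k => h3 ((dvd_mul_right e D).trans k.2.2)]; ring
    · rw [cop_of_not fun k => hc (k.of_isCoprime_of_dvd_right hx.2.2).symm]; ring
  · rw [if_neg hx]
    split_ifs
    · refine (sum_eq_zero fun e _ => ?_).symm
      rw [if_neg fun k => hx ⟨k.1, k.2.1, (dvd_mul_left D e).trans k.2.2⟩, mul_zero]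
    · rfl

lemma bd_six {Q : O} {ν : O → ℂ} (hν : IsNu Q ν) (h : O) {r : O} (hr : r ≠ 0) {S : Finset O}
    (hS : ∀ D ∈ S, D ≠ 0) (F : O → ℂ) {X : ℝ} (hX : 0 < X) (t : ℝ) :
    Bd ν (r ^ 6 * h) S F X t = ∑ e ∈ (pdiv r).filter SQ, mu e *
      Bd ν h ((S.filter (IsCoprime · r)).image (e * ·)) (fun D => F (quo D e)) (X / N e) t := by
  have e1 : Bd ν (r ^ 6 * h) S F X t = ∑ D ∈ S.filter (IsCoprime · r), F D *
      ∑ e ∈ (pdiv r).filter SQ, mu e * ∑' x, tm ν h (e * D) (X * N D) t x := by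
    rw [sum_filter]
    refine sum_congr rfl fun D hD => ?_
    have h0 : 0 < X * N D := mul_pos hX (N_pos_real (hS D hD))
    show F D * ∑' x, tm ν (r ^ 6 * h) D (X * N D) t x = _
    simp only [tm_six ν h D hr]
    split_ifs
    · rw [Summable.tsum_finsetSum fun e _ => (summ hν h _ h0 t).mul_left _]
      simp only [tsum_mul_left]
    · simp
  rw [e1]
  simp only [mul_sum]
  rw [sum_comm]
  refine sum_congr rfl fun e he => ?_
  have e0 : e ≠ 0 := (mem_filter.1 he).2.ne_zero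
  have n0 := N_pos_real e0
  rw [Bd, sum_image fun a _ b _ k => mul_left_cancel₀ e0 k, mul_sum]
  refine sum_congr rfl fun D _ => ?_
  have : X / N e * N (e * D) = X * N D := by rw [map_mul]; push_cast; field_simp
  rw [quo_mul e0, this]
  show _ = mu e * (F D * ∑' x, tm ν h (e * D) (X * N D) t x)
  ring

lemma six {C ε H X P t u R : ℝ} (hC : 0 ≤ C) (hε : 0 < ε) (hX : 0 < X) (hP : 1 ≤ P) (hu : 1 ≤ u)
    (hR : u ≤ R) (hH : R ^ 6 ≤ H) :
    RH C (ε / 2) (H / R ^ 6) (X / u) (P * u) t ≤ RH C ε H X P t / R ^ 2 := by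
  have R1 : 1 ≤ R := hu.trans hR
  have u0 : 0 < u := by linarith
  have R0 : 0 < R := by linarith
  have R6 : R ≤ R ^ 6 := le_self_pow₀ R1 (by norm_num)
  have H1 : 1 ≤ H := by linarith
  have H0 : 0 < H := by linarith
  have P0 : 0 < P := by linarith
  have k1 : (H / R ^ 6) ^ 2 * (P * u) / (X / u) ≤ H ^ 2 * P / X / R ^ 2 := by
    have : u ^ 2 * R ^ 2 ≤ R ^ 12 := by
      calc u ^ 2 * R ^ 2 ≤ R ^ 2 * R ^ 2 := by gcongr
        _ = R ^ 4 := by ring
        _ ≤ _ := pow_le_pow_right₀ R1 (by norm_num)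
    calc _ = H ^ 2 * P / X / R ^ 2 * (u ^ 2 * R ^ 2 / R ^ 12) := by field_simp
      _ ≤ _ := mul_le_of_le_one_right (by positivity) ((div_le_one (by positivity)).2 this)
  have k2 : H / R ^ 6 ≤ H / R ^ 2 := by gcongr; norm_num
  have R2 : 1 ≤ R ^ 2 := one_le_pow₀ R1
  have hz : ZZ (H / R ^ 6) (X / u) (P * u) ^ (ε / 2) ≤ ZZ H X P ^ ε := by
    have w0 : 0 ≤ H ^ 2 * P / X := by positivity
    have a1 := k1.trans (div_le_self w0 R2)
    have a2 := k2.trans (div_le_self H0.le R2)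
    have a3 : P * u ≤ P * H := by gcongr; linarith
    have : ZZ (H / R ^ 6) (X / u) (P * u) ≤ ZZ H X P ^ 2 := by
      unfold ZZ
      nlinarith [mul_pos H0 P0, mul_nonneg w0 H0.le, mul_nonneg w0 P0.le, sq_nonneg (H ^ 2 * P / X)]
    calc _ ≤ (ZZ H X P ^ 2) ^ (ε / 2) :=
          Real.rpow_le_rpow (by unfold ZZ; positivity) this (by positivity)
      _ = _ := by
          rw [← Real.rpow_natCast, ← Real.rpow_mul (by unfold ZZ; positivity)]
          congr 1; push_cast; ring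
  have k3 : (H / R ^ 6 * (X / u)) ^ (1 / 3 : ℝ) ≤ (H * X) ^ (1 / 3 : ℝ) / R ^ 2 := by
    have : (R ^ 2) = (R ^ 6) ^ (1 / 3 : ℝ) := by
      rw [← Real.rpow_natCast R 6, ← Real.rpow_mul R0.le, ← Real.rpow_natCast R 2]; norm_num
    rw [this, ← Real.div_rpow (by positivity) (by positivity)]
    refine Real.rpow_le_rpow (by positivity) ?_ (by norm_num)
    calc _ ≤ H / R ^ 6 * X := by gcongr; exact div_le_self hX.le hu
      _ = _ := by ring
  have k4 : H / R ^ 6 * (P * u) ^ 2 / √(X / u) ≤ u * (H * P ^ 2 / √X / R ^ 2) := by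
    have s0 := Real.sqrt_pos.2 hX
    have s1 : √u ≤ R := (Real.sqrt_le_self_iff.2 (Or.inr hu)).trans hR
    have s2 := Real.sqrt_pos.2 u0
    have : u * √u * R ^ 2 ≤ R ^ 6 := by
      calc u * √u * R ^ 2 ≤ R * R * R ^ 2 := by gcongr
        _ = R ^ 4 := by ring
        _ ≤ _ := pow_le_pow_right₀ R1 (by norm_num)
    rw [Real.sqrt_div hX.le]
    calc _ = u * (H * P ^ 2 / √X / R ^ 2) * (u * √u * R ^ 2 / R ^ 6) := by field_simp
      _ ≤ _ := mul_le_of_le_one_right (by positivity) ((div_le_one (by positivity)).2 this)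
  have hb : X / u * BB (H / R ^ 6) (X / u) (P * u) ≤ X * BB H X P / R ^ 2 := by
    have b1 : H / R ^ 6 ≤ u * (H / R ^ 2) := k2.trans (le_mul_of_one_le_left (by positivity) hu)
    have b2 := k1.trans (le_mul_of_one_le_left (by positivity) hu)
    have b3 : P * u * (H / R ^ 6 * (X / u)) ^ (1 / 3 : ℝ) ≤
        u * (P * ((H * X) ^ (1 / 3 : ℝ) / R ^ 2)) := by
      rw [mul_comm P u, mul_assoc]; gcongr
    calc _ ≤ X / u * (u * (H / R ^ 2) + u * (H ^ 2 * P / X / R ^ 2) +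
          u * (P * ((H * X) ^ (1 / 3 : ℝ) / R ^ 2)) + u * (H * P ^ 2 / √X / R ^ 2)) := by
          unfold BB; gcongr
      _ = _ := by unfold BB; field_simp
  have b0 : 0 ≤ X / u * BB (H / R ^ 6) (X / u) (P * u) := by unfold BB; positivity
  have z0 : 0 ≤ ZZ H X P ^ ε := by unfold ZZ; positivity
  calc _ = C * (1 + |t|) ^ 16 * ZZ (H / R ^ 6) (X / u) (P * u) ^ (ε / 2) *
        (X / u * BB (H / R ^ 6) (X / u) (P * u)) := by unfold RH; ring
    _ ≤ C * (1 + |t|) ^ 16 * ZZ H X P ^ ε * (X * BB H X P / R ^ 2) := by gcongr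
    _ = _ := by unfold RH; ring

end Red6P

open Red6P in
theorem pRed6 (h1 : S_Dec6) : S_Red6 := by
  intro hV Q hQ h36 ε hε
  obtain ⟨C, hC, hV⟩ := hV Q hQ h36 (ε / 2) (by positivity)
  have hs := summable_dv_pow 2 (s := 2) one_lt_two
  obtain ⟨K, hK⟩ : ∃ K, K = ∑' n : O, dv n ^ 2 * (N n : ℝ) ^ (-(2 : ℝ)) := ⟨_, rfl⟩
  have K0 : 0 ≤ K := hK ▸ tsum_nonneg fun n => by positivity
  refine ⟨C * K, by positivity, fun ν hν H X P t S s F hH hX hP hS hs' => ?_⟩
  have n0 : 0 ≤ n2 S F := sum_nonneg fun _ _ => by positivity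
  have E0 : 0 ≤ RH C ε H X P t := by unfold RH BB ZZ; positivity
  let U : O → Finset O := fun r =>
    if r ≠ 0 ∧ (N r : ℝ) ^ 6 ≤ H then (ball (H / (N r : ℝ) ^ 6)).filter (Sx Q) else ∅
  have sub : s ⊆ ((ball H).sigma U).image fun y => y.1 ^ 6 * y.2 := by
    intro h hh
    obtain ⟨r, h', r0, hx, rfl⟩ := h1 Q h hQ h36 (hs' h hh).2
    have r1 := one_le_N r0
    have g1 := one_le_N (right_ne_zero_of_mul (hs' _ hh).2)
    have e : (N r : ℝ) ^ 6 * N h' ≤ H := by simpa using (hs' _ hh).1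
    have e1 : (N r : ℝ) ^ 6 ≤ H := (le_mul_of_one_le_right (by positivity) g1).trans e
    refine mem_image.2 ⟨⟨r, h'⟩, mem_sigma.2 ⟨mem_ball.2
      ((le_self_pow₀ r1 (by norm_num)).trans e1), ?_⟩, rfl⟩
    simp only [U]
    rw [if_pos ⟨r0, e1⟩, mem_filter, mem_ball, le_div_iff₀ (by positivity)]
    exact ⟨by linarith, hx⟩
  have key : ∀ r, ∑ h ∈ U r, ‖Bd ν (r ^ 6 * h) S F X t‖ ^ 2 ≤
      dv r ^ 2 * (N r : ℝ) ^ (-(2 : ℝ)) * (RH C ε H X P t * n2 S F) := by
    intro r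
    simp only [U]
    split_ifs with hr
    swap
    · rw [sum_empty]; positivity
    obtain ⟨r0, r6⟩ := hr
    have r1 := one_le_N r0
    have cd : (#((pdiv r).filter SQ) : ℝ) ≤ dv r := by
      rw [dv]; exact_mod_cast card_filter_le _ _
    have one : ∀ e ∈ (pdiv r).filter SQ, ∑ h ∈ (ball (H / (N r : ℝ) ^ 6)).filter (Sx Q),
        ‖Bd ν h ((S.filter (IsCoprime · r)).image (e * ·)) (fun D => F (quo D e)) (X / N e) t‖ ^ 2 ≤
        RH C ε H X P t / (N r : ℝ) ^ 2 * n2 S F := by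
      intro e he
      obtain ⟨he1, he2⟩ := mem_filter.1 he
      have e0 := he2.ne_zero
      have e1 := one_le_N e0
      have ed := ((mem_pdiv r0).1 he1).2
      have e2 : (N e : ℝ) ≤ N r := by exact_mod_cast N_le_of_dvd ed r0
      refine (hV ν hν (H / (N r : ℝ) ^ 6) (X / N e) (P * N e) t _ _ _
        ((one_le_div (by positivity)).2 r6) (by positivity) (one_le_mul_of_one_le_of_one_le hP e1)
        (fun D hD => ?_) fun h hh => ⟨mem_ball.1 (mem_filter.1 hh).1, (mem_filter.1 hh).2⟩).trans ?_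
      · obtain ⟨D, hD', rfl⟩ := mem_image.1 hD
        obtain ⟨d1, d2⟩ := mem_filter.1 hD'
        refine ⟨he2.mul (hS D d1).1 (d2.of_isCoprime_of_dvd_right ed).symm, ?_⟩
        rw [map_mul, Nat.cast_mul, mul_comm]
        exact mul_le_mul_of_nonneg_right (hS D d1).2 (by positivity)
      · refine mul_le_mul (six hC hε hX hP e1 e2 r6) ?_ (sum_nonneg fun _ _ => by positivity)
          (by positivity)
        rw [n2, sum_image fun a _ b _ k => mul_left_cancel₀ e0 k]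
        simp only [quo_mul e0]
        exact sum_le_sum_of_subset_of_nonneg (filter_subset _ _) fun _ _ _ => by positivity
    calc _ ≤ ∑ h ∈ (ball (H / (N r : ℝ) ^ 6)).filter (Sx Q), dv r * ∑ e ∈ (pdiv r).filter SQ,
          ‖Bd ν h ((S.filter (IsCoprime · r)).image (e * ·)) (fun D => F (quo D e))
            (X / N e) t‖ ^ 2 := by
          refine sum_le_sum fun h _ => ?_
          rw [bd_six hν h r0 (fun D hD => (hS D hD).1.ne_zero) F hX]
          refine (pow_le_pow_left₀ (norm_nonneg _) ((norm_sum_le _ _).trans (sum_le_sum fun e _ =>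
            (norm_mul_le _ _).trans (mul_le_of_le_one_left (norm_nonneg _) (norm_mu_le e)))) 2).trans
            (sq_sum_le_card_mul_sum_sq.trans ?_)
          exact mul_le_mul_of_nonneg_right cd (sum_nonneg fun _ _ => by positivity)
      _ ≤ dv r * (dv r * (RH C ε H X P t / (N r : ℝ) ^ 2 * n2 S F)) := by
          rw [← mul_sum, sum_comm]
          refine mul_le_mul_of_nonneg_left ((sum_le_sum one).trans ?_) (dv_nonneg r)
          rw [sum_const, nsmul_eq_mul]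
          exact mul_le_mul_of_nonneg_right cd (by positivity)
      _ = _ := by
          rw [Real.rpow_neg (by positivity), show (2 : ℝ) = (2 : ℕ) by norm_num, Real.rpow_natCast]
          field_simp
  calc _ ≤ ∑ y ∈ (ball H).sigma U, ‖Bd ν (y.1 ^ 6 * y.2) S F X t‖ ^ 2 :=
        (sum_le_sum_of_subset_of_nonneg sub fun _ _ _ => sq_nonneg _).trans
          (sum_image_le_of_nonneg fun _ _ => sq_nonneg _)
    _ ≤ ∑ r ∈ ball H, dv r ^ 2 * (N r : ℝ) ^ (-(2 : ℝ)) * (RH C ε H X P t * n2 S F) := by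
        rw [sum_sigma]
        exact sum_le_sum fun r _ => key r
    _ ≤ K * (RH C ε H X P t * n2 S F) := by
        rw [← sum_mul, hK]
        exact mul_le_mul_of_nonneg_right (hs.sum_le_tsum _ fun n _ => by positivity) (by positivity)
    _ = _ := by unfold RH; ring

end Pool.Agent.P.MP_323ce2_nt.QW
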