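import Pool.Agent.P.MP_323ce2_nt.QW.Bas
import Pool.Agent.P.MP_26a8c3_nt.QV.TS
import Pool.Agent.P.MP_26a8c3_nt.QV.Har

/-! The large sieve for theta coefficients times cubic sums. -/

namespace Pool.Agent.P.MP_323ce2_nt.QW

open Finset Pool.Agent.P.MP_26a8c3_nt Pool.Agent.P.MP_26a8c3_nt.QO Pool.Agent.P.MP_26a8c3_nt.QA
open Pool.Agent.P.MP_26a8c3_nt.QV
open scoped Classical ComplexConjugate

namespace TS1P

lemma sqsf {k : O} (hk : Primary k) : ∃ t s : O, Primary t ∧ SQ s ∧ k = t ^ 2 * s := by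
  obtain ⟨b, a, hs, rfl⟩ := HarP.sq_mul hk.ne_zero
  obtain ⟨u, hu, hp⟩ := exists_primary (x := b) fun h =>
    hk.not_lam_dvd ((h.trans (dvd_pow_self b two_ne_zero)).mul_right a)
  obtain ⟨v, hv⟩ := hu.exists_right_inv
  have e' : b ^ 2 * a = (u * b) ^ 2 * (v ^ 2 * a) := by
    linear_combination (-(b ^ 2 * a) * (u * v + 1)) * hv
  have hv' : IsUnit (v ^ 2) := (IsUnit.of_mul_eq_one_right u hv).pow 2
  exact ⟨u * b, v ^ 2 * a, hp, ⟨(e' ▸ hk).of_mul (hp.pow 2),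
    hs.squarefree_of_dvd (hv'.mul_left_dvd.2 dvd_rfl)⟩, e'⟩

lemma real {a b g c e y w G : ℝ} (ha : 1 ≤ a) (hb : 1 ≤ b) (hg : 1 ≤ g) (hc : 1 ≤ c) (he : 1 ≤ e)
    (hy : 0 < y) (hw : 0 < w) (hG : 0 ≤ G) (h1 : y ^ 3 = g * c) (h2 : w ≤ e * (a ^ 2 * b * g) * y) :
    (G + b * c) * (a * g) * (a ^ 2 * b * g * e ^ 2 / (e ^ 3 * (a ^ 2 * b * g) ^ 3 * y ^ 3)) ≤
      (a * b)⁻¹ * (G * w⁻¹ * (y ^ 2)⁻¹ + 1) := by
  have k1 : a * g * (a ^ 2 * b * g * e ^ 2 / (e ^ 3 * (a ^ 2 * b * g) ^ 3 * y ^ 3)) ≤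
      (a * b)⁻¹ * (w⁻¹ * (y ^ 2)⁻¹) := by
    rw [show a * g * (a ^ 2 * b * g * e ^ 2 / (e ^ 3 * (a ^ 2 * b * g) ^ 3 * y ^ 3)) =
      (a * b)⁻¹ * ((e * (a ^ 2 * b * g) * y)⁻¹ * (y ^ 2)⁻¹) by field_simp]
    gcongr
  have k2 : b * c * (a * g) * (a ^ 2 * b * g * e ^ 2 / (e ^ 3 * (a ^ 2 * b * g) ^ 3 * y ^ 3)) ≤
      (a * b)⁻¹ := by
    rw [h1, show b * c * (a * g) * (a ^ 2 * b * g * e ^ 2 / (e ^ 3 * (a ^ 2 * b * g) ^ 3 * (g * c)))
      = (a * b)⁻¹ * (e * (a * g) ^ 2)⁻¹ by field_simp]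
    exact mul_le_of_le_one_right (by positivity) (inv_le_one_of_one_le₀
      (one_le_mul_of_one_le_of_one_le he (one_le_pow₀ (one_le_mul_of_one_le_of_one_le ha hg))))
  have := mul_le_mul_of_nonneg_left k1 hG
  linarith

lemma cube {x : ℝ} (hx : 0 ≤ x) : (x ^ (1 / 3 : ℝ)) ^ 3 = x := by
  rw [← Real.rpow_natCast, ← Real.rpow_mul hx]; norm_num

lemma shape (A : Alg) {T : O → O → ℂ} {c₀ C₀ : ℝ} {J : ℝ → ℝ → ℂ} (hT : Th2 T c₀ C₀ J) {x n : O}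
    {G W R : ℝ} (hG : 0 ≤ G) (hW : 0 < W) (h1 : W ≤ N n) (hR : (N n : ℝ) ≤ R) (h2 : T x n ≠ 0) :
    ∃ e t k γ c : O, e ∈ TSP.EE R ∧ t ∈ (ball R).erase 0 ∧ k ∈ (ball R).erase 0 ∧
      γ * c ∈ (ball R).erase 0 ∧ Lp e ∧ Primary t ∧ Primary γ ∧ SQ (k * c) ∧ Primary k ∧
      n = e * (t ^ 2 * k * γ) ^ 3 * (γ * c) ∧
      (G + N (k * c)) * N (t * γ) * ‖T x n * (ab n : ℂ)⁻¹‖ ^ 2 ≤ C₀ ^ 2 * (((N t : ℝ) * N k)⁻¹ *
        (G * W ^ (-(1 / 3) : ℝ) * (N (γ * c) : ℝ) ^ (-(2 / 3) : ℝ) + 1)) := by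
  have h0 : n ≠ 0 := by rintro rfl; simp at h1; linarith
  obtain ⟨u, i, p, hu, hp, rfl⟩ := exists_decomp h0
  have hL : Lp (u * lam ^ i) := ⟨i, hu.mul_left_dvd.2 dvd_rfl⟩
  set e := u * lam ^ i with he
  have e0 : e ≠ 0 := left_ne_zero_of_mul h0
  obtain ⟨c, d, hc, hd, rfl⟩ : ∃ c d, SQ c ∧ Primary d ∧ p = c * d ^ 3 := by
    by_contra h
    exact h2 (hT.th.hz x _ p hL hp h)
  obtain ⟨t, s, ht, hs, rfl⟩ := sqsf hd
  obtain ⟨k, c', e1, e2, hg⟩ := extract_gcd s c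
  have hγ := hs.1.gcd c
  generalize gcd s c = γ at e1 e2 hγ
  subst e1 e2
  have hk := hs.right hγ
  have hc' := hc.right hγ
  have le : ∀ z, z ∣ e * (γ * c' * (t ^ 2 * (γ * k)) ^ 3) → z ∈ (ball R).erase 0 := fun z hz =>
    mem_erase.2 ⟨ne_zero_of_dvd_ne_zero h0 hz,
      mem_ball.2 (le_trans (by exact_mod_cast N_le_of_dvd hz h0) hR)⟩
  refine ⟨e, t, k, γ, c', ?_, le t ⟨e * (γ * c' * t ^ 5 * (γ * k) ^ 3), by ring⟩,
    le k ⟨e * (γ * c' * t ^ 6 * γ ^ 3 * k ^ 2), by ring⟩,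
    le _ ⟨e * (t ^ 2 * (γ * k)) ^ 3, by ring⟩, hL, ht, hγ,
    hk.mul hc' ((gcd_isUnit_iff _ _).1 hg), hk.1, by ring, ?_⟩
  · have := mem_ball.1 (mem_erase.1 (le (lam ^ i) ⟨u * (γ * c' * (t ^ 2 * (γ * k)) ^ 3), by
      rw [he]; ring⟩)).2
    simpa using TSP.mem_EE (b := 0) hu (by norm_num) (k := i) (R := R) (by simpa using this)
  have a1 := one_le_N e0
  have a2 := one_le_N hc.ne_zero
  have b1 : ‖T x (e * (γ * c' * (t ^ 2 * (γ * k)) ^ 3))‖ ≤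
      ab (t ^ 2 * (γ * k)) * (C₀ * (N e : ℝ) ^ (1 / 3 : ℝ)) := by
    rw [hT.th.hk x _ _ _ hL hc hd, norm_mul, norm_mul, norm_mul, A.r4.2.1 _ hc, mul_one,
      Complex.norm_real, Real.norm_of_nonneg (ab_nonneg _)]
    exact mul_le_mul (mul_le_of_le_one_left (ab_nonneg _) (norm_chi_le _ _)) (hT.lam x _ hL)
      (norm_nonneg _) (ab_nonneg _)
  have b2 := pow_le_pow_left₀ (norm_nonneg _) b1 2
  have eN : (N (e * (γ * c' * (t ^ 2 * (γ * k)) ^ 3)) : ℝ) = ((N e : ℝ) ^ (1 / 3 : ℝ)) ^ 3 *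
      ((N t : ℝ) ^ 2 * N k * N γ) ^ 3 * ((N (γ * c') : ℝ) ^ (1 / 3 : ℝ)) ^ 3 := by
    rw [cube (by positivity), cube (by positivity)]
    simp only [map_mul, map_pow, Nat.cast_mul, Nat.cast_pow]; ring
  have b3 := real (G := G) (w := W ^ (1 / 3 : ℝ)) (y := (N (γ * c') : ℝ) ^ (1 / 3 : ℝ))
    (one_le_N ht.ne_zero) (one_le_N hk.ne_zero) (one_le_N hγ.ne_zero) (one_le_N hc'.ne_zero)
    (Real.one_le_rpow a1 (by norm_num : (0 : ℝ) ≤ 1 / 3)) (by positivity) (by positivity) hG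
    (by rw [cube (by positivity), map_mul, Nat.cast_mul])
    (le_of_pow_le_pow_left₀ three_ne_zero (by positivity) (by
      rw [cube hW.le, mul_pow, mul_pow, ← eN]; exact h1))
  rw [← eN, ← Real.rpow_neg hW.le, ← Real.rpow_natCast ((N (γ * c') : ℝ) ^ (1 / 3 : ℝ)) 2,
    ← Real.rpow_mul (by positivity), ← Real.rpow_neg (by positivity),
    show -(1 / 3 * ((2 : ℕ) : ℝ)) = -(2 / 3) by norm_num] at b3
  refine le_trans ?_ (mul_le_mul_of_nonneg_left b3 (sq_nonneg C₀))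
  rw [norm_mul, norm_inv, Complex.norm_real, Real.norm_of_nonneg (ab_nonneg _), mul_pow, inv_pow,
    ab_sq, mul_left_comm (C₀ ^ 2), map_mul N k, map_mul N t, Nat.cast_mul, Nat.cast_mul,
    ← mul_div_assoc, ← div_eq_mul_inv]
  gcongr
  refine b2.trans (le_of_eq ?_)
  rw [mul_pow, ab_sq]
  simp only [map_mul, map_pow, Nat.cast_mul, Nat.cast_pow]; ring

lemma fin {G P W : ℝ} (hG : 0 ≤ G) (hP : 0 ≤ P) (hW : 0 < W) :
    G * W ^ (-(1 / 3) : ℝ) * ((2 * W) ^ (1 / 3 : ℝ) + P ^ (4 / 3 : ℝ)) +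
      (2 * W + P ^ (3 / 2 : ℝ) * (2 * W) ^ (1 / 2 : ℝ)) ≤ 2 * Mb G P W := by
  have h : ∀ a : ℝ, a ≤ 1 → (2 * W) ^ a ≤ 2 * W ^ a := fun a ha => by
    rw [Real.mul_rpow zero_le_two hW.le]
    gcongr
    simpa using Real.rpow_le_rpow_of_exponent_le one_le_two ha
  have h1 := h (1 / 3) (by norm_num)
  have h2 := h (1 / 2) (by norm_num)
  have h3 : W ^ (-(1 / 3) : ℝ) * W ^ (1 / 3 : ℝ) = 1 := by rw [← Real.rpow_add hW]; simp
  have h4 : 0 ≤ G * P ^ (4 / 3 : ℝ) * W ^ (-(1 / 3) : ℝ) := by positivity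
  calc _ ≤ G * W ^ (-(1 / 3) : ℝ) * (2 * W ^ (1 / 3 : ℝ) + P ^ (4 / 3 : ℝ)) +
        (2 * W + P ^ (3 / 2 : ℝ) * (2 * W ^ (1 / 2 : ℝ))) := by gcongr
    _ ≤ _ := by rw [Mb]; nlinarith

end TS1P

open TS1P in
theorem pTS1 (A : Alg) (hH : S_Har) (hC : S_CLS) (hB : S_BL) : S_TS1 := by
  intro T c₀ C₀ J hT ε hε
  have hη : 0 < ε / 7 := by positivity
  obtain ⟨C₁, hC₁, h₁⟩ := hB _ hη
  obtain ⟨C₂, hC₂, h₂, -⟩ := hH _ hη
  obtain ⟨C₃, hC₃, h₃⟩ := hC _ hη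
  obtain ⟨C₄, hC₄, h₄⟩ := dv_le hη
  refine ⟨2 ^ ε * (C₁ * C₀ ^ 2 * (12 * (1 / (ε / 7) + 1) * C₂ * C₂) * (C₄ * C₃ * 2)), by positivity,
    fun x G P W s S I θ F hG hP hW hs hS hθ hI => ?_⟩
  have M0 := Mb_nonneg (zero_le_one.trans hG) (zero_le_one.trans hP) hW.le
  have n0 := n2_nonneg S F
  by_cases hR : 2 * W < 1
  · have : I = ∅ := eq_empty_of_forall_notMem fun n hn => by
      have := one_le_N (z := n) (by rintro rfl; have := (hI 0 hn).1; simp at this; linarith)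
      linarith [(hI n hn).2]
    simp only [this, sum_empty, norm_zero]
    simp only [ne_eq, OfNat.ofNat_ne_zero, not_false_eq_true, zero_pow, sum_const_zero]
    positivity
  push Not at hR
  set R := 2 * W with hRd
  set Z := 2 * (1 + G + P + W) with hZ
  set z := Z ^ (ε / 7) with hz
  have Z1 : 1 + R ≤ Z := by linarith
  have z1 : 1 ≤ z := Real.one_le_rpow (by linarith) hη.le
  have zR : (1 + R) ^ (ε / 7) ≤ z := by rw [hz]; gcongr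
  have zR' : R ^ (ε / 7) ≤ z := by rw [hz]; gcongr; linarith
  set f : O → ℂ := fun n => ∑ d ∈ S, F d * chi d n with hf
  set I' := I.filter fun n => T x n ≠ 0 with hI'
  have hex := fun n (hn : n ∈ I') => shape A hT (zero_le_one.trans hG) hW
    (hI n (mem_filter.1 hn).1).1 (hI n (mem_filter.1 hn).1).2 (mem_filter.1 hn).2
  choose! e t k γ c m1 m2 m3 m4 p1 p2 p3 p4 p5 he hb using hex
  have k1 := h₁ G R s I' (fun n => θ n * T x n * (ab n : ℂ)⁻¹ * f n) e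
    (fun n => t n ^ 2 * k n * γ n) (fun n => k n * c n) (fun n => t n * γ n) hG hR hs fun n hn =>
      ⟨(hI n (mem_filter.1 hn).1).2, p1 n hn, (((p2 n hn).pow 2).mul (p5 n hn)).mul (p3 n hn),
        p4 n hn, (p2 n hn).mul (p3 n hn), ⟨γ n * c n, by ring⟩, (he n hn).trans (by ring)⟩
  set B := (ball R).erase 0 with hB
  set Ψ : O × O × O → O → ℝ := fun y c => ((N y.2.1 : ℝ) * N y.2.2)⁻¹ *
    ((G * W ^ (-(1 / 3) : ℝ) * (N c : ℝ) ^ (-(2 / 3) : ℝ) + 1) *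
      ‖∑ d ∈ S, F d * chi d (y.1 * (y.2.1 ^ 2 * y.2.2) ^ 3) * chi d c‖ ^ 2) with hΨ
  have Ψ0 : ∀ y c, 0 ≤ Ψ y c := fun y c => by simp only [hΨ]; positivity
  set φ : O → (O × O × O) × (Σ _ : O, O) := fun n => ((e n, t n, k n), ⟨γ n * c n, γ n⟩) with hφ
  have k2 : ∑ n ∈ I', (G + N (k n * c n)) * N (t n * γ n) * ‖θ n * T x n * (ab n : ℂ)⁻¹ * f n‖ ^ 2 ≤
      C₀ ^ 2 * ∑ n ∈ I', Ψ (φ n).1 (φ n).2.1 := by
    rw [mul_sum]
    refine sum_le_sum fun n hn => ?_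
    have e1 : f n = ∑ d ∈ S, F d * chi d (e n * (t n ^ 2 * k n) ^ 3) * chi d (γ n * c n) := by
      refine sum_congr rfl fun d hd => ?_
      have h5 := congrArg (chi d) (he n hn)
      have h6 : chi d (γ n) ^ 4 = chi d (γ n) := by
        have := psi_sq (hS d hd).1.ne_zero (γ n)
        by_cases h : IsCoprime (γ n) d
        · rw [pow_succ, chi_cube (hS d hd).1.ne_zero, cop_of h, one_mul]
        · simp [(chi_eq_zero (hS d hd).1.ne_zero).2 h]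
      rw [h5]
      simp only [chi_mul, chi_pow]
      linear_combination F d * chi d (e n) * (chi d (t n) ^ 2 * chi d (k n)) ^ 3 * chi d (c n) * h6
    have e2 : ‖θ n * T x n * (ab n : ℂ)⁻¹ * f n‖ ^ 2 ≤ ‖T x n * (ab n : ℂ)⁻¹‖ ^ 2 * ‖f n‖ ^ 2 := by
      rw [← mul_pow, norm_mul, mul_assoc (θ n), norm_mul (θ n)]
      gcongr
      exact mul_le_of_le_one_left (norm_nonneg _) (hθ n)
    have G0 : 0 ≤ G := zero_le_one.trans hG
    calc _ ≤ (G + N (k n * c n)) * N (t n * γ n) * ‖T x n * (ab n : ℂ)⁻¹‖ ^ 2 * ‖f n‖ ^ 2 := by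
          rw [mul_assoc _ _ (‖f n‖ ^ 2)]; gcongr
      _ ≤ _ := (mul_le_mul_of_nonneg_right (hb n hn) (sq_nonneg _)).trans_eq (by
          simp only [hΨ, hφ, e1]; ring)
  have k3 : ∑ n ∈ I', Ψ (φ n).1 (φ n).2.1 ≤
      ∑ y ∈ (TSP.EE R ×ˢ B ×ˢ B) ×ˢ B.sigma pdiv, Ψ y.1 y.2.1 := by
    rw [← sum_image (f := fun y : (O × O × O) × (Σ _ : O, O) => Ψ y.1 y.2.1) (g := φ)]
    · refine sum_le_sum_of_subset_of_nonneg (fun y hy => ?_) fun _ _ _ => Ψ0 _ _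
      obtain ⟨n, hn, rfl⟩ := mem_image.1 hy
      simp only [hφ, mem_product, mem_sigma]
      exact ⟨⟨m1 n hn, m2 n hn, m3 n hn⟩, m4 n hn,
        (mem_pdiv (mem_erase.1 (m4 n hn)).1).2 ⟨p3 n hn, dvd_mul_right _ _⟩⟩
    · intro n hn n' hn' h
      simp only [hφ, Prod.mk.injEq, Sigma.mk.injEq, heq_eq_eq] at h
      rw [he n hn, he n' hn', h.2.1, h.1.1, h.1.2.1, h.1.2.2, h.2.2]
  have k4 : ∀ y : O × O × O, ∑ w ∈ B.sigma pdiv, Ψ y w.1 ≤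
      ((N y.2.1 : ℝ) * N y.2.2)⁻¹ * (C₄ * z * (C₃ * z * (2 * Mb G P W) * n2 S F)) := fun y => by
    obtain ⟨l1, l2⟩ := h₃ P R S B (fun d => F d * chi d (y.1 * (y.2.1 ^ 2 * y.2.2) ^ 3)) hP hR hS
      fun c hc => ⟨(mem_erase.1 hc).1, mem_ball.1 (mem_erase.1 hc).2⟩
    have l3 := n2_le (S := S) (F := F) (F' := fun d => F d * chi d (y.1 * (y.2.1 ^ 2 * y.2.2) ^ 3))
      fun d _ => by rw [norm_mul]; exact mul_le_of_le_one_right (norm_nonneg _) (norm_chi_le _ _)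
    have G0 : 0 ≤ G := zero_le_one.trans hG
    have P0 : 0 ≤ P := zero_le_one.trans hP
    have R0 : 0 ≤ R := zero_le_one.trans hR
    have l4 := n2_nonneg S fun d => F d * chi d (y.1 * (y.2.1 ^ 2 * y.2.2) ^ 3)
    rw [sum_sigma]
    calc _ ≤ ∑ c ∈ B, C₄ * z * Ψ y c := by
          refine sum_le_sum fun c hc => ?_
          simp only [sum_const, nsmul_eq_mul]
          refine mul_le_mul_of_nonneg_right ((h₄ c (mem_erase.1 hc).1).trans ?_) (Ψ0 _ _)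
          gcongr
          exact le_trans (by gcongr; exact mem_ball.1 (mem_erase.1 hc).2) zR'
      _ = ((N y.2.1 : ℝ) * N y.2.2)⁻¹ * (C₄ * z * (G * W ^ (-(1 / 3) : ℝ) *
            ∑ c ∈ B, (N c : ℝ) ^ (-(2 / 3) : ℝ) *
              ‖∑ d ∈ S, F d * chi d (y.1 * (y.2.1 ^ 2 * y.2.2) ^ 3) * chi d c‖ ^ 2 +
            ∑ c ∈ B, ‖∑ d ∈ S, F d * chi d (y.1 * (y.2.1 ^ 2 * y.2.2) ^ 3) * chi d c‖ ^ 2)) := by
          simp only [hΨ, mul_add, mul_sum, ← sum_add_distrib]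
          exact sum_congr rfl fun _ _ => by ring
      _ ≤ ((N y.2.1 : ℝ) * N y.2.2)⁻¹ * (C₄ * z * (G * W ^ (-(1 / 3) : ℝ) *
            (C₃ * z * (R ^ (1 / 3 : ℝ) + P ^ (4 / 3 : ℝ)) * n2 S F) +
            C₃ * z * (R + P ^ (3 / 2 : ℝ) * R ^ (1 / 2 : ℝ)) * n2 S F)) := by
          gcongr
          · exact l2.trans (by gcongr)
          · refine l1.trans ?_
            gcongr
            exact le_mul_of_one_le_right hC₃ z1
      _ ≤ _ := by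
          gcongr
          have := mul_le_mul_of_nonneg_left (fin G0 P0 hW) (show 0 ≤ C₃ * z * n2 S F by positivity)
          linarith
  have k5 : ∑ y ∈ TSP.EE R ×ˢ B ×ˢ B, ((N y.2.1 : ℝ) * N y.2.2)⁻¹ ≤
      12 * (1 / (ε / 7) + 1) * z * (C₂ * z * (C₂ * z)) := by
    have l1 : ∑ n ∈ B, (N n : ℝ)⁻¹ ≤ C₂ * z :=
      (sum_le_sum_of_subset_of_nonneg (erase_subset _ _) fun _ _ _ => by positivity).trans
        ((h₂ R (by linarith)).trans (by gcongr))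
    have l2 : 0 ≤ ∑ n ∈ B, (N n : ℝ)⁻¹ := sum_nonneg fun _ _ => by positivity
    rw [sum_product]
    simp only [sum_const, nsmul_eq_mul, sum_product, mul_inv, ← sum_mul_sum]
    gcongr
    exact (TSP.card_EE (by linarith) hη).trans (by gcongr)
  have k6 : (G * R) ^ (ε / 7) ≤ z * z := by
    rw [Real.mul_rpow (by linarith) (by linarith)]
    gcongr
    rw [hz]; gcongr; linarith
  have k7 : 2 ^ ε * (1 + G + P + W) ^ ε = z ^ 7 := by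
    rw [← Real.mul_rpow zero_le_two (by linarith), hz, ← Real.rpow_mul_natCast (by linarith)]
    norm_num [hZ]
  calc _ = ∑ g ∈ s, ‖∑ n ∈ I', θ n * T x n * (ab n : ℂ)⁻¹ * f n * eta g n‖ ^ 2 := by
        refine sum_congr rfl fun g _ => ?_
        rw [hI', sum_filter_of_ne (p := fun n => T x n ≠ 0) fun n _ hn h => hn (by simp [h])]
    _ ≤ C₁ * (z * z) * (C₀ ^ 2 * (12 * (1 / (ε / 7) + 1) * z * (C₂ * z * (C₂ * z)) *
          (C₄ * z * (C₃ * z * (2 * Mb G P W) * n2 S F)))) := by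
        refine k1.trans (mul_le_mul (by gcongr) (k2.trans ?_) (sum_nonneg fun _ _ => by positivity)
          (by positivity))
        gcongr
        refine k3.trans ?_
        rw [sum_product]
        refine (sum_le_sum fun y _ => k4 y).trans ?_
        rw [← sum_mul]
        gcongr
    _ = _ := by
        linear_combination (-(C₁ * C₀ ^ 2 * (12 * (1 / (ε / 7) + 1) * C₂ * C₂) * (C₄ * C₃ * 2) *
          Mb G P W * n2 S F)) * k7

end Pool.Agent.P.MP_323ce2_nt.QW
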