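import Pool.Agent.P.MP_323ce2_nt.QW.St
import Pool.Agent.P.MP_26a8c3_nt.QO.Div

/-! Removal of the coprimality condition between the modulus and the level. -/

namespace Pool.Agent.P.MP_323ce2_nt.QW

open Finset Pool.Agent.P.MP_26a8c3_nt Pool.Agent.P.MP_26a8c3_nt.QO Pool.Agent.P.MP_26a8c3_nt.QA
open Pool.Agent.P.MP_26a8c3_nt.QV
open scoped Classical ComplexConjugate

namespace TS2P

lemma cop_eq {g d : O} {P : ℝ} (hg : Primary g) (hd : d ≠ 0) (hP : (N d : ℝ) ≤ P) :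
    cop g d = ∑ e ∈ ((ball P).filter Primary).filter (· ∣ g), if e ∣ d then mu e else 0 := by
  rw [cop_eq_sum hg, ← sum_filter, ← sum_filter]
  refine sum_congr ?_ fun _ _ => rfl
  ext e
  simp only [mem_filter, mem_pdiv hg.ne_zero, mem_ball]
  refine ⟨fun h => ⟨⟨⟨?_, h.1.1⟩, h.1.2⟩, h.2⟩, fun h => ⟨⟨h.1.1.2, h.1.2⟩, h.2⟩⟩
  exact le_trans (by exact_mod_cast N_le_of_dvd h.2 hd) hP

lemma sq_le (A : Finset O) (u : O → ℂ) :
    ‖∑ e ∈ A, mu e * u e‖ ^ 2 ≤ A.card * ∑ e ∈ A, ‖u e‖ ^ 2 := by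
  refine le_trans ?_ sq_sum_le_card_mul_sum_sq
  refine pow_le_pow_left₀ (norm_nonneg _) ((norm_sum_le _ _).trans (sum_le_sum fun e _ => ?_)) 2
  rw [norm_mul]
  exact mul_le_of_le_one_left (norm_nonneg _) (norm_mu_le e)

end TS2P

theorem pTS2 (h : S_TS1) : S_TS2 := by
  intro T c₀ C₀ J hT ε hε
  obtain ⟨C, hC, H⟩ := h T c₀ C₀ J hT (ε / 3) (by positivity)
  obtain ⟨D, hD, HD⟩ := card_dvd_le (show 0 < ε / 3 by positivity)
  refine ⟨D * D * C, by positivity, fun x G P W s S I θ F hG hP hW hs hS hθ hI => ?_⟩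
  set E := (ball P).filter Primary with hE
  set Z := (1 + G + P + W) ^ (ε / 3) with hZ
  have hZ0 : 0 ≤ Z := by positivity
  have hM : 0 ≤ Mb G P W := by unfold Mb; positivity
  have hc : ∀ (n : O) (A : Finset O), n ≠ 0 → (N n : ℝ) ≤ 1 + G + P + W →
      ((A.filter (· ∣ n)).card : ℝ) ≤ D * Z := fun n A hn hN =>
    (HD n _ hn fun d hd => (mem_filter.1 hd).2).trans (mul_le_mul_of_nonneg_left
      (Real.rpow_le_rpow (Nat.cast_nonneg _) hN (by positivity)) hD.le)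
  set U : O → O → ℂ := fun e g => ∑ n ∈ I, θ n * T x n * (ab n : ℂ)⁻¹ *
    (∑ d ∈ S, (if e ∣ d then F d else 0) * chi d n) * eta g n with hU
  have h1 : ∀ g ∈ s, ‖∑ n ∈ I, θ n * T x n * (ab n : ℂ)⁻¹ *
      (∑ d ∈ S, cop g d * F d * chi d n) * eta g n‖ ^ 2 ≤ D * Z * ∑ e ∈ E, ‖U e g‖ ^ 2 := by
    intro g hg
    have hg1 := (hs g hg).1.1.1
    have e1 : ∑ n ∈ I, θ n * T x n * (ab n : ℂ)⁻¹ * (∑ d ∈ S, cop g d * F d * chi d n) * eta g n =
        ∑ e ∈ E.filter (· ∣ g), mu e * U e g := by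
      simp only [hU, mul_sum]
      rw [sum_comm]
      refine sum_congr rfl fun n _ => ?_
      simp only [sum_mul, mul_sum]
      rw [sum_comm]
      refine sum_congr rfl fun d hd => ?_
      rw [TS2P.cop_eq hg1 (hS d hd).1.1.ne_zero (hS d hd).2]
      simp only [sum_mul, mul_sum]
      refine sum_congr rfl fun e _ => ?_
      split_ifs <;> ring
    rw [e1]
    refine (TS2P.sq_le _ _).trans (mul_le_mul (hc g E hg1.ne_zero ?_)
      (sum_le_sum_of_subset_of_nonneg (filter_subset _ _) fun _ _ _ => by positivity)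
      (sum_nonneg fun _ _ => by positivity) (by positivity))
    linarith [(hs g hg).2]
  have h2 : ∑ e ∈ E, n2 S (fun d => if e ∣ d then F d else 0) ≤ D * Z * n2 S F := by
    unfold n2
    rw [sum_comm, mul_sum]
    refine sum_le_sum fun d hd => ?_
    have e2 : ∑ e ∈ E, ‖(if e ∣ d then F d else 0)‖ ^ 2 =
        ((E.filter (· ∣ d)).card : ℝ) * ‖F d‖ ^ 2 := by
      rw [← nsmul_eq_mul, ← sum_const, sum_filter (s := E)]
      refine sum_congr rfl fun e _ => ?_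
      split_ifs <;> simp
    rw [e2]
    refine mul_le_mul_of_nonneg_right (hc d E (hS d hd).1.1.ne_zero ?_) (by positivity)
    linarith [(hS d hd).2]
  have h3 : (1 + G + P + W) ^ ε = Z * Z * Z := by
    rw [hZ, ← Real.rpow_add (by positivity), ← Real.rpow_add (by positivity)]
    congr 1
    ring
  calc _ ≤ ∑ g ∈ s, D * Z * ∑ e ∈ E, ‖U e g‖ ^ 2 := sum_le_sum h1
    _ = D * Z * ∑ e ∈ E, ∑ g ∈ s, ‖U e g‖ ^ 2 := by rw [← mul_sum, sum_comm]
    _ ≤ D * Z * ∑ e ∈ E, C * Z * Mb G P W * n2 S (fun d => if e ∣ d then F d else 0) :=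
        mul_le_mul_of_nonneg_left (sum_le_sum fun e _ =>
          H x G P W s S I θ _ hG hP hW hs hS hθ hI) (by positivity)
    _ ≤ D * Z * (C * Z * Mb G P W * (D * Z * n2 S F)) := by
        rw [← mul_sum]
        exact mul_le_mul_of_nonneg_left (mul_le_mul_of_nonneg_left h2 (by positivity))
          (by positivity)
    _ = _ := by rw [h3]; ring

end Pool.Agent.P.MP_323ce2_nt.QW
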