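import Pool.Agent.P.MP_323ce2_nt.QW.St
import Pool.Agent.P.MP_26a8c3_nt.QT.All
import Pool.Agent.P.MP_26a8c3_nt.QV.Th

/-! Existence of the theta coefficients with the sharper information. -/

namespace Pool.Agent.P.MP_323ce2_nt.QW

open Pool.Agent.P.MP_26a8c3_nt Pool.Agent.P.MP_26a8c3_nt.QO Pool.Agent.P.MP_26a8c3_nt.QA
open Pool.Agent.P.MP_26a8c3_nt.QV Pool.Agent.P.MP_26a8c3_nt.QT
open scoped Classical ComplexConjugate

namespace Th2P

theorem parts (A : Alg) : S_As ∧ S_Hec ∧ S_Hk ∧ S_Vor ∧ S_Nz :=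
  have hb := pBd A
  have hf := pFour A hb
  have hi := pInn hb hf pOrth (pCst A)
  have hc := pCls hb pTr
  have hh := pHec A (pGs A) hf
  have hk := pHk A hh
  have ha := pAut hb pTr pCont (pLoc hf pOrth pCont)
  ⟨pAs hf (pCst A) (pCoef hf pOrth (pBox1 hb pTr hi hc) (pBox2 hb pTr hi hc)), hh, hk,
    pVor2 A ha, pNz hk ha⟩

end Th2P

open GlueP in
theorem pTh2 (A : Alg) (hL : S_Lam) (hK : S_Ker) : S_Th2 := by
  obtain ⟨⟨As, h⟩, hh, hk, hv, hn⟩ := Th2P.parts A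
  obtain ⟨u, k, hu, h0⟩ := hn As h
  obtain ⟨C, hC⟩ := ta_le h
  obtain ⟨D, hD⟩ := hL As h
  have C0 : 0 ≤ C := by simpa using (norm_nonneg _).trans (hC 0 1 one_ne_zero)
  have le : ∀ x n, n ≠ 0 → ‖ta As x n‖ ≤ max C D * ab n := fun x n hn =>
    (hC x n hn).trans (mul_le_mul_of_nonneg_right (le_max_left _ _) (ab_nonneg n))
  have vor : ∀ (γ α δ : O) (X t : ℝ), γ ≠ 0 → 0 < X → Primary α → 9 * γ ∣ α * δ - 1 →
      Lh (ta As) (fun n => el (n * α) (9 * γ)) X t =
        ang γ ^ 2 * (X : ℂ) ^ (1 / 2 + t * Complex.I) * chi α γ *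
          Rh (ta As) J γ (fun n => el (-(n * δ)) (9 * γ)) t (X * B0 ^ 2 / (N γ : ℝ) ^ 2) := by
    rintro γ α δ X t hγ hX hα ⟨l, hl⟩
    have h := voronoi (a := fun n => ang n * ta As 0 n * el (n * α) (9 * γ)) (r := ab)
      (b := fun n => conj (ang n) * ta As γ n * el (-(n * δ)) (9 * γ)) (r' := ab)
      (c := ang γ ^ 2 * chi α γ) B0_pos (N_pos_real hγ)
      (fun n h => ab_pos fun e => h (by simp [e, ang]))
      (fun n h => ab_pos fun e => h (by simp [e, ang]))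
      (ThP.summ (C := C) fun n h => by simpa [norm_ang h] using hC 0 n h)
      (ThP.summ (C := C) fun n h => by simpa [norm_ang h] using hC γ n h)
      (fun v hv0 => by
        have := hv As h α (9 * l) γ δ v (by linear_combination hl) hα (dvd_mul_right _ _) hγ hv0
        push_cast at this ⊢
        rw [this]
        ring) hX t
    simp only [ab_sq] at h
    rw [Lh, h, Rh]
    simp only [mul_right_comm _ (ab _ : ℂ)⁻¹]
    ring
  have B0p := B0_pos
  refine ⟨ta As, B0 ^ 2, max C D, J, ⟨by positivity, C0.trans (le_max_left _ _),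
    ⟨u * lam ^ k, lp_iff.2 ⟨u, k, hu, rfl⟩, h0⟩, fun x y hxy => ?_, fun x n c d hn hc hd => ?_,
    fun x n m hn hm h' => ?_, le, (hh As h).2.2.2, ThP.kr_J, fun γ X t hγ hX =>
      ⟨ang γ ^ 2 * (X : ℂ) ^ (1 / 2 + t * Complex.I), ?_, fun α δ => vor γ α δ X t hγ hX⟩⟩,
    fun x n hn => ?_, hK, vor⟩
  · funext m
    simp only [ta, h.cusp x y hxy]
  · obtain ⟨u, k, hu, rfl⟩ := lp_iff.1 hn
    rw [(hk As h x u k hu).1 c d hc hd, conj_nine, chi_mul c 3]
    ring
  · obtain ⟨u, k, hu, rfl⟩ := lp_iff.1 hn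
    exact (hk As h x u k hu).2 m hm h'
  · rw [norm_mul, norm_pow, norm_ang hγ, Complex.norm_cpow_eq_rpow_re_of_pos hX,
      one_pow, one_mul, ← Real.rpow_natCast, ← Real.rpow_mul hX.le]
    simp
  · have n0 : n ≠ 0 := by
      obtain ⟨l, hl⟩ := hn
      exact ne_zero_of_dvd_ne_zero (pow_ne_zero l lam_ne_zero) hl
    have h1 := one_le_N n0
    have h2 : ab n ≤ N n := by
      rw [ab_eq]
      exact Real.sqrt_le_iff.2 ⟨by positivity, by nlinarith⟩
    have := ab_nonneg n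
    rw [ta, norm_mul, Complex.norm_real, Real.norm_of_nonneg (by positivity)]
    gcongr
    exact (hD x n hn).trans (le_max_right _ _)

end Pool.Agent.P.MP_323ce2_nt.QW
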