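import Pool.Agent.P.MP_323ce2_nt.QW.St
import Pool.Agent.P.MP_26a8c3_nt.QV.Tw

/-! The twist of one fraction by a character, with the explicit phase. -/

namespace Pool.Agent.P.MP_323ce2_nt.QW

open Finset Pool.Agent.P.MP_26a8c3_nt Pool.Agent.P.MP_26a8c3_nt.QO Pool.Agent.P.MP_26a8c3_nt.QA
open Pool.Agent.P.MP_26a8c3_nt.QV Pool.Agent.P.MP_26a8c3_nt.QV.TwP
open scoped Classical ComplexConjugate

namespace Tw2P

theorem inv {k u x y : O} {σ : O → ℂ} (h : IsNu k σ) (e : k ∣ u * x * y - 1) :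
    σ x = conj (σ u) * conj (σ y) := by
  have h1 : σ u * σ x * σ y = 1 := by rw [← h.mul, ← h.mul, h.per _ 1 e, h.one]
  have c : IsCoprime (u * y) k := by
    obtain ⟨b, hb⟩ := e
    exact ⟨x, -b, by linear_combination hb⟩
  have h2 := h.mul_conj c
  rw [h.mul, map_mul] at h2
  linear_combination (conj (σ u) * conj (σ y)) * h1 - σ x * h2

end Tw2P

theorem pTw2 (A : Alg) (hS : S_Sum) : S_Tw2 := by
  intro T c₀ C₀ J hT2 a q δ h ρ X t hX hq ha hp hc hρ hd
  have hT := hT2.th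
  have h0 := hp.ne_zero
  have hσ : IsNu h fun x => ρ x * chi h x := hρ.mul' (isNu_chi h0) dvd_rfl
  have c9 : IsCoprime (9 * q) h := by
    refine IsCoprime.mul_left ?_ hc.symm
    simpa [show (3 : O) ^ 2 = 9 by norm_num] using (hp.isCoprime_three.symm.pow_left (m := 2))
  set β := X * c₀ / ((N q : ℝ) * N h) ^ 2 with hβ
  have β0 : 0 < β := div_pos (mul_pos hX hT.pos) (pow_pos (mul_pos (N_pos_real hq) (N_pos_real h0)) 2)
  set ω := ang (q * h) ^ 2 * (X : ℂ) ^ (1 / 2 + t * Complex.I) *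
    (chi (a * h) q * chi h (9 * q) * conj (ρ ((9 * q) ^ 2) * chi h ((9 * q) ^ 2))) with hω
  have e1 := tsum_sm h0 ρ (z := fun n => n)
    (a := fun n => ang n * T 0 n * el (n * a) (9 * q) * W X t (N n)) fun x =>
      (hS.1 T c₀ C₀ J hT (fun n => el (n * a) (9 * q) * el (n * x) h) 1 X t (by simp) hX).congr
        fun n => by ring
  have e2 := tsum_sm h0 (fun x => conj (ρ x * chi h x)) (z := fun n => -n)
    (a := fun n => conj (ang n) * T q n * (ab n : ℂ)⁻¹ * el (-(n * δ)) (9 * q) * J t (N n * β))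
    fun x => (hS.2 T c₀ C₀ J hT q (fun n => el (-(n * δ)) (9 * q) * el (-n * x) h) 1 t β (by simp)
      β0).congr fun n => by ring
  have e3 := swap (u := (9 * q) ^ 2) h0 c9.pow_left
    (f := fun x => ρ x * ∑' n, ang n * T 0 n * el (n * a) (9 * q) * W X t (N n) * el (n * x) h)
    (g := fun y => ω * (conj (ρ y * chi h y) * ∑' n, conj (ang n) * T q n * (ab n : ℂ)⁻¹ *
      el (-(n * δ)) (9 * q) * J t (N n * β) * el (-n * y) h))
    (fun x k => by rw [hρ.zero x k, zero_mul])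
    (fun x k => by rw [hρ.zero x k, zero_mul, map_zero, zero_mul, mul_zero]) fun x y k => by
      obtain ⟨α, b, γ, d, k1, k2, ⟨b', rfl⟩, rfl, k5, k6, k7, k8⟩ := cusp A.r1 A.r2 (a₂ := x)
        (a₃ := y) (d₁ := δ) ha hq hp hc (by rwa [show δ * a * h ^ 2 = a * h ^ 2 * δ by ring])
        (by rwa [show 81 * q ^ 2 * x * y = (9 * q) ^ 2 * x * y by ring])
      have k9 := hT2.vor (q * h) α d X t (mul_ne_zero hq h0) hX k2 ⟨b', by linear_combination k1⟩
      simp only [Lh, Rh, k6, k7, k8, hT.per _ _ k5, map_mul N, Nat.cast_mul] at k9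
      have l2 := Tw2P.inv hσ k
      rw [show (∑' n, ang n * T 0 n * el (n * a) (9 * q) * W X t (N n) * el (n * x) h) = _ from
        (tsum_congr fun n => by ring).trans k9, hω]
      rw [show (∑' n, conj (ang n) * T q n * (ab n : ℂ)⁻¹ * el (-(n * δ)) (9 * q) * J t (N n * β) *
        el (-n * y) h) = ∑' n, conj (ang n) * T q n * (ab n : ℂ)⁻¹ *
          (el (-(n * δ)) (9 * q) * el (-(n * y)) h) * J t (N n * β) from
        tsum_congr fun n => by rw [neg_mul n y]; ring]
      linear_combination (ang (q * h) ^ 2 * (X : ℂ) ^ (1 / 2 + t * Complex.I) *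
        (chi (a * h) q * chi h (9 * q)) * ∑' n, conj (ang n) * T q n * (ab n : ℂ)⁻¹ *
          (el (-(n * δ)) (9 * q) * el (-(n * y)) h) * J t (N n * β)) * l2
  rw [e1, sm_mul_left, e2] at e3
  rw [Lh, Rh]
  refine ((tsum_congr fun n => by ring).trans e3).trans ?_
  congr 1
  exact tsum_congr fun n => by ring

end Pool.Agent.P.MP_323ce2_nt.QW
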