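import Pool.Agent.P.MP_323ce2_nt.QW.St
import Pool.Agent.P.MP_26a8c3_nt.QO.Sym

/-! The twist of one fraction with the three parts of the modulus separated. -/

namespace Pool.Agent.P.MP_323ce2_nt.QW

open Finset Pool.Agent.P.MP_26a8c3_nt Pool.Agent.P.MP_26a8c3_nt.QO Pool.Agent.P.MP_26a8c3_nt.QA
open Pool.Agent.P.MP_26a8c3_nt.QV
open scoped Classical ComplexConjugate

namespace Tw3P

lemma le1 {a b : ℂ} (ha : ‖a‖ ≤ 1) (hb : ‖b‖ ≤ 1) : ‖a * b‖ ≤ 1 := by
  rw [norm_mul]; exact mul_le_one₀ ha (norm_nonneg _) hb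

lemma lec {a : ℂ} (ha : ‖a‖ ≤ 1) : ‖conj a‖ ≤ 1 := by rwa [Complex.norm_conj]

lemma led {a b : ℂ} (h : ‖a‖ = ‖b‖) : ‖a / b‖ ≤ 1 := by rw [norm_div, h]; exact div_self_le_one _

lemma lea (x : O) : ‖ang x ^ 2‖ ≤ 1 := by
  rw [norm_pow]; exact pow_le_one₀ (norm_nonneg _) (norm_ang_le x)

lemma nu_mul {a b : O} {ρ σ : O → ℂ} (h : IsNu a ρ) (h' : IsNu b σ) :
    IsNu (a * b) fun x => ρ x * σ x :=
  ⟨by rw [h.one, h'.one, one_mul], fun x y => by rw [h.mul, h'.mul]; ring,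
    fun x y e => by
      rw [h.per x y ((dvd_mul_right a b).trans e), h'.per x y ((dvd_mul_left b a).trans e)],
    fun x e => by
      by_cases h1 : IsCoprime x a
      · rw [h'.zero x fun h2 => e (h1.mul_right h2), mul_zero]
      · rw [h.zero x h1, zero_mul],
    fun x => le1 (h.le x) (h'.le x)⟩

lemma ft2 (A : Alg) {a b : O} {ρ σ : O → ℂ} (ha : a ≠ 0) (hb : b ≠ 0) (hc : IsCoprime a b)
    (h : IsNu a ρ) (h' : IsNu b σ) (n : O) :
    ft (fun x => ρ x * σ x) (a * b) n = ρ b * σ a * (ft ρ a n * ft σ b n) := by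
  rw [A.ft.1 a b n ρ σ ha hb hc h.per h'.per]
  simp only [h.mul, h'.mul, ft, mul_assoc, sm_mul_left]
  ring

lemma ft3 (A : Alg) {a b c : O} {ρ σ τ : O → ℂ} (ha : a ≠ 0) (hb : b ≠ 0) (hc : c ≠ 0)
    (hab : IsCoprime a b) (hac : IsCoprime a c) (hbc : IsCoprime b c)
    (h : IsNu a ρ) (h' : IsNu b σ) (h'' : IsNu c τ) (n : O) :
    ft (fun x => ρ x * σ x * τ x) (a * b * c) n =
      ρ b * ρ c * (σ a * σ c) * (τ a * τ b) * (ft ρ a n * ft σ b n * ft τ c n) := by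
  rw [ft2 A (mul_ne_zero ha hb) hc (hac.mul_left hbc) (nu_mul h h') h'', ft2 A ha hb hab h h',
    h''.mul]
  ring

lemma Lh_mul (T : O → O → ℂ) (c : ℂ) (F : O → ℂ) (X t : ℝ) :
    Lh T (fun n => c * F n) X t = c * Lh T F X t := by
  rw [Lh, Lh, ← tsum_mul_left]
  exact tsum_congr fun n => by ring

lemma Rh_mul (T : O → O → ℂ) (J : ℝ → ℝ → ℂ) (x : O) (c : ℂ) (F : O → ℂ) (t β : ℝ) :
    Rh T J x (fun n => c * F n) t β = c * Rh T J x F t β := by
  rw [Rh, Rh, ← tsum_mul_left]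
  exact tsum_congr fun n => by ring

lemma psi_chi {g : O} (hg : g ≠ 0) (x : O) : conj (psi g x * chi g x) = eta g x := by
  have h : psi g x * chi g x = eta g x := by
    rw [← psi_sq hg, ← pow_succ', psi_cube hg]
  rw [h, conj_eta]

lemma cop_chi {d : O} (hd : d ≠ 0) (x : O) : cop d x * chi d x = chi d x := by
  by_cases h : IsCoprime x d
  · rw [cop_of h, one_mul]
  · rw [(chi_eq_zero hd).2 h, mul_zero]

lemma fin {L R p1 p2 p3 p4 c1 c2 c3 c4 G1 G2 G3 G4 aq ag ad x y1 y2 y3 z1 z2 z3 w1 w2 w3 e1 e2 f1 f2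
    s1 s2 m1 m2 r K D : ℂ} (u1 : p1 * c1 = 1) (u2 : p2 * c2 = 1) (u3 : p3 * c3 = 1)
    (u4 : p4 * c4 = 1) (h1 : G1 ≠ 0) (h2 : G2 ≠ 0) (hD : D ≠ 0) (cr : c1 * e1 * f1 = 1)
    (key : p1 * p2 * p3 * p4 * G1 * G2 * L = (aq * ag * ad) ^ 2 * x *
      (y1 * y2 * y3 * (z1 * z2 * z3) * (w1 * w2 * w3)) *
      (e1 * e2 * f1 * f2 * s1 * s2 * m1 * m2 * G3 * G4 * (r * K) * R)) :
    L = r * (K / G2 * aq ^ 2 * y1 * z3 * w3 * c2 * c3 * e2 * s1 * m1 * (G3 / G1) * ag ^ 2 * y2 *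
      z1 * w1) * (c4 * f2 * s2 * m2 * (G4 / D) * ad ^ 2 * y3 * z2 * w2) * D * x * R := by
  have e : L = c1 * c2 * c3 * c4 / (G1 * G2) * (p1 * p2 * p3 * p4 * G1 * G2 * L) := by
    have : L = (p1 * c1) * (p2 * c2) * (p3 * c3) * (p4 * c4) * L := by rw [u1, u2, u3, u4]; ring
    refine this.trans ?_
    field_simp
  have hd : G4 / D * D = G4 := div_mul_cancel₀ _ hD
  generalize G4 / D = k at hd ⊢
  subst hd
  rw [e, key]
  refine Eq.trans ?_ ((congrArg (· * _) cr).trans (one_mul _))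
  ring

end Tw3P

open Tw3P

theorem pTw3 (A : Alg) (hP : S_Prm) (h2 : S_Tw2) : S_Tw3 := by
  intro T c₀ C₀ J hT a q δ k j hq ha hk hkq
  obtain ⟨pj, s, s0, s1, s2, hs⟩ := hP.2.2.2 k j hk
  have kP : Primary k := hk.1.1.1
  have k0 := kP.ne_zero
  set sg : O → ℂ := fun x => conj (psi j x * chi k x) with hsg
  have nsg : IsNu k sg := (pj.nu.mul' (isNu_chi k0) dvd_rfl).conj'
  have hab : ‖((√s : ℝ) : ℂ) * ab k‖ = √s * ab k := by
    rw [norm_mul, Complex.norm_of_nonneg (Real.sqrt_nonneg _), Complex.norm_of_nonneg (ab_nonneg k)]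
  have hft : ∀ n, ‖ft sg k n‖ ≤ √s * ab k := fun n => by
    refine le_of_sq_le_sq ?_ (mul_nonneg (Real.sqrt_nonneg _) (ab_nonneg k))
    rw [mul_pow, Real.sq_sqrt s0, ab_sq]
    exact hs n
  refine ⟨s, fun g => if SQO g then
      (ab k : ℂ) / ft (psi j) k 1 * ang (q * k) ^ 2 * chi (a * k) q * chi k (9 * q) *
        sg ((9 * q) ^ 2) * conj (psi g k) * conj (psi j g) * eta g k * sg g * eta g (-1) *
        (ft (eta g) g 1 / ft (psi g) g 1) * ang g ^ 2 * chi g q * chi g (9 * q) *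
        eta g ((9 * q) ^ 2) else 0,
    fun d => if SQO d then conj (psi j d) * conj (chi d k) * sg d * chi d (-1) *
      (ft (fun x => conj (chi d x)) d 1 / (ab d : ℂ)) * ang d ^ 2 * chi d q * chi d (9 * q) *
        conj (chi d ((9 * q) ^ 2)) else 0,
    fun n => el (-(n * δ)) (9 * q) * (ft sg k (-n) / (((√s : ℝ) : ℂ) * ab k)), s0, s1, s2,
    fun g => ?_, fun d => ?_, fun n => ?_, fun g d X t hX hg hd cg cd cdg hδ => ?_⟩
  · beta_reduce
    split_ifs with hg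
    · have a1 : ‖(ab k : ℂ) / ft (psi j) k 1‖ ≤ 1 :=
        led (by rw [pj.nm, Complex.norm_of_nonneg (ab_nonneg k)])
      have a2 : ‖ft (eta g) g 1 / ft (psi g) g 1‖ ≤ 1 :=
        led (by rw [(hP.2.2.1 g hg).1.nm, (hP.2.2.1 g hg).2.nm])
      exact le1 (le1 (le1 (le1 (le1 (le1 (le1 (le1 (le1 (le1 (le1 (le1 (le1 (le1 a1 (lea _))
        (norm_chi_le _ _)) (norm_chi_le _ _)) (nsg.le _)) (lec (norm_psi_le _ _)))
        (lec (norm_psi_le _ _))) (norm_eta_le _ _)) (nsg.le _)) (norm_eta_le _ _)) a2) (lea _))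
        (norm_chi_le _ _)) (norm_chi_le _ _)) (norm_eta_le _ _)
    · simp
  · beta_reduce
    split_ifs with hd
    · have a1 : ‖ft (fun x => conj (chi d x)) d 1 / (ab d : ℂ)‖ ≤ 1 :=
        led (by rw [(hP.2.1 d hd.1).2.nm, Complex.norm_of_nonneg (ab_nonneg d)])
      exact le1 (le1 (le1 (le1 (le1 (le1 (le1 (le1 (lec (norm_psi_le _ _))
        (lec (norm_chi_le _ _))) (nsg.le _)) (norm_chi_le _ _)) a1) (lea _)) (norm_chi_le _ _))
        (norm_chi_le _ _)) (lec (norm_chi_le _ _))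
    · simp
  · refine le1 (norm_el _ _).le ?_
    rw [norm_div, hab]
    exact div_le_one_of_le₀ (hft _) (mul_nonneg (Real.sqrt_nonneg _) (ab_nonneg k))
  have gP : Primary g := hg.1.1
  have dP : Primary d := hd.1.1
  have g0 := gP.ne_zero
  have d0 := dP.ne_zero
  have a0 := ha.ne_zero
  have cgk : IsCoprime g k := cg.of_mul_right_right
  have cdk : IsCoprime d k := cd.of_mul_right_right
  obtain ⟨pg, eg⟩ := hP.2.2.1 g hg
  have pd := (hP.2.1 d hd.1).2
  have key := h2 T c₀ C₀ J hT a q δ (g * d * k) (fun x => psi g x * cop d x * psi j x) X t hX hq ha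
    ((gP.mul dP).mul kP) ((cg.of_mul_right_left.mul_left cd.of_mul_right_left).mul_left hkq)
    (nu_mul (nu_mul pg.nu (isNu_cop d)) pj.nu) hδ
  have e0 : ∀ x, conj (psi g x * cop d x * psi j x * chi (g * d * k) x) =
      eta g x * conj (chi d x) * sg x := fun x => by
    rw [chi_mul_left (mul_ne_zero g0 d0) k0, chi_mul_left g0 d0, ← psi_chi g0, ← cop_chi d0 x, hsg]
    simp only [← map_mul]
    congr 1
    have := cop_chi d0 x
    linear_combination (psi g x * psi j x * chi g x * chi k x * cop d x) * this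
  have e1 : ∀ n, el (n * a) (9 * q) * ft (fun x => psi g x * cop d x * psi j x) (g * d * k) n =
      (psi g d * psi g k * psi j g * psi j d * ft (psi g) g 1 * ft (psi j) k 1) *
        (el (n * a) (9 * q) * (conj (psi g n) * cR d n * conj (psi j n))) := fun n => by
    rw [ft3 A g0 d0 k0 cdg.symm cgk cdk pg.nu (isNu_cop d) pj.nu, pg.eq n, pj.eq n,
      cop_of cdg.symm, cop_of cdk.symm, cR]
    ring
  have e3 : ∀ n, ft sg k n = ((√s : ℝ) : ℂ) * ab k * (ft sg k n / (((√s : ℝ) : ℂ) * ab k)) := by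
    intro n
    by_cases h : ((√s : ℝ) : ℂ) * ab k = 0
    · have := hft n
      rw [← hab, h, norm_zero, norm_le_zero_iff] at this
      rw [this, zero_div, mul_zero]
    · rw [mul_div_cancel₀ _ h]
  have e2 : ∀ n, el (-(n * δ)) (9 * q) *
      ft (fun x => eta g x * conj (chi d x) * sg x) (g * d * k) (-n) =
      (eta g d * eta g k * conj (chi d g) * conj (chi d k) * sg g * sg d * eta g (-1) * chi d (-1) *
        ft (eta g) g 1 * ft (fun x => conj (chi d x)) d 1 * (((√s : ℝ) : ℂ) * ab k)) *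
        (el (-(n * δ)) (9 * q) * (ft sg k (-n) / (((√s : ℝ) : ℂ) * ab k)) * chi d n * eta g n) := by
    intro n
    rw [ft3 A g0 d0 k0 cdg.symm cgk cdk eg.nu pd.nu nsg, eg.eq (-n), pd.eq (-n), conj_eta,
      Complex.conj_conj, show eta g (-n) = eta g (-1) * eta g n by rw [← eta_mul, neg_one_mul],
      show chi d (-n) = chi d (-1) * chi d n by rw [← chi_mul, neg_one_mul]]
    conv_lhs => rw [e3 (-n)]
    ring
  simp only [e0, e1, e2, Lh_mul, Rh_mul] at key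
  have u1 := pg.nu.mul_conj cdg
  have u2 := pg.nu.mul_conj cgk.symm
  have u3 := pj.nu.mul_conj cgk
  have u4 := pj.nu.mul_conj cdk
  have G1 : ft (psi g) g 1 ≠ 0 := norm_ne_zero_iff.1 (pg.nm ▸ (ab_pos g0).ne')
  have G2 : ft (psi j) k 1 ≠ 0 := norm_ne_zero_iff.1 (pj.nm ▸ (ab_pos k0).ne')
  have cr : conj (psi g d) * eta g d * conj (chi d g) = 1 := by
    have b1 := eta_sq g0 d
    have b2 := chi_mul_conj g0 d
    rw [cop_of cdg] at b1 b2
    rw [A.r1 d g dP gP, psi, map_mul, conj_eta, Complex.conj_conj]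
    linear_combination (chi g d * conj (chi g d)) * b1 + b2
  rw [show q * (g * d * k) = q * k * g * d by ring, show a * (g * d * k) = a * k * g * d by ring,
    ang_mul _ d, ang_mul _ g, chi_mul_left (mul_ne_zero (mul_ne_zero a0 k0) g0) d0,
    chi_mul_left (mul_ne_zero a0 k0) g0, chi_mul_left (mul_ne_zero g0 d0) k0,
    chi_mul_left g0 d0] at key
  beta_reduce
  rw [if_pos hg, if_pos hd]
  exact fin u1 u2 u3 u4 G1 G2 (ab_neC d0) cr key

end Pool.Agent.P.MP_323ce2_nt.QW
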