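import Pool.Agent.P.MP_323ce2_nt.QW.Ball6
import Pool.Agent.P.MP_323ce2_nt.QW.BL
import Pool.Agent.P.MP_323ce2_nt.QW.CLS
import Pool.Agent.P.MP_323ce2_nt.QW.Core
import Pool.Agent.P.MP_323ce2_nt.QW.D2
import Pool.Agent.P.MP_323ce2_nt.QW.Dec6
import Pool.Agent.P.MP_323ce2_nt.QW.Dya
import Pool.Agent.P.MP_323ce2_nt.QW.Exp2
import Pool.Agent.P.MP_323ce2_nt.QW.Gau2
import Pool.Agent.P.MP_323ce2_nt.QW.Ins2
import Pool.Agent.P.MP_323ce2_nt.QW.Ker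
import Pool.Agent.P.MP_323ce2_nt.QW.Lam
import Pool.Agent.P.MP_323ce2_nt.QW.Lev
import Pool.Agent.P.MP_323ce2_nt.QW.Prm
import Pool.Agent.P.MP_323ce2_nt.QW.Ram
import Pool.Agent.P.MP_323ce2_nt.QW.Red6
import Pool.Agent.P.MP_323ce2_nt.QW.Th2
import Pool.Agent.P.MP_323ce2_nt.QW.TS1
import Pool.Agent.P.MP_323ce2_nt.QW.TS2
import Pool.Agent.P.MP_323ce2_nt.QW.Tw2
import Pool.Agent.P.MP_323ce2_nt.QW.Tw3
import Pool.Agent.P.MP_323ce2_nt.QW.WLS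
import Pool.Agent.P.MP_323ce2_nt.QS.All
import Pool.Agent.P.MP_26a8c3_nt.QV.Sum
import Pool.Agent.P.MP_26a8c3_nt.QV.Har
import Pool.Agent.P.MP_26a8c3_nt.QO.All

/-! The Voronoi bound with levels: assembly. -/

namespace Pool.Agent.P.MP_323ce2_nt.QW

open Pool.Agent.P.MP_26a8c3_nt Pool.Agent.P.MP_26a8c3_nt.QO Pool.Agent.P.MP_26a8c3_nt.QV

theorem vdA (A : Alg) : S_VD :=
  have h1 := pTS1 A pHar (pCLS A (pPrm A)) (pBL pHar (pWLS (QS.optF A)))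
  have h2 := pCore (pTw3 A (pPrm A) (pTw2 A pSum)) (pD2 (pTS2 h1))
  have h3 := pLev pSum pHar (pRam A) (pExp2 pSum (pRam A) h2)
  vd_of (pTh2 A (pLam A) pKer) (pBall6 pHar (pIns2 A) (pDya h3)) (pRed6 pDec6) pGau2

theorem vd : S_VD := vdA alg

end Pool.Agent.P.MP_323ce2_nt.QW
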