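import Pool.Agent.P.MP_323ce2_nt.QW.St
import Pool.Agent.P.MP_26a8c3_nt.QO.Div

/-! Summation over the sixth power free moduli. -/

namespace Pool.Agent.P.MP_323ce2_nt.QW

open Finset Pool.Agent.P.MP_26a8c3_nt Pool.Agent.P.MP_26a8c3_nt.QO Pool.Agent.P.MP_26a8c3_nt.QA
open Pool.Agent.P.MP_26a8c3_nt.QV
open scoped Classical ComplexConjugate

namespace Ball6P

lemma scale {s₀ ε : ℝ} (hs : 0 < s₀) (hε : 0 ≤ ε) : ∃ K : ℝ, 0 ≤ K ∧ ∀ C H X P t : ℝ, 0 ≤ C →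
    0 < H → 0 < X → 0 ≤ P → RH C ε H (X * s₀) P t ≤ K * RH C ε H X P t := by
  obtain ⟨K, K1, K2, K3⟩ : ∃ K : ℝ, 1 ≤ K ∧ s₀ ≤ K ∧ s₀⁻¹ ≤ K :=
    ⟨max 1 (max s₀ s₀⁻¹), le_max_left _ _, le_max_of_le_right (le_max_left _ _),
      le_max_of_le_right (le_max_right _ _)⟩
  refine ⟨K ^ ε * K * K, by positivity, fun C H X P t hC hH hX hP => ?_⟩
  have up : ∀ y : ℝ, 0 ≤ y → y ≤ K * y := fun y hy => le_mul_of_one_le_left hy K1
  have a1 : H ^ 2 * P / (X * s₀) ≤ K * (H ^ 2 * P / X) := by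
    rw [← div_div, div_eq_inv_mul _ s₀]; gcongr
  have a2 : P * (H * (X * s₀)) ^ (1 / 3 : ℝ) ≤ K * (P * (H * X) ^ (1 / 3 : ℝ)) := by
    rw [← mul_assoc H, Real.mul_rpow (by positivity) hs.le, ← mul_assoc P, mul_comm K]
    gcongr
    calc s₀ ^ (1 / 3 : ℝ) ≤ K ^ (1 / 3 : ℝ) := by gcongr
      _ ≤ K ^ (1 : ℝ) := Real.rpow_le_rpow_of_exponent_le K1 (by norm_num)
      _ = K := Real.rpow_one K
  have a3 : H * P ^ 2 / √(X * s₀) ≤ K * (H * P ^ 2 / √X) := by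
    rw [Real.sqrt_mul hX.le, ← div_div, div_eq_inv_mul _ (√s₀), ← Real.sqrt_inv]
    gcongr
    exact Real.sqrt_le_iff.2 ⟨by linarith, K3.trans (by nlinarith)⟩
  have b1 : ZZ H (X * s₀) P ≤ K * ZZ H X P := by
    unfold ZZ; linarith [up 2 two_pos.le, up H hH.le, up P hP]
  have b2 : BB H (X * s₀) P ≤ K * BB H X P := by
    unfold BB; linarith [up H hH.le]
  have z0 : 0 ≤ ZZ H (X * s₀) P := by unfold ZZ; positivity
  have z1 : 0 ≤ ZZ H X P := by unfold ZZ; positivity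
  have z2 : 0 ≤ BB H (X * s₀) P := by unfold BB; positivity
  unfold RH
  calc _ ≤ C * (1 + |t|) ^ 16 * (K * ZZ H X P) ^ ε * (X * K) * (K * BB H X P) := by gcongr
    _ = _ := by rw [Real.mul_rpow (by linarith) z1]; ring

lemma Bd_filter {Q : O} {ν : O → ℂ} (hν : IsNu Q ν) (h : O) (S : Finset O) (F : O → ℂ) (X t : ℝ) :
    Bd ν h S F X t = Bd ν h (S.filter (IsCoprime · Q)) F X t := by
  rw [Bd, Bd, sum_filter]
  refine sum_congr rfl fun D _ => ?_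
  split_ifs with hD
  · rfl
  · rw [mul_eq_zero]
    refine Or.inr ((tsum_congr fun x => ?_).trans tsum_zero)
    split_ifs with hx
    · rw [Phi, hν.zero _ fun e => hD (e.of_isCoprime_of_dvd_left hx.2.2)]; simp
    · rfl

end Ball6P

open Ball6P in
theorem pBall6 (hH : S_Har) (h1 : S_Ins2) (h2 : S_Dya) : S_Ball6 := by
  intro T c₀ C₀ J hT Q hQ h36 ε hε
  obtain ⟨m₀, s₀, C₁, m0, s0, c1, hm, hI⟩ := h1 T c₀ C₀ J hT
  obtain ⟨C₂, c2, hD⟩ := h2 T c₀ C₀ J hT (m₀ * Q) (mul_ne_zero m0 hQ) (ε / 2) (half_pos hε)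
  obtain ⟨C₃, c3, hS, -⟩ := hH (ε / 4) (by positivity)
  obtain ⟨C₄, c4, hd⟩ := dv_le (ε := ε / 20) (by positivity)
  obtain ⟨K, K0, hK⟩ := scale s0 (half_pos hε).le
  refine ⟨(dvs (Q ^ 5)).card * (C₄ * C₃) * (C₁ * K) * C₂, by positivity,
    fun ν hν H X P t S s F H1 hX hP hS' hs => ?_⟩
  have H0 : 0 < H := by linarith
  have n0 : 0 ≤ n2 S F := sum_nonneg fun _ _ => sq_nonneg _
  have z1 : 0 ≤ BB H X P := by unfold BB; positivity
  have z2 : 1 + H ≤ ZZ H X P := by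
    have : 0 ≤ H ^ 2 * P / X := by positivity
    unfold ZZ; linarith
  have z3 : 0 < ZZ H X P := by linarith
  have r0 : 0 ≤ RH C₂ (ε / 2) H X P t := by unfold RH; positivity
  set E := C₁ * K * RH C₂ (ε / 2) H X P t * n2 S F with hE
  have E0 : 0 ≤ E := by positivity
  let U : O × (Σ _ : O, O) → Finset O := fun x =>
    if Kj x.2.1 x.2.2 ∧ IsCoprime x.2.1 Q then (ball H).filter fun g =>
      SQO g ∧ (N g : ℝ) * N x.2.2 ≤ H ∧ IsCoprime g Q ∧ IsCoprime g x.2.1 else ∅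
  set A := dvs (Q ^ 5) ×ˢ ((ball H).erase 0).sigma fun k => pdiv (k ^ 5) with hA
  have sub : s ⊆ (A.sigma U).image fun y => y.1.1 * y.2 * y.1.2.2 := by
    intro h hh
    obtain ⟨e, h₀, g, k, j, a1, a2, a3, a4, a5, a6, rfl⟩ := hs h hh
    have q5 := pow_ne_zero 5 hQ
    have k0 := a3.1.1.1.ne_zero
    have b0 := one_le_N (ne_zero_of_dvd_ne_zero q5 a1)
    have b1 := one_le_N a2.1.1.ne_zero
    have b2 := one_le_N a3.2.1.ne_zero
    have b3 : (N k : ℝ) ≤ N j := by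
      exact_mod_cast N_le_of_dvd ((dvd_pow_self k two_ne_zero).trans a3.2.2.1) a3.2.1.ne_zero
    rw [map_mul, map_mul, Nat.cast_mul, Nat.cast_mul, mul_assoc] at e
    have e1 : (N g : ℝ) * N j ≤ H := (le_mul_of_one_le_left (by positivity) b0).trans e
    refine mem_image.2 ⟨⟨(h₀, ⟨k, j⟩), g⟩, mem_sigma.2 ⟨mem_product.2 ⟨mem_filter.2 ⟨mem_ball.2
      (by exact_mod_cast N_le_of_dvd a1 q5), a1⟩, mem_sigma.2 ⟨mem_erase.2 ⟨k0, mem_ball.2 ?_⟩,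
      (mem_pdiv (pow_ne_zero 5 k0)).2 ⟨a3.2.1, a3.2.2.2⟩⟩⟩, ?_⟩, rfl⟩
    · show (N k : ℝ) ≤ H
      nlinarith
    · simp only [U]
      rw [if_pos ⟨a3, a5⟩, mem_filter, mem_ball]
      exact ⟨by nlinarith, a2, e1, a4, a6⟩
  have inner : ∀ x ∈ A, ∑ g ∈ U x, ‖Bd ν (x.1 * g * x.2.2) S F X t‖ ^ 2 ≤ E * (N x.2.1 : ℝ)⁻¹ := by
    rintro ⟨h₀, k, j⟩ hx
    simp only [U]
    split_ifs with hk
    swap
    · rw [sum_empty]; positivity
    have a1 : h₀ ∣ Q ^ 5 := (mem_filter.1 (mem_product.1 hx).1).2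
    have a2 : IsCoprime j Q := hk.2.pow_left.of_isCoprime_of_dvd_left hk.1.2.2.2
    have ex : ∀ g, ∃ Φ : O → ℂ, (Per (9 * (m₀ * Q)) Φ ∧ ∀ n, ‖Φ n‖ ≤ 1) ∧ (SQO g → IsCoprime g Q →
        ‖Bd ν (h₀ * g * j) (S.filter (IsCoprime · Q)) F X t‖ ^ 2 ≤
          C₁ * ‖Li T Φ g j (S.filter (IsCoprime · Q)) F (X * s₀) t‖ ^ 2) := fun g => by
      by_cases hg : SQO g ∧ IsCoprime g Q
      · obtain ⟨Φ, p1, p2, p3⟩ := hI Q ν h₀ g j hQ h36 hν a1 hg.1.1.1 hk.1.2.1 hg.2 a2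
        exact ⟨Φ, ⟨p1, p2⟩, fun _ _ => p3 _ F X t hX fun D hD => (hS' D (mem_filter.1 hD).1).1.1⟩
      · exact ⟨fun _ => 0, ⟨per_const _ _, by simp⟩, fun a b => absurd ⟨a, b⟩ hg⟩
    choose Φ p1 p2 using ex
    have k1 := hD k j H P (X * s₀) t ((ball H).filter fun g => SQO g ∧ (N g : ℝ) * N j ≤ H ∧
      IsCoprime g Q ∧ IsCoprime g k) (S.filter (IsCoprime · Q)) F Φ hk.1
      ((hm k hk.1.1).mul_right hk.2) H1 hP (by positivity) (fun g hg => ?_) (fun D hD => ?_) p1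
    · refine (sum_le_sum fun g hg => (Bd_filter hν _ S F X t).symm ▸
        p2 g (mem_filter.1 hg).2.1 (mem_filter.1 hg).2.2.2.1).trans ?_
      rw [← mul_sum]
      have k2 := hK C₂ H X P t c2 H0 hX (by linarith)
      have k3 : n2 (S.filter (IsCoprime · Q)) F ≤ n2 S F :=
        sum_le_sum_of_subset_of_nonneg (filter_subset _ _) fun _ _ _ => sq_nonneg _
      have k4 : 0 ≤ n2 (S.filter (IsCoprime · Q)) F := sum_nonneg fun _ _ => sq_nonneg _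
      calc _ ≤ C₁ * (K * RH C₂ (ε / 2) H X P t * n2 S F / N k) := by
            refine mul_le_mul_of_nonneg_left (k1.trans ?_) c1
            gcongr
        _ = _ := by rw [hE]; ring
    · obtain ⟨-, g1, g2, g3, g4⟩ := mem_filter.1 hg
      exact ⟨g1, g2, ((hm g g1).mul_right g3).mul_right g4⟩
    · obtain ⟨d1, d2⟩ := mem_filter.1 hD
      have d3 : SQO D := ⟨(hS' D d1).1,
        d2.of_isCoprime_of_dvd_right (Dvd.dvd.trans ⟨18, by norm_num⟩ h36)⟩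
      exact ⟨d3, (hS' D d1).2, (hm D d3).mul_right d2⟩
  have w : ∑ k ∈ (ball H).erase 0, dv (k ^ 5) * (N k : ℝ)⁻¹ ≤ C₄ * C₃ * ZZ H X P ^ (ε / 2) := by
    calc _ ≤ ∑ k ∈ (ball H).erase 0, C₄ * ZZ H X P ^ (ε / 4) * (N k : ℝ)⁻¹ := by
          refine sum_le_sum fun k hk => mul_le_mul_of_nonneg_right
            ((hd _ (pow_ne_zero 5 (mem_erase.1 hk).1)).trans ?_) (by positivity)
          have := mem_ball.1 (mem_erase.1 hk).2
          rw [map_pow, Nat.cast_pow, ← Real.rpow_natCast, ← Real.rpow_mul (Nat.cast_nonneg _),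
            show ((5 : ℕ) : ℝ) * (ε / 20) = ε / 4 by push_cast; ring]
          gcongr
          linarith
      _ ≤ C₄ * ZZ H X P ^ (ε / 4) * (C₃ * ZZ H X P ^ (ε / 4)) := by
          rw [← mul_sum]
          refine mul_le_mul_of_nonneg_left (le_trans (sum_le_sum_of_subset_of_nonneg
            (erase_subset _ _) fun _ _ _ => by positivity) ((hS H H0.le).trans ?_)) (by positivity)
          gcongr
      _ = _ := by rw [show ε / 2 = ε / 4 + ε / 4 by ring, Real.rpow_add z3]; ring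
  calc ∑ h ∈ s, ‖Bd ν h S F X t‖ ^ 2
      ≤ ∑ y ∈ A.sigma U, ‖Bd ν (y.1.1 * y.2 * y.1.2.2) S F X t‖ ^ 2 :=
        (sum_le_sum_of_subset_of_nonneg sub fun _ _ _ => sq_nonneg _).trans
          (sum_image_le_of_nonneg fun _ _ => sq_nonneg _)
    _ ≤ ∑ x ∈ A, E * (N x.2.1 : ℝ)⁻¹ := by rw [sum_sigma]; exact sum_le_sum inner
    _ = (dvs (Q ^ 5)).card * (E * ∑ k ∈ (ball H).erase 0, dv (k ^ 5) * (N k : ℝ)⁻¹) := by
        rw [hA, sum_product, mul_sum]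
        simp only [sum_sigma, sum_const, nsmul_eq_mul, dv]
        congr 1
        exact sum_congr rfl fun _ _ => by ring
    _ ≤ (dvs (Q ^ 5)).card * (E * (C₄ * C₃ * ZZ H X P ^ (ε / 2))) := by gcongr
    _ = _ := by
        rw [hE, RH, RH, show ZZ H X P ^ ε = ZZ H X P ^ (ε / 2) * ZZ H X P ^ (ε / 2) by
          rw [← Real.rpow_add z3, add_halves]]
        ring

end Pool.Agent.P.MP_323ce2_nt.QW
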