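import Pool.Agent.P.MP_323ce2_nt.QW.St
import Pool.Agent.P.MP_26a8c3_nt.QO.Div
import Pool.Agent.P.MP_26a8c3_nt.QV.Sep

/-! Monotonicity and scaling of the bounds. -/

namespace Pool.Agent.P.MP_323ce2_nt.QW

open Finset Pool.Agent.P.MP_26a8c3_nt Pool.Agent.P.MP_26a8c3_nt.QO
open scoped Classical ComplexConjugate

variable {C ε H X P t : ℝ}

lemma two_le_ZZ (hH : 0 ≤ H) (hX : 0 < X) (hP : 0 ≤ P) : 2 ≤ ZZ H X P := by
  have : 0 ≤ H ^ 2 * P / X := by positivity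
  rw [ZZ]; linarith

lemma one_le_ZZ (hH : 0 ≤ H) (hX : 0 < X) (hP : 0 ≤ P) : 1 ≤ ZZ H X P :=
  one_le_two.trans (two_le_ZZ hH hX hP)

lemma H_le_ZZ (hX : 0 < X) (hP : 0 ≤ P) : H ≤ ZZ H X P := by
  have : 0 ≤ H ^ 2 * P / X := by positivity
  rw [ZZ]; linarith

lemma P_le_ZZ (hH : 0 ≤ H) (hX : 0 < X) (hP : 0 ≤ P) : P ≤ ZZ H X P := by
  have : 0 ≤ H ^ 2 * P / X := by positivity
  rw [ZZ]; linarith

lemma BB_nonneg (hH : 0 ≤ H) (hX : 0 < X) (hP : 0 ≤ P) : 0 ≤ BB H X P := by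
  rw [BB]; positivity

lemma RH_nonneg (hC : 0 ≤ C) (hH : 0 ≤ H) (hX : 0 < X) (hP : 0 ≤ P) : 0 ≤ RH C ε H X P t := by
  have := BB_nonneg hH hX hP
  have := one_le_ZZ hH hX hP
  rw [RH]; positivity

/-- comparison of two bounds -/
lemma RH_le {H' X' P' a b : ℝ} (hC : 0 ≤ C) (hε : 0 ≤ ε) (hH : 0 ≤ H') (hX : 0 < X') (hP : 0 ≤ P')
    (ha : 0 ≤ a) (hZ0 : 0 ≤ ZZ H X P) (hZ : ZZ H' X' P' ≤ a * ZZ H X P)
    (hB : X' * BB H' X' P' ≤ b * (X * BB H X P)) :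
    RH C ε H' X' P' t ≤ a ^ ε * b * RH C ε H X P t := by
  have h1 := one_le_ZZ hH hX hP
  have h2 := BB_nonneg hH hX hP
  have h3 : ZZ H' X' P' ^ ε ≤ a ^ ε * ZZ H X P ^ ε := by
    rw [← Real.mul_rpow ha hZ0]; gcongr
  calc RH C ε H' X' P' t = C * (1 + |t|) ^ 16 * (ZZ H' X' P' ^ ε * (X' * BB H' X' P')) := by
        rw [RH]; ring
    _ ≤ C * (1 + |t|) ^ 16 * (a ^ ε * ZZ H X P ^ ε * (b * (X * BB H X P))) := by gcongr
    _ = _ := by rw [RH]; ring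

lemma RH_monoP {P' : ℝ} (hC : 0 ≤ C) (hε : 0 ≤ ε) (hH : 0 ≤ H) (hX : 0 < X) (hP : 0 ≤ P')
    (h : P' ≤ P) : RH C ε H X P' t ≤ RH C ε H X P t := by
  have := RH_le (H := H) (X := X) (P := P) (t := t) (a := 1) (b := 1) hC hε hH hX hP zero_le_one
    (zero_le_one.trans (one_le_ZZ hH hX (hP.trans h))) (by rw [one_mul, ZZ, ZZ]; gcongr)
    (by rw [one_mul, BB, BB]; gcongr)
  simpa using this

lemma RH_mono {C' ε' : ℝ} (hC : 0 ≤ C) (h1 : C ≤ C') (h2 : ε ≤ ε') (hH : 0 ≤ H) (hX : 0 < X)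
    (hP : 0 ≤ P) : RH C ε H X P t ≤ RH C' ε' H X P t := by
  have := BB_nonneg hH hX hP
  have := one_le_ZZ hH hX hP
  have := hC.trans h1
  rw [RH, RH]; gcongr

lemma RH_mul (C₁ ε₁ : ℝ) (hH : 0 ≤ H) (hX : 0 < X) (hP : 0 ≤ P) :
    C₁ * ZZ H X P ^ ε₁ * RH C ε H X P t = RH (C₁ * C) (ε₁ + ε) H X P t := by
  rw [RH, RH, Real.rpow_add (one_pos.trans_le (one_le_ZZ hH hX hP))]; ring

lemma RH_const (C₁ : ℝ) : C₁ * RH C ε H X P t = RH (C₁ * C) ε H X P t := by rw [RH, RH]; ring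

lemma third_le {u : ℝ} (hu : 1 ≤ u) : u ^ (1 / 3 : ℝ) ≤ u := by
  simpa using Real.rpow_le_rpow_of_exponent_le hu (show (1 / 3 : ℝ) ≤ 1 by norm_num)

lemma RH_div {u : ℝ} (hC : 0 ≤ C) (hε : 0 ≤ ε) (hH : 0 ≤ H) (hX : 0 < X) (hP : 0 ≤ P)
    (hu : 1 ≤ u) : RH C ε H (X * u) (P / u) t ≤ u * RH C ε H X P t := by
  have u0 : 0 < u := one_pos.trans_le hu
  have h1 : P / u ≤ P := div_le_self hP hu
  have h2 : X ≤ X * u := le_mul_of_one_le_right hX.le hu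
  have h3 : P / u * (H * (X * u)) ^ (1 / 3 : ℝ) ≤ P * (H * X) ^ (1 / 3 : ℝ) := by
    rw [← mul_assoc, Real.mul_rpow (by positivity) u0.le, div_mul_eq_mul_div, div_le_iff₀ u0,
      mul_assoc]
    gcongr
    exact third_le hu
  have := RH_le (H := H) (X := X) (P := P) (H' := H) (X' := X * u) (P' := P / u) (t := t) (a := 1)
    (b := u) hC hε hH (by positivity) (by positivity) zero_le_one
    (zero_le_one.trans (one_le_ZZ hH hX hP)) (by rw [one_mul, ZZ, ZZ]; gcongr)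
    (by
      rw [← mul_assoc, mul_comm u X, BB, BB]
      gcongr X * u * (H + ?_ + ?_ + ?_) <;> gcongr)
  simpa using this

lemma RH_scale {s : ℝ} (hs : 0 < s) (hε : 0 ≤ ε) : ∃ K : ℝ, 0 < K ∧ ∀ C H X P t : ℝ, 0 ≤ C →
    0 ≤ H → 0 < X → 0 ≤ P → RH C ε H (X * s) P t ≤ K * RH C ε H X P t := by
  obtain ⟨m, m1, m2, m3, m4⟩ : ∃ m : ℝ, 1 ≤ m ∧ s⁻¹ ≤ m ∧ s ^ (1 / 3 : ℝ) ≤ m ∧ (√s)⁻¹ ≤ m := by
    have h1 : 0 ≤ s⁻¹ := by positivity
    have h2 : 0 ≤ s ^ (1 / 3 : ℝ) := by positivity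
    have h3 : 0 ≤ (√s)⁻¹ := by positivity
    exact ⟨1 + s⁻¹ + s ^ (1 / 3 : ℝ) + (√s)⁻¹, by linarith, by linarith, by linarith, by linarith⟩
  refine ⟨m ^ ε * (s * m), by positivity, fun C H X P t hC hH hX hP => ?_⟩
  have e1 : H ^ 2 * P / (X * s) ≤ m * (H ^ 2 * P / X) := by
    rw [← div_div, div_eq_inv_mul]; gcongr
  have e2 : P * (H * (X * s)) ^ (1 / 3 : ℝ) ≤ m * (P * (H * X) ^ (1 / 3 : ℝ)) := by
    rw [← mul_assoc, Real.mul_rpow (by positivity) hs.le, ← mul_assoc, mul_comm]; gcongr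
  have e3 : H * P ^ 2 / √(X * s) ≤ m * (H * P ^ 2 / √X) := by
    rw [Real.sqrt_mul hX.le, ← div_div, div_eq_inv_mul]; gcongr
  have e4 : H ≤ m * H := le_mul_of_one_le_left hH m1
  have e5 : P ≤ m * P := le_mul_of_one_le_left hP m1
  refine RH_le hC hε hH (by positivity) hP (by linarith) (zero_le_one.trans (one_le_ZZ hH hX hP))
    (by rw [ZZ, ZZ]; linarith) ?_
  rw [show s * m * (X * BB H X P) = X * s * (m * BB H X P) by ring]
  gcongr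
  rw [BB, BB]; linarith

lemma RH_H {z : ℝ} (hC : 0 ≤ C) (hε : 0 ≤ ε) (hH : 0 ≤ H) (hX : 0 < X) (hP : 0 ≤ P) (hz : 1 ≤ z) :
    RH C ε (z * H) X P t ≤ (z ^ 2) ^ ε * z ^ 2 * RH C ε H X P t := by
  have z2 : z ≤ z ^ 2 := by nlinarith
  have z1 : 1 ≤ z ^ 2 := hz.trans z2
  have e1 : z * H ≤ z ^ 2 * H := by gcongr
  have e2 : (z * H) ^ 2 * P / X = z ^ 2 * (H ^ 2 * P / X) := by ring
  have e3 : P * (z * H * X) ^ (1 / 3 : ℝ) ≤ z ^ 2 * (P * (H * X) ^ (1 / 3 : ℝ)) := by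
    rw [mul_assoc z, Real.mul_rpow (by positivity) (by positivity), mul_left_comm]
    gcongr
    exact (third_le hz).trans z2
  have e4 : z * H * P ^ 2 / √X ≤ z ^ 2 * (H * P ^ 2 / √X) := by
    rw [mul_assoc, mul_div_assoc]; gcongr
  have e5 : P ≤ z ^ 2 * P := le_mul_of_one_le_left hP z1
  refine RH_le hC hε (by positivity) hX hP (by positivity)
    (zero_le_one.trans (one_le_ZZ hH hX hP)) (by rw [ZZ, ZZ, e2]; linarith) ?_
  rw [mul_left_comm]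
  gcongr
  rw [BB, BB, e2]; linarith

lemma RH_six {u T : ℝ} (hC : 0 ≤ C) (hε : 0 ≤ ε) (hX : 0 < X) (hP : 0 ≤ P) (hu : 1 ≤ u)
    (hT : u ≤ T) (hH : T ^ 6 ≤ H) :
    RH C ε (H / T ^ 6) (X / u) (P * u) t ≤ RH C (2 * ε) H X P t / T ^ 2 := by
  have u0 : 0 < u := one_pos.trans_le hu
  have T1 : 1 ≤ T := hu.trans hT
  have T0 : 0 < T := one_pos.trans_le T1
  have T6 : T ≤ T ^ 6 := le_self_pow₀ T1 (by norm_num)
  have H0 : 0 ≤ H := (T0.le.trans T6).trans hH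
  have hZ := two_le_ZZ H0 hX hP
  have e0 : (H / T ^ 6) ^ 2 * (P * u) / (X / u) = H ^ 2 * P / X * (u ^ 2 / T ^ 12) := by
    field_simp
  have k0 : u ^ 2 / T ^ 12 ≤ 1 / T ^ 2 := by
    rw [div_le_div_iff₀ (by positivity) (by positivity), one_mul]
    calc u ^ 2 * T ^ 2 ≤ T ^ 2 * T ^ 2 := by gcongr
      _ = T ^ 4 := by ring
      _ ≤ T ^ 12 := pow_le_pow_right₀ T1 (by norm_num)
  have k1 : 1 / T ^ 2 ≤ 1 := div_le_one_of_le₀ (one_le_pow₀ T1) (by positivity)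
  have e1 : H / T ^ 6 ≤ H / T ^ 2 := by gcongr; norm_num
  have e2 : (H / T ^ 6) ^ 2 * (P * u) / (X / u) ≤ H ^ 2 * P / X / T ^ 2 := by
    rw [e0, div_eq_mul_one_div (H ^ 2 * P / X)]; gcongr
  have e3 : P * u * (H / T ^ 6 * (X / u)) ^ (1 / 3 : ℝ) ≤
      u * (P * (H * X) ^ (1 / 3 : ℝ) / T ^ 2) := by
    have : (H / T ^ 6 * (X / u)) ^ (1 / 3 : ℝ) ≤ (H * X) ^ (1 / 3 : ℝ) / T ^ 2 := by
      have e : (T ^ 6) ^ (1 / 3 : ℝ) = T ^ 2 := by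
        rw [← Real.rpow_natCast, ← Real.rpow_mul T0.le, ← Real.rpow_natCast]; norm_num
      rw [← e, ← Real.div_rpow (by positivity) (by positivity), mul_div_right_comm]
      gcongr
      exact div_le_self hX.le hu
    calc _ ≤ P * u * ((H * X) ^ (1 / 3 : ℝ) / T ^ 2) := by gcongr
      _ = _ := by ring
  have e4 : H / T ^ 6 * (P * u) ^ 2 / √(X / u) ≤ u * (H * P ^ 2 / √X / T ^ 2) := by
    have s1 : √u ≤ T := Real.sqrt_le_iff.2 ⟨T0.le, by nlinarith⟩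
    have s0 := Real.sqrt_pos.2 hX
    have s2 := Real.sqrt_pos.2 u0
    rw [Real.sqrt_div hX.le, show H / T ^ 6 * (P * u) ^ 2 / (√X / √u) =
      u * (H * P ^ 2 / √X / T ^ 2) * (u * √u / T ^ 4) by field_simp]
    refine mul_le_of_le_one_right (by positivity) (div_le_one_of_le₀ ?_ (by positivity))
    calc u * √u ≤ T * T := by gcongr
      _ = T ^ 2 := by ring
      _ ≤ T ^ 4 := pow_le_pow_right₀ T1 (by norm_num)
  have := RH_le (H := H) (X := X) (P := P) (H' := H / T ^ 6) (X' := X / u) (P' := P * u) (t := t)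
    (a := ZZ H X P) (b := 1 / T ^ 2) hC hε (by positivity) (by positivity) (by positivity)
    (by linarith) (by linarith) ?_ ?_
  · have e := RH_mul (C := C) (ε := ε) (t := t) 1 ε H0 hX hP
    rw [one_mul, one_mul, ← two_mul] at e
    rw [← e]
    refine this.trans (le_of_eq ?_)
    ring
  · have a1 : H / T ^ 6 ≤ H := div_le_self H0 (one_le_pow₀ T1)
    have a2 : (H / T ^ 6) ^ 2 * (P * u) / (X / u) ≤ H ^ 2 * P / X :=
      e2.trans (div_le_self (by positivity) (one_le_pow₀ T1))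
    have a3 : P * u ≤ P * H := by gcongr; exact hT.trans (T6.trans hH)
    have a4 : 0 ≤ H ^ 2 * P / X := by positivity
    rw [ZZ, ZZ]
    nlinarith [mul_nonneg H0 hP, mul_nonneg H0 a4, mul_nonneg hP a4, sq_nonneg H, sq_nonneg P,
      sq_nonneg (H ^ 2 * P / X)]
  · have a1 : H / T ^ 2 ≤ u * (H / T ^ 2) := le_mul_of_one_le_left (by positivity) hu
    have a2 : H ^ 2 * P / X / T ^ 2 ≤ u * (H ^ 2 * P / X / T ^ 2) :=
      le_mul_of_one_le_left (by positivity) hu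
    calc X / u * BB (H / T ^ 6) (X / u) (P * u) ≤ X / u * (u * (H / T ^ 2) +
          u * (H ^ 2 * P / X / T ^ 2) + u * (P * (H * X) ^ (1 / 3 : ℝ) / T ^ 2) +
          u * (H * P ^ 2 / √X / T ^ 2)) := by
          gcongr
          rw [BB]; linarith
      _ = _ := by rw [BB]; field_simp

lemma exists_log (hε : 0 < ε) :
    ∃ K : ℝ, 1 ≤ K ∧ ∀ (i : ℕ) (y : ℝ), 2 ^ i ≤ y → (i + 1 : ℝ) ≤ K * y ^ ε := by
  obtain ⟨K, h1, h⟩ := succ_le_rpow hε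
  exact ⟨K, h1, fun i y hy => (h i 2 le_rfl).trans (by gcongr)⟩

lemma n2_nonneg (S : Finset O) (F : O → ℂ) : 0 ≤ n2 S F := sum_nonneg fun _ _ => sq_nonneg _

lemma n2_mono {S S' : Finset O} (h : S ⊆ S') (F : O → ℂ) : n2 S F ≤ n2 S' F :=
  sum_le_sum_of_subset_of_nonneg h fun _ _ _ => sq_nonneg _

lemma n2_le {S : Finset O} {F F' : O → ℂ} (h : ∀ d ∈ S, ‖F' d‖ ≤ ‖F d‖) : n2 S F' ≤ n2 S F :=
  sum_le_sum fun d hd => pow_le_pow_left₀ (norm_nonneg _) (h d hd) 2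

/-- Cauchy-Schwarz with the cardinality -/
lemma norm_sum_sq_le {ι : Type*} (s : Finset ι) (z : ι → ℂ) :
    ‖∑ i ∈ s, z i‖ ^ 2 ≤ s.card * ∑ i ∈ s, ‖z i‖ ^ 2 := by
  simpa using QV.wcs s z (fun _ => 1) fun _ _ => one_pos

lemma Mb_nonneg {G W : ℝ} (hG : 0 ≤ G) (hP : 0 ≤ P) (hW : 0 ≤ W) : 0 ≤ Mb G P W := by
  rw [Mb]; positivity

end Pool.Agent.P.MP_323ce2_nt.QW
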