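import Pool.Agent.P.MP_26a8c3_nt.QA.JL
import Pool.Agent.P.MP_323ce2_nt.QW.St

/-! Separation of three variables in the dual test function `J`, with the gain at small argument. -/

namespace Pool.Agent.P.MP_323ce2_nt.QW

open Complex MeasureTheory Set Filter Topology
open Pool.Agent.P.MP_26a8c3_nt Pool.Agent.P.MP_26a8c3_nt.QA
open scoped Real
open QK (kB)

theorem int_right' {B r X γ : ℝ} (hB : 0 < B) (hr : 0 < r) (hX : 0 < X) (hγ : 0 < γ) (t : ℝ) {σ : ℝ}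
    (h1 : -1 / 3 < σ) (h2 : σ ≤ 5 / 2) :
    ∫ v in Ioi (0 : ℝ), (kB B (r * v) : ℂ) * (γ * v * rho X t B (-3 / 2) (γ * v)⁻¹) =
      (X : ℂ) ^ (1 / 2 + t * I) * ((r : ℂ)⁻¹ * Jl σ t (r ^ 2 * (X * B ^ 2 / γ ^ 2))) := by
  have hi := (integrable_Hk X t B (σ := 1 - σ) (by linarith) (by linarith)).comp_neg
  have e0 : ∀ u : ℝ, ((1 - σ : ℝ) : ℂ) + (-u : ℝ) * I = 1 - (σ + u * I) := fun u => by
    push_cast; ring
  simp only [e0] at hi
  have hc : Continuous fun u : ℝ => (γ : ℂ) ^ (2 * ((σ : ℂ) + u * I) - 1) := by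
    simp_rw [cpow_eq hγ]; fun_prop
  have hi2 := hi.mul_bdd (c := γ ^ (2 * σ - 1)) hc.aestronglyMeasurable
    (Eventually.of_forall fun u => by rw [Complex.norm_cpow_eq_rpow_re_of_pos hγ]; simp)
  have h := fubini_k hB hr hi2 (z := fun u : ℝ => 2 * ((σ : ℂ) + u * I)) (by fun_prop)
    (x := 2 * σ) (by linarith) (fun u => by simp)
  have e : ∀ s : ℂ, Hk X t B (1 - s) * (γ : ℂ) ^ (2 * s - 1) * ((r : ℂ) ^ (-(2 * s)) *
      Mk B (2 * s / 2)) = (X : ℂ) ^ (1 / 2 + t * I) * ((r : ℂ)⁻¹ *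
      (Jw t s * ((r ^ 2 * (X * B ^ 2 / γ ^ 2) : ℝ) : ℂ) ^ (1 / 2 - s))) := fun s => by
    have k : Complex.exp ((1 - s + t * I) * Real.log X + (1 - s + t * I) ^ 2 / 4) *
        Complex.exp ((1 - s + 1 / 3) * Real.log B) * Complex.exp ((2 * s - 1) * Real.log γ) *
        Complex.exp (-(2 * s) * Real.log r) * Complex.exp (-(s + 1 / 3) * Real.log B) =
        Complex.exp ((1 / 2 + t * I) * Real.log X) * Complex.exp (-1 * Real.log r) *
        Complex.exp ((1 - s + t * I) * Real.log 1 + (1 - s + t * I) ^ 2 / 4) *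
        Complex.exp ((1 / 2 - s) * Real.log (r ^ 2 * (X * B ^ 2 / γ ^ 2))) := by
      rw [Real.log_mul (by positivity) (by positivity), Real.log_div (by positivity) (by positivity),
        Real.log_mul (by positivity) (by positivity), Real.log_pow, Real.log_pow, Real.log_pow,
        Real.log_one]
      simp only [← Complex.exp_add]
      congr 1
      push_cast
      ring
    rw [mul_div_cancel_left₀ s two_ne_zero, Hk, Mk, Jw, Wt, Wt, ← Complex.cpow_neg_one (r : ℂ),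
      cpow_eq hγ, cpow_eq hr, cpow_eq hr, cpow_eq hB, cpow_eq hX, cpow_eq (by positivity)]
    linear_combination ((√π : ℝ) * (Complex.Gamma (s + 1 / 3) * (Complex.Gamma (1 - s + 1 / 3))⁻¹) *
      (Complex.Gamma (s + 2 / 3) * (Complex.Gamma (1 - s + 2 / 3))⁻¹)) * k
  simp only [e, integral_const_mul] at h
  rw [Jl, mul_left_comm (r : ℂ)⁻¹, mul_left_comm, ← h, ← integral_const_mul]
  refine setIntegral_congr_fun measurableSet_Ioi fun v hv => ?_
  have hv' : 0 < v := hv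
  rw [← rho_shift X t B (σ := 1 - σ) (by linarith) (by linarith) (by positivity), rho,
    ← integral_neg_eq_self, mul_left_comm ((γ : ℂ) * v), ← integral_const_mul, mul_left_comm]
  congr 2
  refine integral_congr_ae (Eventually.of_forall fun u => ?_)
  simp only [e0]
  generalize (σ : ℂ) + u * I = s
  rw [← ofReal_mul, ← Complex.cpow_one ((γ * v : ℝ) : ℂ), cpow_eq (mul_pos hγ hv'), cpow_eq hγ,
    cpow_eq hv', cpow_eq (by positivity), Real.log_inv, Real.log_mul hγ.ne' hv'.ne', mul_left_comm,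
    mul_assoc (Hk X t B (1 - s)), ← Complex.exp_add, ← Complex.exp_add]
  congr 2
  push_cast
  ring

theorem J_zero (t : ℝ) {y : ℝ} (hy : 0 < y) : J t y = Jl 0 t y := by
  have hs := Real.sqrt_pos.2 hy
  have k1 := int_right' one_pos hs one_pos one_pos t (σ := 0) (by norm_num) (by norm_num)
  have k2 := int_right one_pos hs one_pos one_pos t (σ := 1 / 2) (by norm_num) (by norm_num)
  rw [k1] at k2
  simpa [J, Real.sq_sqrt hy.le, hs.ne'] using k2.symm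

theorem norm_Gamma_one {x u : ℝ} (hx : 1 / 3 ≤ x) {z w : ℂ} (hz : z = x + u * I)
    (hw : w = x - u * I + 1) : ‖Complex.Gamma z * (Complex.Gamma w)⁻¹‖ ≤ 3 := by
  have h1 : x ≤ ‖(x : ℂ) - u * I‖ := by simpa using re_le_norm ((x : ℂ) - u * I)
  have h2 : (x : ℂ) - u * I ≠ 0 := norm_pos_iff.1 (by linarith)
  have h3 := norm_Gamma_conj (z := z) (w := x - u * I) (by rw [hz]; simp [sub_eq_add_neg])
  rw [hw, Complex.Gamma_add_one _ h2, mul_inv, mul_left_comm, norm_mul, norm_inv]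
  calc _ ≤ (1 / 3 : ℝ)⁻¹ * 1 := by gcongr; linarith
    _ = 3 := by norm_num

theorem norm_Jw_zero (t u : ℝ) :
    ‖Jw t ((0 : ℝ) + u * I)‖ ≤ 60 * Real.exp (-(1 / 8) * (u - t) ^ 2) := by
  have h1 := norm_Gamma_one (x := 1 / 3) (u := u) le_rfl (z := ((0 : ℝ) + u * I : ℂ) + 1 / 3)
    (w := 1 - ((0 : ℝ) + u * I : ℂ) + 1 / 3) (by push_cast; ring) (by push_cast; ring)
  have h2 := norm_Gamma_one (x := 2 / 3) (u := u) (by norm_num) (z := ((0 : ℝ) + u * I : ℂ) + 2 / 3)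
    (w := 1 - ((0 : ℝ) + u * I : ℂ) + 2 / 3) (by push_cast; ring) (by push_cast; ring)
  have h3 : √π ≤ 2 := Real.sqrt_le_iff.2 ⟨by norm_num, by linarith [Real.pi_lt_four]⟩
  have h4 : Real.exp (((1 - 0) ^ 2 - (u - t) ^ 2) / 4) ≤ 3 * Real.exp (-(1 / 8) * (u - t) ^ 2) := by
    refine le_trans ?_ (mul_le_mul_of_nonneg_right (by linarith [Real.exp_one_lt_d9] :
      Real.exp 1 ≤ 3) (Real.exp_pos _).le)
    rw [← Real.exp_add, Real.exp_le_exp]
    nlinarith [sq_nonneg (u - t)]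
  rw [Jw, norm_mul, norm_mul, norm_Wt_one]
  calc _ ≤ 2 * (3 * Real.exp (-(1 / 8) * (u - t) ^ 2)) * 3 * 3 := by gcongr
    _ ≤ _ := by linarith [Real.exp_pos (-(1 / 8) * (u - t) ^ 2)]

/-- `J` vanishes at zero like a square root. -/
theorem norm_J_small (t : ℝ) {y : ℝ} (hy : 0 < y) : ‖J t y‖ ≤ 60 * √y := by
  rw [J_zero t hy, Real.sqrt_eq_rpow]
  simpa using norm_Jl_le (by norm_num) hy (norm_Jw_zero t)

theorem continuous_Jw' (t : ℝ) {σ : ℝ} (hσ : 0 ≤ σ) : Continuous fun u : ℝ => Jw t (σ + u * I) := by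
  have h1 := continuous_Gamma_line (σ := σ + 1 / 3) (by linarith)
  have h2 := continuous_Gamma_line (σ := σ + 2 / 3) (by linarith)
  have h3 := Complex.differentiable_one_div_Gamma.continuous
  refine (((differentiable_Wt 1 t).continuous.comp (by fun_prop)).mul
    ((h1.congr fun u => ?_).mul (h3.comp (by fun_prop)))).mul
    ((h2.congr fun u => ?_).mul (h3.comp (by fun_prop)))
  · congr 1; push_cast; ring
  · congr 1; push_cast; ring

theorem line_block2 {H Δ ι : Type*} (s : Finset H) (S : Finset Δ) (T : Finset ι)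
    {b : H → Δ → ι → ℂ} {N : ι → ℝ} {β : H → ℝ} {γ : Δ → ℝ} {σ t K D p q r : ℝ} (hσ : 0 ≤ σ)
    (hK : 0 ≤ K) (hD : 0 ≤ D) (hp : 0 < p) (hq : 0 < q) (hr : 0 < r)
    (hN : ∀ i ∈ T, 0 < N i ∧ N i ^ (1 / 2 - σ) ≤ p) (hβ : ∀ h ∈ s, 0 < β h ∧ β h ^ (1 / 2 - σ) ≤ q)
    (hγ : ∀ d ∈ S, 0 < γ d ∧ γ d ^ (1 / 2 - σ) ≤ r)
    (hJ : ∀ u : ℝ, ‖Jw t (σ + u * I)‖ ≤ K * Real.exp (-(1 / 8) * (u - t) ^ 2))
    (hb : ∀ (θ : ι → ℂ) (θ1 : Δ → ℂ), (∀ i, ‖θ i‖ ≤ 1) → (∀ d, ‖θ1 d‖ ≤ 1) →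
      ∑ h ∈ s, ‖∑ d ∈ S, ∑ i ∈ T, θ1 d * θ i * b h d i‖ ^ 2 ≤ D ^ 2)
    {θ : H → ℂ} (hθ : ∑ h ∈ s, ‖θ h‖ ^ 2 ≤ 1) :
    ‖∑ i ∈ T, ∑ h ∈ s, ∑ d ∈ S, θ h * (b h d i * Jl σ t (N i * β h * γ d))‖ ≤
      K * (p * q * r * D) := by
  classical
  have hi : ∀ i ∈ T, ∀ h ∈ s, ∀ d ∈ S, Integrable fun u : ℝ => θ h * b h d i * (Jw t (σ + u * I) *
      ((N i * β h * γ d : ℝ) : ℂ) ^ (1 / 2 - ((σ : ℂ) + u * I))) := fun i hi h hh d hd => by
    have hp := mul_pos (mul_pos (hN i hi).1 (hβ h hh).1) (hγ d hd).1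
    refine Integrable.const_mul (Integrable.mul_bdd (c := (N i * β h * γ d) ^ (1 / 2 - σ))
      (Integrable.mono' (((integrable_exp_neg_mul_sq (by norm_num : (0 : ℝ) < 1 / 8)).comp_sub_right
        t).const_mul K) (continuous_Jw' t hσ).aestronglyMeasurable
        (Eventually.of_forall hJ)) (Continuous.aestronglyMeasurable ?_)
      (Eventually.of_forall fun u => (norm_cpow_half hp σ u).le)) _
    simp_rw [cpow_eq hp]; fun_prop
  have e : ∑ i ∈ T, ∑ h ∈ s, ∑ d ∈ S, θ h * (b h d i * Jl σ t (N i * β h * γ d)) =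
      ((1 / (2 * π) : ℝ) : ℂ) * ∫ u : ℝ, ∑ i ∈ T, ∑ h ∈ s, ∑ d ∈ S, θ h * b h d i *
        (Jw t (σ + u * I) * ((N i * β h * γ d : ℝ) : ℂ) ^ (1 / 2 - ((σ : ℂ) + u * I))) := by
    rw [integral_finsetSum _ fun i h1 => integrable_finsetSum _ fun h h2 =>
      integrable_finsetSum _ (hi i h1 h h2), Finset.mul_sum]
    refine Finset.sum_congr rfl fun i h1 => ?_
    rw [integral_finsetSum _ fun h h2 => integrable_finsetSum _ (hi i h1 h h2), Finset.mul_sum]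
    refine Finset.sum_congr rfl fun h h2 => ?_
    rw [integral_finsetSum _ (hi i h1 h h2), Finset.mul_sum]
    refine Finset.sum_congr rfl fun d _ => ?_
    rw [integral_const_mul, Jl]; ring
  rw [e]
  refine norm_int_le (t := t) (by positivity) fun u => ?_
  set w : ℂ := 1 / 2 - ((σ : ℂ) + u * I) with hw
  have nb : ∀ {x c : ℝ} (P : Prop) [Decidable P], 0 < c → (P → 0 < x ∧ x ^ (1 / 2 - σ) ≤ c) →
      ‖if P then (x : ℂ) ^ w / c else 0‖ ≤ 1 := fun P _ hc h => by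
    split_ifs with hP
    · rw [norm_div, hw, norm_cpow_half (h hP).1, Complex.norm_real, Real.norm_of_nonneg hc.le,
        div_le_one hc]
      exact (h hP).2
    · simp
  have e2 : ∑ i ∈ T, ∑ h ∈ s, ∑ d ∈ S, θ h * b h d i *
      (Jw t (σ + u * I) * ((N i * β h * γ d : ℝ) : ℂ) ^ w) =
      Jw t (σ + u * I) * ((p * q * r : ℝ) * ∑ h ∈ s, θ h * ((if h ∈ s then (β h : ℂ) ^ w / q else 0) *
        ∑ d ∈ S, ∑ i ∈ T, (if d ∈ S then (γ d : ℂ) ^ w / r else 0) *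
          (if i ∈ T then (N i : ℂ) ^ w / p else 0) * b h d i)) := by
    rw [Finset.sum_comm]
    simp only [Finset.mul_sum]
    refine Finset.sum_congr rfl fun h hh => ?_
    rw [Finset.sum_comm]
    refine Finset.sum_congr rfl fun d hd => Finset.sum_congr rfl fun i hi => ?_
    have h1 := (hβ h hh).1
    have h2 := (hN i hi).1
    have p0 := ofReal_ne_zero.2 hp.ne'
    have q0 := ofReal_ne_zero.2 hq.ne'
    have r0 := ofReal_ne_zero.2 hr.ne'
    rw [if_pos hi, if_pos hh, if_pos hd, ofReal_mul,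
      Complex.mul_cpow_ofReal_nonneg (by positivity) (hγ d hd).1.le, ofReal_mul,
      Complex.mul_cpow_ofReal_nonneg h2.le h1.le]
    push_cast
    field_simp
  have h3 := hb (fun i => if i ∈ T then (N i : ℂ) ^ w / p else 0)
    (fun d => if d ∈ S then (γ d : ℂ) ^ w / r else 0) (fun i => nb _ hp (hN i)) fun d => nb _ hr (hγ d)
  have h4 := norm_sum_mul_le s hθ hD (F := fun h => (if h ∈ s then (β h : ℂ) ^ w / q else 0) *
      ∑ d ∈ S, ∑ i ∈ T, (if d ∈ S then (γ d : ℂ) ^ w / r else 0) *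
        (if i ∈ T then (N i : ℂ) ^ w / p else 0) * b h d i)
    (le_trans (Finset.sum_le_sum fun h _ => by
      rw [norm_mul]
      exact pow_le_pow_left₀ (by positivity)
        (mul_le_of_le_one_left (norm_nonneg _) (nb _ hq (hβ h))) 2) h3)
  have h5 := hJ u
  rw [e2, norm_mul, norm_mul, Complex.norm_real, Real.norm_of_nonneg (by positivity), mul_right_comm K]
  gcongr

theorem J_l3_pos : ∃ C : ℝ, 0 < C ∧ ∀ {H Δ ι : Type} (s : Finset H) (S : Finset Δ)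
    (b : H → Δ → ι → ℂ) (N : ι → ℝ) (β : H → ℝ) (γ : Δ → ℝ) (V R D t : ℝ), 0 < V → 1 ≤ R → 0 ≤ D →
    (∀ i, 0 < N i) → (∀ h ∈ s, 1 ≤ V * β h ∧ V * β h ≤ R) → (∀ d ∈ S, 1 ≤ γ d ∧ γ d ≤ R) →
    (∀ h ∈ s, ∀ d ∈ S, Summable fun i => ‖b h d i‖ * N i ^ (-2 : ℝ)) →
    (∀ (z : ℝ) (θ : ι → ℂ) (θ1 : Δ → ℂ) (T : Finset ι), 0 < z → (∀ i, ‖θ i‖ ≤ 1) →
      (∀ d, ‖θ1 d‖ ≤ 1) → (∀ i ∈ T, z * V ≤ N i ∧ N i ≤ 2 * z * V) →
      ∑ h ∈ s, ‖∑ d ∈ S, ∑ i ∈ T, θ1 d * θ i * b h d i‖ ^ 2 ≤ D * (z ^ 3 + z ^ (-(1 / 2) : ℝ))) →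
    ∑ h ∈ s, ‖∑ d ∈ S, ∑' i, b h d i * J t (N i * β h * γ d)‖ ^ 2 ≤
      C * (1 + |t|) ^ 16 * R ^ 2 * D := by
  obtain ⟨C, hC, hJ⟩ := exists_Jw_le
  obtain ⟨C', hC', hJ'⟩ := exists_J_le
  refine ⟨(960 + 8 * C) ^ 2, by positivity, fun s S b N β γ V R D t hV hR hd hN hβ hγ hs hb => ?_⟩
  have hβ0 : ∀ h ∈ s, 0 < β h := fun h hh =>
    pos_of_mul_pos_left (one_pos.trans_le ((hβ h hh).1.trans_eq (mul_comm _ _))) hV.le
  have hγ0 : ∀ d ∈ S, 0 < γ d := fun d hd => one_pos.trans_le (hγ d hd).1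
  have hR0 := one_pos.trans_le hR
  set K := C * (1 + |t|) ^ 8 with hK
  have hK0 : 0 ≤ K := by positivity
  have hD := Real.sqrt_nonneg D
  refine (sum_sq_le_of_dual s _ (b := 960 * (R * √D) + 8 * (K * √D)) fun θ hθ => ?_).trans ?_
  swap
  · have h1 : (1 : ℝ) ≤ (1 + |t|) ^ 8 := one_le_pow₀ (by linarith [abs_nonneg t])
    calc _ ≤ (960 * ((1 + |t|) ^ 8 * R * √D) + 8 * (K * R * √D)) ^ 2 := by
          gcongr
          · exact le_mul_of_one_le_left hR0.le h1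
          · exact le_mul_of_one_le_right hK0 hR
      _ = (960 + 8 * C) ^ 2 * (1 + |t|) ^ 16 * R ^ 2 * √D ^ 2 := by rw [hK]; ring
      _ = _ := by rw [Real.sq_sqrt hd]
  have hsum : ∀ h ∈ s, ∀ d ∈ S, Summable fun i => b h d i * J t (N i * β h * γ d) :=
    fun h hh d hd => by
    have h1 := mul_pos (hβ0 h hh) (hγ0 d hd)
    refine Summable.of_norm_bounded ((hs h hh d hd).mul_left
      (C' * (1 + |t|) ^ 8 * (β h * γ d) ^ (-2 : ℝ))) fun i => ?_
    have := (hJ' t _ (mul_pos (hN i) h1)).2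
    rw [Real.mul_rpow (hN i).le h1.le] at this
    rw [norm_mul, mul_assoc (N i)]
    exact (mul_le_mul_of_nonneg_left this (norm_nonneg _)).trans_eq (by ring)
  refine le_of_tendsto' (tendsto_finsetSum s fun h hh => Tendsto.const_mul (θ h)
    (tendsto_finsetSum S fun d hd => (hsum h hh d hd).hasSum)).norm fun T => ?_
  simp only [Finset.mul_sum]
  rw [Finset.sum_congr rfl fun h _ => Finset.sum_comm, Finset.sum_comm]
  have hg : HasSum (fun j : ℕ => 2 * (K * √D) * (3 / 4 : ℝ) ^ j) (2 * (K * √D) * (1 - 3 / 4)⁻¹) :=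
    (hasSum_geometric_of_lt_one (by norm_num) (by norm_num)).mul_left _
  have hg' : HasSum (fun j : ℕ => 120 * (R * √D) * (7 / 8 : ℝ) ^ j)
      (120 * (R * √D) * (1 - 7 / 8)⁻¹) :=
    (hasSum_geometric_of_lt_one (by norm_num) (by norm_num)).mul_left _
  refine (norm_sum_dyadic_le T N _ (b0 := 960 * (R * √D)) hV (fun T0 _ h0 => ?_) (fun j T1 _ h1 => ?_)
    hg.summable).trans (by rw [hg.tsum_eq]; exact le_of_eq (by ring))
  · refine (norm_sum_dyadic_le T0 (fun i => (N i)⁻¹) _ (b0 := 0) (V := V⁻¹ / 2) (by positivity)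
      (fun T1 h1 h2 => ?_) (fun j T1 _ h1 => ?_) hg'.summable).trans
      (by rw [hg'.tsum_eq]; exact le_of_eq (by ring))
    · rw [Finset.eq_empty_of_forall_notMem (s := T1) fun i hi => ?_]
      · simp
      have h3 := inv_anti₀ (hN i) (h0 i (h1 hi))
      linarith [h2 i hi, inv_pos.2 hV]
    set z : ℝ := (2 ^ j)⁻¹ with hz
    have hz0 : 0 < z := by positivity
    have hz1 : z ≤ 1 := inv_le_one_of_one_le₀ (one_le_pow₀ one_le_two)
    have hT : ∀ i ∈ T1, z * V ≤ N i ∧ N i ≤ 2 * z * V := fun i hi => by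
      have h3 := hN i
      obtain ⟨h4, h5⟩ := h1 i hi
      rw [lt_inv_comm₀ (by positivity) h3] at h4
      rw [inv_le_comm₀ h3 (by positivity)] at h5
      exact ⟨le_of_eq_of_le (by rw [hz]; field_simp; ring) h5,
        h4.le.trans_eq (by rw [hz]; field_simp)⟩
    have := line_block2 s S T1 (N := N) (β := β) (γ := γ) (σ := 0) (t := t) le_rfl (K := 60)
      (by norm_num) (D := √(2 * D * z ^ (-(1 / 2) : ℝ))) (Real.sqrt_nonneg _) (p := √(2 * z * V))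
      (q := √(R / V)) (r := √R) (by positivity) (by positivity) (by positivity)
      (fun i hi => ⟨hN i, by
        rw [sub_zero, ← Real.sqrt_eq_rpow]; exact Real.sqrt_le_sqrt (hT i hi).2⟩)
      (fun h hh => ⟨hβ0 h hh, by
        rw [sub_zero, ← Real.sqrt_eq_rpow]
        exact Real.sqrt_le_sqrt ((le_div_iff₀' hV).2 (hβ h hh).2)⟩)
      (fun d hd => ⟨hγ0 d hd, by
        rw [sub_zero, ← Real.sqrt_eq_rpow]; exact Real.sqrt_le_sqrt (hγ d hd).2⟩)
      (norm_Jw_zero t) (fun θ' θ1 h' h'' => (hb z θ' θ1 T1 hz0 h' h'' hT).trans ?_) hθ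
    · rw [Finset.sum_congr rfl fun i _ => Finset.sum_congr rfl fun h hh =>
        Finset.sum_congr rfl fun d hd => by
          rw [J_zero t (mul_pos (mul_pos (hN i) (hβ0 h hh)) (hγ0 d hd))]]
      refine this.trans ?_
      have h8 : z ^ (1 / 2 : ℝ) ≤ ((7 / 8) ^ j) ^ 2 := by
        rw [← Real.sqrt_eq_rpow, Real.sqrt_le_left (by positivity), ← pow_mul, ← pow_mul, mul_comm,
          pow_mul, hz, ← inv_pow]
        gcongr
        norm_num
      rw [← Real.sqrt_mul (by positivity), ← Real.sqrt_mul (by positivity),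
        ← Real.sqrt_mul (by positivity), show 120 * (R * √D) * (7 / 8 : ℝ) ^ j =
          60 * (2 * R * √D * (7 / 8) ^ j) by ring]
      refine mul_le_mul_of_nonneg_left (Real.sqrt_le_iff.2 ⟨by positivity, ?_⟩) (by norm_num)
      calc _ = 4 * R ^ 2 * D * (z ^ (1 : ℝ) * z ^ (-(1 / 2) : ℝ)) := by
            rw [Real.rpow_one]; field_simp; ring
        _ ≤ 4 * R ^ 2 * D * ((7 / 8) ^ j) ^ 2 := by
            rw [← Real.rpow_add hz0, show (1 : ℝ) + -(1 / 2) = 1 / 2 by norm_num]; gcongr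
        _ = _ := by rw [mul_pow, mul_pow, Real.sq_sqrt hd]; ring
    · have h8 : 1 ≤ z ^ (-(1 / 2) : ℝ) :=
        Real.one_le_rpow_of_pos_of_le_one_of_nonpos hz0 hz1 (by norm_num)
      have h9 : z ^ 3 ≤ 1 := pow_le_one₀ hz0.le hz1
      rw [Real.sq_sqrt (by positivity), mul_comm 2 D, mul_assoc]
      gcongr
      linarith
  · set z : ℝ := 2 ^ j with hz
    have hz0 : 0 < z := by positivity
    have hz1 : 1 ≤ z := one_le_pow₀ one_le_two
    have := line_block2 s S T1 (N := N) (β := β) (γ := γ) (σ := 5 / 2) (t := t) (by norm_num) hK0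
      (D := 2 * 3 ^ j * √D) (by positivity) (p := (z * V) ^ (1 / 2 - 5 / 2 : ℝ))
      (q := V⁻¹ ^ (1 / 2 - 5 / 2 : ℝ)) (r := 1) (by positivity) (by positivity) one_pos
      (fun i hi => ⟨hN i, Real.rpow_le_rpow_of_nonpos (by positivity) (h1 i hi).1.le (by norm_num)⟩)
      (fun h hh => ⟨hβ0 h hh, Real.rpow_le_rpow_of_nonpos (by positivity)
        ((inv_le_iff_one_le_mul₀' hV).2 (hβ h hh).1) (by norm_num)⟩)
      (fun d hd => ⟨hγ0 d hd, Real.rpow_le_one_of_one_le_of_nonpos (hγ d hd).1 (by norm_num)⟩)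
      (fun u => (hJ t u).2) (fun θ' θ1 h' h'' => (hb z θ' θ1 T1 hz0 h' h'' fun i hi =>
        ⟨(h1 i hi).1.le, (h1 i hi).2.trans_eq (by rw [pow_succ'])⟩).trans ?_) hθ
    · rw [Finset.sum_congr rfl fun i _ => Finset.sum_congr rfl fun h hh =>
        Finset.sum_congr rfl fun d hd => by
          rw [J_eq t (mul_pos (mul_pos (hN i) (hβ0 h hh)) (hγ0 d hd)) (σ := 5 / 2) (by norm_num)
            le_rfl]]
      refine this.trans (le_of_eq ?_)
      rw [← Real.mul_rpow (by positivity) (by positivity), mul_inv_cancel_right₀ hV.ne',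
        show (1 / 2 - 5 / 2 : ℝ) = -2 by norm_num, Real.rpow_neg hz0.le, Real.rpow_two, div_pow,
        show (4 : ℝ) ^ j = z ^ 2 by rw [hz, ← pow_mul, mul_comm, pow_mul]; norm_num]
      field_simp
    · have h8 : z ^ 3 ≤ (3 ^ j) ^ 2 := by
        rw [hz, ← pow_mul, ← pow_mul, mul_comm, pow_mul, mul_comm, pow_mul]
        gcongr
        norm_num
      have h9 : z ^ (-(1 / 2) : ℝ) ≤ 1 := Real.rpow_le_one_of_one_le_of_nonpos hz1 (by norm_num)
      have h7 : (1 : ℝ) ≤ (3 ^ j) ^ 2 := one_le_pow₀ (one_le_pow₀ (by norm_num))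
      rw [mul_pow, mul_pow, Real.sq_sqrt hd, mul_comm]
      gcongr
      linarith

/-- Mean square bound for a family of double sums against `J`. -/
theorem J_l3 : ∃ C : ℝ, 0 < C ∧ ∀ {H Δ ι : Type} (s : Finset H) (S : Finset Δ)
    (b : H → Δ → ι → ℂ) (N : ι → ℝ) (β : H → ℝ) (γ : Δ → ℝ) (V R D t : ℝ), 0 < V → 1 ≤ R → 0 ≤ D →
    (∀ h ∈ s, ∀ d ∈ S, ∀ i, b h d i ≠ 0 → 0 < N i) → (∀ h ∈ s, 1 ≤ V * β h ∧ V * β h ≤ R) →
    (∀ d ∈ S, 1 ≤ γ d ∧ γ d ≤ R) →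
    (∀ h ∈ s, ∀ d ∈ S, Summable fun i => ‖b h d i‖ * N i ^ (-2 : ℝ)) →
    (∀ (z : ℝ) (θ : ι → ℂ) (θ1 : Δ → ℂ) (T : Finset ι), 0 < z → (∀ i, ‖θ i‖ ≤ 1) →
      (∀ d, ‖θ1 d‖ ≤ 1) → (∀ i ∈ T, z * V ≤ N i ∧ N i ≤ 2 * z * V) →
      ∑ h ∈ s, ‖∑ d ∈ S, ∑ i ∈ T, θ1 d * θ i * b h d i‖ ^ 2 ≤ D * (z ^ 3 + z ^ (-(1 / 2) : ℝ))) →
    ∑ h ∈ s, ‖∑ d ∈ S, ∑' i, b h d i * J t (N i * β h * γ d)‖ ^ 2 ≤
      C * (1 + |t|) ^ 16 * R ^ 2 * D := by
  classical
  obtain ⟨C, hC, hJ⟩ := J_l3_pos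
  refine ⟨C, hC, fun s S b N β γ V R D t hV hR hD hN hβ hγ hs hb => ?_⟩
  have h0 : ∀ h ∈ s, ∀ d ∈ S, ∀ i, ¬ 0 < N i → b h d i = 0 := fun h hh d hd i hi =>
    by_contra fun h' => hi (hN h hh d hd i h')
  refine le_trans (le_of_eq (Finset.sum_congr rfl fun h hh => ?_))
    (hJ s S b (fun i => if 0 < N i then N i else 1) β γ V R D t hV hR hD
      (fun i => by split_ifs with h; exacts [h, one_pos]) hβ hγ
      (fun h hh d hd => (hs h hh d hd).congr fun i => by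
        split_ifs with hi <;> simp [h0 h hh d hd i, *])
      fun z θ θ1 T hz hθ hθ1 hT => le_trans (le_of_eq (Finset.sum_congr rfl fun h hh => ?_))
        (hb z θ θ1 (T.filter fun i => 0 < N i) hz hθ hθ1 fun i hi => ?_))
  · congr 2
    refine Finset.sum_congr rfl fun d hd => tsum_congr fun i => ?_
    split_ifs with hi <;> simp [h0 h hh d hd i, *]
  · congr 2
    refine Finset.sum_congr rfl fun d hd => (Finset.sum_filter_of_ne fun i _ hi => ?_).symm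
    exact hN h hh d hd i (right_ne_zero_of_mul hi)
  · obtain ⟨h1, h2⟩ := Finset.mem_filter.1 hi
    simpa only [if_pos h2] using hT i h1

theorem pKer : S_Ker := by
  obtain ⟨C, hC, h⟩ := J_l3
  refine ⟨C * 4 ^ 2, by positivity,
    fun s S b β γ β₀ γ₀ V D t hβ hγ hV hD h0 h1 h2 h3 h4 => ?_⟩
  have hV0 : 0 < V := pos_of_mul_pos_left (hV ▸ one_pos) (mul_pos hβ hγ).le
  have := h s S b (fun n => QO.N n) (fun g => β g * γ₀) (fun d => γ d / γ₀) V 4 D t hV0 (by norm_num) hD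
    (fun g _ d _ n hn => QO.N_pos_real fun e => hn (e ▸ h0 g d))
    (fun g hg => ⟨hV.ge.trans (by gcongr; exact (h1 g hg).1), by
      calc V * (β g * γ₀) ≤ V * (4 * β₀ * γ₀) := by gcongr; exact (h1 g hg).2
        _ = 4 := by linear_combination 4 * hV⟩)
    (fun d hd => ⟨(one_le_div hγ).2 (h2 d hd).1, (div_le_iff₀ hγ).2 (h2 d hd).2⟩) h3
    fun z θ θ' T hz k1 k2 k3 => le_trans (le_of_eq (Finset.sum_congr rfl fun g _ => ?_))
      (h4 z θ θ' T hz k1 k2 fun n hn => mul_assoc 2 z V ▸ k3 n hn)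
  · refine le_trans (le_of_eq (Finset.sum_congr rfl fun g _ => ?_)) (this.trans_eq (by ring))
    congr 2
    refine Finset.sum_congr rfl fun d _ => tsum_congr fun n => ?_
    congr 2
    field_simp
  · rw [Finset.sum_comm]
    simp only [mul_comm (θ' _)]

end Pool.Agent.P.MP_323ce2_nt.QW
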