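import Pool.Agent.P.MP_323ce2_nt.QW.St
import Pool.Agent.P.MP_323ce2_nt.QS.St

/-! The weighted quadratic large sieve. -/

namespace Pool.Agent.P.MP_323ce2_nt.QW

open Finset Pool.Agent.P.MP_26a8c3_nt Pool.Agent.P.MP_26a8c3_nt.QO Pool.Agent.P.MP_26a8c3_nt.QA
open Pool.Agent.P.MP_26a8c3_nt.QV
open scoped Classical ComplexConjugate

namespace WLSP

lemma cs {ι : Type} (T : Finset ι) (x : ι → ℂ) :
    ‖∑ i ∈ T, x i‖ ^ 2 ≤ T.card * ∑ i ∈ T, ‖x i‖ ^ 2 :=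
  (pow_le_pow_left₀ (norm_nonneg _) (norm_sum_le _ _) 2).trans sq_sum_le_card_mul_sum_sq

lemma log_le {ε R : ℝ} (hε : 0 < ε) (hR : 1 ≤ R) {k : ℕ} (hk : (2 : ℝ) ^ k ≤ R) :
    (k : ℝ) + 1 ≤ (1 + 2 / ε) * R ^ ε := by
  have h1 : (k : ℝ) * Real.log 2 ≤ R ^ ε / ε := by
    rw [← Real.log_pow]
    exact (Real.log_le_log (by positivity) hk).trans (Real.log_le_rpow_div (by linarith) hε)
  have h2 : (k : ℝ) * (1 / 2) ≤ k * Real.log 2 :=
    mul_le_mul_of_nonneg_left (by linarith [Real.log_two_gt_d9]) (Nat.cast_nonneg k)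
  have h3 : 1 ≤ R ^ ε := Real.one_le_rpow hR hε.le
  have h4 : (1 + 2 / ε) * R ^ ε = R ^ ε + 2 * (R ^ ε / ε) := by ring
  linarith

lemma odd (h : QS.S_OptF) {ε : ℝ} (hε : 0 < ε) : ∃ C : ℝ, 0 ≤ C ∧ ∀ (G R : ℝ) (s S : Finset O)
    (a : O → ℂ), 1 ≤ G → 1 ≤ R → (∀ g ∈ s, SQO g ∧ (N g : ℝ) ≤ G) →
    (∀ m ∈ S, SQO m ∧ (N m : ℝ) ≤ R) →
    ∑ g ∈ s, ‖∑ m ∈ S, a m * eta g m‖ ^ 2 ≤ C * (G * R) ^ ε * ∑ m ∈ S, (G + N m) * ‖a m‖ ^ 2 := by
  have e0 : 0 < ε / 2 := by positivity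
  obtain ⟨C, hC, H⟩ := h (ε / 2) e0
  refine ⟨(1 + 2 / (ε / 2)) * (C * 2 ^ (ε / 2) * 2), by positivity,
    fun G R s S a hG hR hs hS => ?_⟩
  have g1 : 1 ≤ G * R := one_le_mul_of_one_le_of_one_le hG hR
  have g2 : R ≤ G * R := le_mul_of_one_le_left (by linarith) hG
  have f1 : ⌊R⌋₊ ≠ 0 := (Nat.floor_pos.2 hR).ne'
  have pw : ∀ i ≤ Nat.log 2 ⌊R⌋₊, (2 : ℝ) ^ i ≤ R := fun i hi => by
    have := (Nat.pow_le_pow_right two_pos hi).trans (Nat.pow_log_le_self 2 f1)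
    exact le_trans (by exact_mod_cast this) (Nat.floor_le (by linarith))
  have mp : ∀ m ∈ S, Nat.log 2 (N m) ∈ range (Nat.log 2 ⌊R⌋₊ + 1) := fun m hm =>
    mem_range.2 (Nat.lt_succ_of_le (Nat.log_mono_right (Nat.le_floor (hS m hm).2)))
  have a1 : ∀ i ∈ range (Nat.log 2 ⌊R⌋₊ + 1),
      ∑ g ∈ s, ‖∑ m ∈ S with Nat.log 2 (N m) = i, a m * eta g m‖ ^ 2 ≤
        C * 2 ^ (ε / 2) * 2 * (G * R) ^ (ε / 2) *
          ∑ m ∈ S with Nat.log 2 (N m) = i, (G + N m) * ‖a m‖ ^ 2 := by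
    intro i hi
    have b1 := pw i (Nat.le_of_lt_succ (mem_range.1 hi))
    refine (H G (2 ^ (i + 1)) _ s a hG (one_le_pow₀ one_le_two) (fun m hm => ?_) hs).trans ?_
    · obtain ⟨c1, c2⟩ := mem_filter.1 hm
      refine ⟨(hS m c1).1, ?_⟩
      have := Nat.lt_pow_succ_log_self one_lt_two (N m)
      rw [c2] at this
      exact_mod_cast this.le
    · have b2 : (G * 2 ^ (i + 1)) ^ (ε / 2) ≤ 2 ^ (ε / 2) * (G * R) ^ (ε / 2) := by
        rw [← Real.mul_rpow (by norm_num) (by linarith)]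
        refine Real.rpow_le_rpow (by positivity) ?_ e0.le
        rw [pow_succ]
        nlinarith
      have b3 : (G + 2 ^ (i + 1)) * ∑ m ∈ S with Nat.log 2 (N m) = i, ‖a m‖ ^ 2 ≤
          2 * ∑ m ∈ S with Nat.log 2 (N m) = i, (G + N m) * ‖a m‖ ^ 2 := by
        rw [mul_sum, mul_sum]
        refine sum_le_sum fun m hm => ?_
        obtain ⟨c1, c2⟩ := mem_filter.1 hm
        have c3 := Nat.pow_log_le_self 2 (N_pos (hS m c1).1.1.1.ne_zero).ne'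
        rw [c2] at c3
        have c4 : (2 : ℝ) ^ i ≤ N m := by exact_mod_cast c3
        rw [← mul_assoc, pow_succ]
        exact mul_le_mul_of_nonneg_right (by linarith) (by positivity)
      rw [mul_assoc (C * _)]
      refine (mul_le_mul (mul_le_mul_of_nonneg_left b2 hC.le) b3 (by positivity)
        (by positivity)).trans (le_of_eq ?_)
      ring
  have a2 : ∑ g ∈ s, ‖∑ m ∈ S, a m * eta g m‖ ^ 2 ≤ ((Nat.log 2 ⌊R⌋₊ : ℝ) + 1) *
      ∑ i ∈ range (Nat.log 2 ⌊R⌋₊ + 1),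
        ∑ g ∈ s, ‖∑ m ∈ S with Nat.log 2 (N m) = i, a m * eta g m‖ ^ 2 := by
    rw [sum_comm, mul_sum]
    refine sum_le_sum fun g _ => ?_
    rw [← sum_fiberwise_of_maps_to mp]
    simpa using cs (range (Nat.log 2 ⌊R⌋₊ + 1))
      fun i => ∑ m ∈ S with Nat.log 2 (N m) = i, a m * eta g m
  have a3 := sum_le_sum a1
  rw [← mul_sum, sum_fiberwise_of_maps_to mp] at a3
  have a4 := log_le e0 g1 ((pw _ le_rfl).trans g2)
  have a5 : (G * R) ^ ε = (G * R) ^ (ε / 2) * (G * R) ^ (ε / 2) := by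
    rw [← Real.rpow_add (by linarith), add_halves]
  refine a2.trans ((mul_le_mul a4 a3 (by positivity) (by positivity)).trans (le_of_eq ?_))
  rw [a5]
  ring

lemma half {m : O} (hm : SQ m) (h : ¬ Od m) : -2 * quo m (-2) = m ∧ SQO (quo m (-2)) := by
  have h1 : -2 * quo m (-2) = m := mul_quo (neg_dvd.2 (not_not.1 fun e => h (od_iff.2 e)))
  refine ⟨h1, ⟨Primary.of_mul (h1.symm ▸ hm.1) primary_neg_two,
    hm.2.squarefree_of_dvd (Dvd.intro_left _ h1)⟩, od_iff.2 fun e => ?_⟩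
  refine prime_two.not_isUnit (hm.2 2 ?_)
  rw [← h1]
  exact mul_dvd_mul (dvd_neg.2 dvd_rfl) e

end WLSP

open WLSP in
theorem pWLS (h : QS.S_OptF) : S_WLS := by
  intro ε hε
  obtain ⟨C, hC, H⟩ := odd h hε
  refine ⟨2 * C, by positivity, fun G R s S a hG hR hs hS => ?_⟩
  have inj : Set.InjOn (fun m : O => quo m (-2)) (S.filter fun m => ¬ Od m) := by
    intro x hx y hy e
    obtain ⟨x1, x2⟩ := mem_filter.1 hx
    obtain ⟨y1, y2⟩ := mem_filter.1 hy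
    rw [← (half (hS x x1).1 x2).1, ← (half (hS y y1).1 y2).1]
    exact congrArg _ e
  have le : ∀ m ∈ S.filter fun m => ¬ Od m, (N (quo m (-2)) : ℝ) ≤ N m := fun m hm => by
    obtain ⟨x1, x2⟩ := mem_filter.1 hm
    exact_mod_cast N_le_of_dvd (Dvd.intro_left _ (half (hS m x1).1 x2).1) (hS m x1).1.1.ne_zero
  have a1 := H G R s (S.filter Od) a hG hR hs fun m hm =>
    ⟨⟨(hS m (mem_filter.1 hm).1).1, (mem_filter.1 hm).2⟩, (hS m (mem_filter.1 hm).1).2⟩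
  have a2 := H G R s ((S.filter fun m => ¬ Od m).image fun m => quo m (-2)) (fun n => a (-2 * n))
    hG hR hs fun n hn => by
      obtain ⟨m, hm, rfl⟩ := mem_image.1 hn
      obtain ⟨x1, x2⟩ := mem_filter.1 hm
      exact ⟨(half (hS m x1).1 x2).2, (le m hm).trans (hS m x1).2⟩
  simp only [sum_image inj] at a2
  have a3 : ∑ m ∈ S with ¬ Od m, (G + N (quo m (-2))) * ‖a (-2 * quo m (-2))‖ ^ 2 ≤
      ∑ m ∈ S with ¬ Od m, (G + N m) * ‖a m‖ ^ 2 := sum_le_sum fun m hm => by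
    rw [(half (hS m (mem_filter.1 hm).1).1 (mem_filter.1 hm).2).1]
    exact mul_le_mul_of_nonneg_right (by linarith [le m hm]) (by positivity)
  have a4 : ∀ g ∈ s, ‖∑ m ∈ S, a m * eta g m‖ ^ 2 ≤ 2 * ‖∑ m ∈ S with Od m, a m * eta g m‖ ^ 2 +
      2 * ‖∑ m ∈ S with ¬ Od m, a (-2 * quo m (-2)) * eta g (quo m (-2))‖ ^ 2 := by
    intro g _
    have b1 : ∑ m ∈ S with ¬ Od m, a m * eta g m =
        eta g (-2) * ∑ m ∈ S with ¬ Od m, a (-2 * quo m (-2)) * eta g (quo m (-2)) := by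
      rw [mul_sum]
      refine sum_congr rfl fun m hm => ?_
      rw [mul_left_comm, ← eta_mul, (half (hS m (mem_filter.1 hm).1).1 (mem_filter.1 hm).2).1]
    rw [← sum_filter_add_sum_filter_not S Od, b1]
    generalize ∑ m ∈ S with Od m, a m * eta g m = x
    generalize ∑ m ∈ S with ¬ Od m, a (-2 * quo m (-2)) * eta g (quo m (-2)) = y
    have b2 : ‖x + eta g (-2) * y‖ ≤ ‖x‖ + ‖y‖ := by
      refine (norm_add_le _ _).trans (add_le_add_right ?_ _)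
      rw [norm_mul]
      exact mul_le_of_le_one_left (norm_nonneg _) (norm_eta_le _ _)
    have b3 := pow_le_pow_left₀ (norm_nonneg _) b2 2
    nlinarith [sq_nonneg (‖x‖ - ‖y‖)]
  have a5 := a2.trans (mul_le_mul_of_nonneg_left a3 (by positivity))
  refine (sum_le_sum a4).trans ?_
  rw [sum_add_distrib, ← mul_sum, ← mul_sum, ← sum_filter_add_sum_filter_not S Od]
  linarith

end Pool.Agent.P.MP_323ce2_nt.QW
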